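import Pool.Agent.Lib.MP_32f877_an.Tail

/-! Totally hyperbolic motions of four small masses with collinear limit velocities. -/

open Finset

namespace Pool.Agent.Lib.MP_32f877_an

/-- Three dimensional Euclidean space. -/
abbrev E3 := EuclideanSpace ℝ (Fin 3)

/-- The Newtonian attraction kernel. -/
noncomputable def att (d : E3) : E3 := (‖d‖ ^ 3)⁻¹ • d

theorem att_lip {d d' : E3} {ρ : ℝ} (hρ : 0 < ρ) (hd : ρ ≤ ‖d‖) (hd' : ρ ≤ ‖d'‖) :
    ‖att d - att d'‖ ≤ 4 * ‖d - d'‖ / ρ ^ 3 := by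
  set a := ‖d‖ with ha
  set b := ‖d'‖ with hb
  have ha0 : 0 < a := hρ.trans_le hd
  have hb0 : 0 < b := hρ.trans_le hd'
  have h1 : att d - att d' = (a ^ 3)⁻¹ • (d - d') + ((a ^ 3)⁻¹ - (b ^ 3)⁻¹) • d' := by
    simp only [att, ← ha, ← hb, smul_sub, sub_smul]
    abel
  have h2 : |b - a| ≤ ‖d - d'‖ := by
    rw [abs_sub_comm]
    exact abs_norm_sub_norm_le d d'
  have h3 : ((a ^ 3)⁻¹ - (b ^ 3)⁻¹) * b = (b - a) * (1 / (a * b * b) + 1 / (a * a * b) + 1 / (a * a * a)) := by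
    field_simp
    ring
  have h4 : 1 / (a * b * b) + 1 / (a * a * b) + 1 / (a * a * a) ≤ 3 / ρ ^ 3 := by
    have e : 3 / ρ ^ 3 = 1 / (ρ * ρ * ρ) + 1 / (ρ * ρ * ρ) + 1 / (ρ * ρ * ρ) := by
      field_simp
      ring
    rw [e]
    gcongr
  have h5 : (a ^ 3)⁻¹ ≤ 1 / ρ ^ 3 := by
    rw [← one_div]
    gcongr
  have h6 : ‖((a ^ 3)⁻¹ - (b ^ 3)⁻¹) • d'‖ ≤ ‖d - d'‖ * (3 / ρ ^ 3) := by
    rw [norm_smul, ← hb, Real.norm_eq_abs, ← abs_of_pos hb0, ← abs_mul, abs_of_pos hb0, h3,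
      abs_mul, abs_of_pos (a := 1 / (a * b * b) + 1 / (a * a * b) + 1 / (a * a * a)) (by positivity)]
    gcongr
  have h7 : ‖(a ^ 3)⁻¹ • (d - d')‖ ≤ 1 / ρ ^ 3 * ‖d - d'‖ := by
    rw [norm_smul, Real.norm_eq_abs, abs_of_pos (by positivity)]
    gcongr
  rw [h1]
  refine (norm_add_le _ _).trans ((add_le_add h7 h6).trans (le_of_eq ?_))
  ring

/-- The unit vector of the first axis. -/
noncomputable def ex : E3 := EuclideanSpace.single 0 1

theorem norm_ex : ‖ex‖ = 1 := by simp [ex]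

/-- The limit velocities. -/
noncomputable def vel (i : Fin 4) : ℝ := 20 * ((i : ℕ) : ℝ)

theorem vel_sep {i j : Fin 4} (h : j ≠ i) : 20 ≤ |vel j - vel i| := by
  have h1 : (1 : ℤ) ≤ |((j : ℕ) : ℤ) - ((i : ℕ) : ℤ)| := by
    apply Int.one_le_abs
    intro h2
    apply h
    apply Fin.ext
    omega
  have h2 : (1 : ℝ) ≤ |((j : ℕ) : ℝ) - ((i : ℕ) : ℝ)| := by exact_mod_cast h1
  rw [vel, vel, ← mul_sub, abs_mul, abs_of_pos (by norm_num : (0 : ℝ) < 20)]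
  linarith

/-- The coefficients of the logarithmic terms. -/
noncomputable def kap (m : Fin 4 → ℝ) (i : Fin 4) : ℝ :=
  ∑ j ∈ univ.erase i, m j * ((|vel j - vel i| ^ 3)⁻¹ * (vel j - vel i))

theorem sum_erase_le {i : Fin 4} {f : Fin 4 → ℝ} {c : ℝ} (h : ∀ j, j ≠ i → f j ≤ c) :
    ∑ j ∈ univ.erase i, f j ≤ 3 * c := by
  have h1 := Finset.sum_le_card_nsmul (univ.erase i) f c fun j hj => h j (ne_of_mem_erase hj)
  rw [card_erase_of_mem (mem_univ i)] at h1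
  simpa using h1

theorem abs_kap_le {m : Fin 4 → ℝ} (h0 : ∀ j, 0 ≤ m j) (h1 : ∀ j, m j ≤ 1) (i : Fin 4) :
    |kap m i| ≤ 1 / 2 := by
  refine (abs_sum_le_sum_abs _ _).trans ((sum_erase_le (c := 1 / 6) fun j hj => ?_).trans (by norm_num))
  have h2 := vel_sep hj
  set w := vel j - vel i
  rw [abs_mul, abs_mul, abs_of_nonneg (h0 j), abs_of_nonneg (by positivity : (0 : ℝ) ≤ (|w| ^ 3)⁻¹)]
  have h3 : (|w| ^ 3)⁻¹ * |w| = 1 / |w| ^ 2 := by
    field_simp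
  have h4 : 1 / |w| ^ 2 ≤ 1 / (20 : ℝ) ^ 2 := by gcongr
  rw [h3]
  have h5 : m j * (1 / |w| ^ 2) ≤ 1 * (1 / (20 : ℝ) ^ 2) := by
    have := h1 j
    gcongr
  linarith

/-- The approximate motion. -/
noncomputable def base (m : Fin 4 → ℝ) (b : Fin 4 → E3) (s : ℝ) (i : Fin 4) : E3 :=
  (vel i * s - kap m i * Real.log s) • ex + b i

/-- The right hand side of the equation for the correction. -/
noncomputable def rhs (m : Fin 4 → ℝ) (b : Fin 4 → E3) (s : ℝ) (u : Fin 4 → E3) (i : Fin 4) : E3 :=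
  ∑ j ∈ univ.erase i, m j •
    (att (base m b s j + u j - (base m b s i + u i)) - att ((s * (vel j - vel i)) • ex))

section Bounds

variable {m : Fin 4 → ℝ} {b : Fin 4 → E3} {μ : ℝ}

theorem norm_off_le (hb : ∀ j, ‖b j‖ ≤ 4) {u : Fin 4 → E3} (hu : ‖u‖ ≤ 1) (i j : Fin 4) :
    ‖b j + u j - (b i + u i)‖ ≤ 10 := by
  have h1 := (norm_le_pi_norm u i).trans hu
  have h2 := (norm_le_pi_norm u j).trans hu
  have h3 := norm_sub_le (b j + u j) (b i + u i)
  have h4 := norm_add_le (b j) (u j)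
  have h5 := norm_add_le (b i) (u i)
  linarith [hb i, hb j]

theorem norm_dev_le (h0 : ∀ j, 0 ≤ m j) (h1 : ∀ j, m j ≤ 1) (hb : ∀ j, ‖b j‖ ≤ 4) {s : ℝ}
    (hs : 1 ≤ s) {u : Fin 4 → E3} (hu : ‖u‖ ≤ 1) (i j : Fin 4) :
    ‖base m b s j + u j - (base m b s i + u i) - (s * (vel j - vel i)) • ex‖ ≤ Real.log s + 10 := by
  have e : base m b s j + u j - (base m b s i + u i) - (s * (vel j - vel i)) • ex =
      ((kap m i - kap m j) * Real.log s) • ex + (b j + u j - (b i + u i)) := by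
    simp only [base]
    module
  have hl : 0 ≤ Real.log s := Real.log_nonneg hs
  have hk : |kap m i - kap m j| ≤ 1 := by
    have := abs_sub (kap m i) (kap m j)
    linarith [abs_kap_le h0 h1 i, abs_kap_le h0 h1 j]
  rw [e]
  refine (norm_add_le _ _).trans (add_le_add ?_ (norm_off_le hb hu i j))
  rw [norm_smul, norm_ex, mul_one, Real.norm_eq_abs, abs_mul, abs_of_nonneg hl]
  nlinarith

theorem norm_lead {s : ℝ} (hs : 1 ≤ s) {i j : Fin 4} (h : j ≠ i) :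
    20 * s ≤ ‖(s * (vel j - vel i)) • ex‖ := by
  rw [norm_smul, norm_ex, mul_one, Real.norm_eq_abs, abs_mul, abs_of_nonneg (by linarith)]
  nlinarith [vel_sep h]

theorem norm_sep (h0 : ∀ j, 0 ≤ m j) (h1 : ∀ j, m j ≤ 1) (hb : ∀ j, ‖b j‖ ≤ 4) {s : ℝ}
    (hs : 1 ≤ s) {u : Fin 4 → E3} (hu : ‖u‖ ≤ 1) {i j : Fin 4} (h : j ≠ i) :
    s ≤ ‖base m b s j + u j - (base m b s i + u i)‖ := by
  have h2 := norm_dev_le h0 h1 hb hs hu i j
  have h3 := norm_lead hs h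
  have h4 := Real.log_le_sub_one_of_pos (by linarith : 0 < s)
  have h5 := norm_sub_norm_le ((s * (vel j - vel i)) • ex)
    (base m b s j + u j - (base m b s i + u i))
  rw [norm_sub_rev] at h2
  linarith

theorem rpow_neg_three {s : ℝ} (hs : 1 ≤ s) : s ^ (-(3 : ℝ)) = 1 / s ^ 3 := by
  rw [Real.rpow_neg (by linarith), one_div]
  norm_cast

theorem log_bound {s : ℝ} (hs : 1 ≤ s) :
    (Real.log s + 10) / s ^ 3 ≤ 12 * s ^ (-(5 / 2 : ℝ)) := by
  have hs0 : 0 < s := by linarith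
  have h1 : Real.log s ≤ s ^ (1 / 2 : ℝ) / (1 / 2) := Real.log_le_rpow_div hs0.le (by norm_num)
  have h2 : 1 ≤ s ^ (1 / 2 : ℝ) := Real.one_le_rpow hs (by norm_num)
  have h3 : s ^ (-(5 / 2 : ℝ)) = s ^ (1 / 2 : ℝ) / s ^ 3 := by
    rw [div_eq_mul_one_div (s ^ (1 / 2 : ℝ)), ← rpow_neg_three hs, ← Real.rpow_add hs0]
    norm_num
  rw [h3, ← mul_div_assoc]
  gcongr
  linarith

theorem rhs_bound (h0 : ∀ j, 0 ≤ m j) (hμ : ∀ j, m j ≤ μ) (hμ1 : μ ≤ 1) (hb : ∀ j, ‖b j‖ ≤ 4)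
    (s : ℝ) (hs : 1 ≤ s) (u : Fin 4 → E3) (hu : ‖u‖ ≤ 1) :
    ‖rhs m b s u‖ ≤ 144 * μ * s ^ (-(5 / 2 : ℝ)) := by
  have h1 : ∀ j, m j ≤ 1 := fun j => (hμ j).trans hμ1
  have hμ0 : 0 ≤ μ := (h0 0).trans (hμ 0)
  have hs0 : 0 < s := by linarith
  refine (pi_norm_le_iff_of_nonneg (by positivity)).2 fun i => ?_
  refine (norm_sum_le _ _).trans ((sum_erase_le (c := 48 * μ * s ^ (-(5 / 2 : ℝ)))
    fun j hj => ?_).trans (le_of_eq (by ring)))
  rw [norm_smul, Real.norm_eq_abs, abs_of_nonneg (h0 j)]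
  have h2 := att_lip hs0 (norm_sep h0 h1 hb hs hu hj) (le_trans (by linarith) (norm_lead hs hj))
  have h3 := norm_dev_le h0 h1 hb hs hu i j
  have h4 := log_bound hs
  have h5 := hμ j
  calc _ ≤ μ * (4 * (Real.log s + 10) / s ^ 3) := by
        refine mul_le_mul h5 (h2.trans ?_) (norm_nonneg _) hμ0
        gcongr
    _ = 4 * μ * ((Real.log s + 10) / s ^ 3) := by ring
    _ ≤ 4 * μ * (12 * s ^ (-(5 / 2 : ℝ))) := by gcongr
    _ = _ := by ring

theorem rhs_lip (h0 : ∀ j, 0 ≤ m j) (hμ : ∀ j, m j ≤ μ) (hμ1 : μ ≤ 1) (hb : ∀ j, ‖b j‖ ≤ 4)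
    (s : ℝ) (hs : 1 ≤ s) (u u' : Fin 4 → E3) (hu : ‖u‖ ≤ 1) (hu' : ‖u'‖ ≤ 1) :
    ‖rhs m b s u - rhs m b s u'‖ ≤ 24 * μ * ‖u - u'‖ * s ^ (-(3 : ℝ)) := by
  have h1 : ∀ j, m j ≤ 1 := fun j => (hμ j).trans hμ1
  have hμ0 : 0 ≤ μ := (h0 0).trans (hμ 0)
  have hs0 : 0 < s := by linarith
  refine (pi_norm_le_iff_of_nonneg (by positivity)).2 fun i => ?_
  rw [Pi.sub_apply, rhs, rhs, ← sum_sub_distrib]
  refine (norm_sum_le _ _).trans ((sum_erase_le (c := 8 * μ * ‖u - u'‖ * s ^ (-(3 : ℝ)))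
    fun j hj => ?_).trans (le_of_eq (by ring)))
  rw [← smul_sub, sub_sub_sub_cancel_right, norm_smul, Real.norm_eq_abs, abs_of_nonneg (h0 j)]
  have h2 := att_lip hs0 (norm_sep h0 h1 hb hs hu hj) (norm_sep h0 h1 hb hs hu' hj)
  have e : base m b s j + u j - (base m b s i + u i) - (base m b s j + u' j - (base m b s i + u' i))
      = (u - u') j - (u - u') i := by
    simp only [Pi.sub_apply]
    abel
  have h3 : ‖(u - u') j - (u - u') i‖ ≤ 2 * ‖u - u'‖ := by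
    have := norm_sub_le ((u - u') j) ((u - u') i)
    linarith [norm_le_pi_norm (u - u') i, norm_le_pi_norm (u - u') j]
  rw [e] at h2
  have h5 := hμ j
  calc _ ≤ μ * (4 * (2 * ‖u - u'‖) / s ^ 3) := by
        refine mul_le_mul h5 (h2.trans ?_) (norm_nonneg _) hμ0
        gcongr
    _ = _ := by rw [rpow_neg_three hs]; ring

theorem rhs_transverse (h0 : ∀ j, 0 ≤ m j) (hμ : ∀ j, m j ≤ μ) (hμ1 : μ ≤ 1)
    (hb : ∀ j, ‖b j‖ ≤ 4) (i : Fin 4) {k : Fin 3} (hk : k ≠ 0)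
    (s : ℝ) (hs : 1 ≤ s) (u : Fin 4 → E3) (hu : ‖u‖ ≤ 1) :
    |rhs m b s u i k| ≤ 30 * μ * s ^ (-(3 : ℝ)) := by
  have h1 : ∀ j, m j ≤ 1 := fun j => (hμ j).trans hμ1
  have hμ0 : 0 ≤ μ := (h0 0).trans (hμ 0)
  have hs0 : 0 < s := by linarith
  have hex : ex k = 0 := by simp [ex, hk]
  have e : rhs m b s u i k = ∑ j ∈ univ.erase i, m j *
      ((‖base m b s j + u j - (base m b s i + u i)‖ ^ 3)⁻¹ * (b j + u j - (b i + u i)) k) := by
    simp only [rhs, WithLp.ofLp_sum, Finset.sum_apply]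
    refine sum_congr rfl fun j _ => ?_
    simp [att, base, hex]
  rw [e]
  refine (abs_sum_le_sum_abs _ _).trans ((sum_erase_le (c := 10 * μ * s ^ (-(3 : ℝ)))
    fun j hj => ?_).trans (le_of_eq (by ring)))
  have h2 := norm_sep h0 h1 hb hs hu hj
  have h3 : |(b j + u j - (b i + u i)) k| ≤ 10 :=
    (PiLp.norm_apply_le (b j + u j - (b i + u i)) k).trans (norm_off_le hb hu i j)
  have h4 : (‖base m b s j + u j - (base m b s i + u i)‖ ^ 3)⁻¹ ≤ 1 / s ^ 3 := by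
    rw [← one_div]
    gcongr
  have h5 := hμ j
  rw [abs_mul, abs_mul, abs_of_nonneg (h0 j), abs_of_nonneg (by positivity)]
  calc _ ≤ μ * (1 / s ^ 3 * 10) := by gcongr
    _ = _ := by rw [rpow_neg_three hs]; ring

theorem continuous_att {f : ℝ → E3} (hf : Continuous f) (h : ∀ s, f s ≠ 0) :
    Continuous fun s => att (f s) :=
  ((hf.norm.pow 3).inv₀ fun s => pow_ne_zero 3 (norm_ne_zero_iff.2 (h s))).smul hf

theorem rhs_cont (h0 : ∀ j, 0 ≤ m j) (h1 : ∀ j, m j ≤ 1) (hb : ∀ j, ‖b j‖ ≤ 4)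
    (u : ℝ → Fin 4 → E3) (hu : Continuous u) (hu1 : ∀ s, ‖u s‖ ≤ 1) :
    Continuous fun s => rhs m b (max s 1) (u s) := by
  have hl : Continuous fun s : ℝ => Real.log (max s 1) :=
    Continuous.log (by fun_prop) fun s => (lt_of_lt_of_le one_pos (le_max_right s 1)).ne'
  refine continuous_pi fun i => continuous_finsetSum _ fun j hj => ?_
  have hj' := ne_of_mem_erase hj
  have hc1 : Continuous fun s : ℝ =>
      base m b (max s 1) j + u s j - (base m b (max s 1) i + u s i) := by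
    simp only [base]
    fun_prop
  have hc2 : Continuous fun s : ℝ => (max s 1 * (vel j - vel i)) • ex := by fun_prop
  refine Continuous.const_smul (Continuous.sub (continuous_att hc1 fun s => ?_)
    (continuous_att hc2 fun s => ?_)) (m j)
  · have := norm_sep h0 h1 hb (le_max_right s 1) (hu1 s) hj'
    rw [← norm_pos_iff]
    linarith [le_max_right s 1]
  · have := norm_lead (le_max_right s 1) hj'
    rw [← norm_pos_iff]
    linarith [le_max_right s 1]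

theorem lead_sum {s : ℝ} (hs : 0 < s) (i : Fin 4) :
    ∑ j ∈ univ.erase i, m j • att ((s * (vel j - vel i)) • ex) = (kap m i / s ^ 2) • ex := by
  rw [kap, sum_div, sum_smul]
  refine sum_congr rfl fun j hj => ?_
  have h : 0 < |vel j - vel i| := by linarith [vel_sep (ne_of_mem_erase hj)]
  rw [att, norm_smul, norm_ex, mul_one, Real.norm_eq_abs, abs_mul, abs_of_pos hs, smul_smul,
    smul_smul]
  congr 1
  field_simp

/-- Existence of the hyperbolic motion with the estimates on the correction term. -/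
theorem exists_motion (h0 : ∀ j, 0 ≤ m j) (hμ : ∀ j, m j ≤ μ) (hμ1 : μ ≤ 1 / 200)
    (hb : ∀ j, ‖b j‖ ≤ 4) :
    ∃ u : ℝ → Fin 4 → E3, ∃ v : Fin 4 → ℝ → E3,
      (∀ i s, 1 < s → HasDerivAt (fun s => base m b s i + u s i) (v i s) s ∧
        HasDerivAt (v i) (∑ j ∈ univ.erase i,
          m j • att (base m b s j + u s j - (base m b s i + u s i))) s) ∧
      (∀ s, 1 ≤ s → ‖u s‖ ≤ 192 * μ) ∧
      ∀ s, 1 ≤ s → ∀ i (k : Fin 3), k ≠ 0 → |u s i k| ≤ 15 * μ / s := by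
  have hμ0 : 0 ≤ μ := (h0 0).trans (hμ 0)
  have hμ2 : μ ≤ 1 := by linarith
  have h1 : ∀ j, m j ≤ 1 := fun j => (hμ j).trans hμ2
  obtain ⟨u, p, hd, hu, hφ⟩ := exists_decaying (rhs m b) (144 * μ) (24 * μ) (by positivity)
    (by positivity) (by linarith) (by linarith) (rhs_cont h0 h1 hb) (rhs_bound h0 hμ hμ2 hb)
    (rhs_lip h0 hμ hμ2 hb)
  refine ⟨u, fun i s => (vel i - kap m i * s⁻¹) • ex + p s i, fun i s hs => ⟨?_, ?_⟩,
    fun s hs => (hu s hs).trans (le_of_eq (by ring)), fun s hs i k hk => ?_⟩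
  · have hs0 : s ≠ 0 := by linarith
    refine HasDerivAt.fun_add ?_ (hasDerivAt_pi.1 (hd s hs).1 i)
    simp only [base]
    refine HasDerivAt.add_const _ (HasDerivAt.smul_const ?_ _)
    have := ((hasDerivAt_id' s).const_mul (vel i)).fun_sub
      ((Real.hasDerivAt_log hs0).const_mul (kap m i))
    rw [mul_one] at this
    exact this
  · have hs0 : 0 < s := by linarith
    have h2 : HasDerivAt (fun s : ℝ => (vel i - kap m i * s⁻¹) • ex) ((kap m i / s ^ 2) • ex) s := by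
      refine HasDerivAt.smul_const ?_ _
      have := ((hasDerivAt_inv hs0.ne').const_mul (kap m i)).const_sub (vel i)
      refine this.congr_deriv ?_
      ring
    have h3 := h2.fun_add (hasDerivAt_pi.1 (hd s hs).2 i)
    refine h3.congr_deriv ?_
    rw [← lead_sum hs0 i, rhs, ← sum_add_distrib]
    refine sum_congr rfl fun j _ => ?_
    rw [smul_sub]
    abel
  · have h2 := hφ ((EuclideanSpace.proj k).comp (ContinuousLinearMap.proj i)) (30 * μ)
      (fun s hs w hw => rhs_transverse h0 hμ hμ2 hb i hk s hs w hw) s hs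
    refine le_trans h2 (le_of_eq (by ring))

end Bounds

end Pool.Agent.Lib.MP_32f877_an
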