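import Pool.Agent.Lib.MP_32f877_an.Surj

/-! Pointwise meaning of a zero of the rescaled system. -/

open Complex ComplexConjugate Filter Topology

namespace Pool.Agent.Lib.MP_32f877_an.Bd

abbrev E3 := EuclideanSpace ℝ (Fin 3)

noncomputable def VL : ℂ × ℂ →L[ℝ] E3 :=
  LinearMap.toContinuousLinearMap
    { toFun := fun x => !₂[x.1.re, x.1.im, x.2.re]
      map_add' := fun x y => by ext i; fin_cases i <;> simp
      map_smul' := fun r x => by ext i; fin_cases i <;> simp }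

theorem VL_def (c z : ℂ) : VL (c, z) = !₂[c.re, c.im, z.re] := rfl

theorem VL_sq (c z : ℂ) : ‖VL (c, z)‖ ^ 2 = normSq c + z.re ^ 2 := by
  rw [EuclideanSpace.norm_sq_eq, Fin.sum_univ_three, VL_def, normSq_apply]
  simp; ring

theorem VL_norm_congr {c z c' z' : ℂ} (h : normSq c = normSq c') (h' : z.re ^ 2 = z'.re ^ 2) :
    ‖VL (c, z)‖ = ‖VL (c', z')‖ :=
  (pow_left_inj₀ (norm_nonneg _) (norm_nonneg _) two_ne_zero).1 (by rw [VL_sq, VL_sq, h, h'])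

theorem root {k : ℂ} {N : ℝ} (hN : 0 ≤ N) (h : k ^ 2 * (((N ^ 2 : ℝ) : ℂ)) ^ 3 = 1)
    (hk : ‖k - 1‖ < 1) : N ≠ 0 ∧ k = ((1 / N ^ 3 : ℝ) : ℂ) := by
  have h0 : N ≠ 0 := by rintro rfl; simp at h
  refine ⟨h0, ?_⟩
  have h1 : (k * N ^ 3 - 1) * (k * N ^ 3 + 1) = 0 := by push_cast at h; linear_combination h
  have h2 : (N : ℂ) ≠ 0 := by exact_mod_cast h0
  rcases mul_eq_zero.1 h1 with h3 | h3
  · push_cast; field_simp; linear_combination h3
  · exfalso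
    have h4 : k.re * N ^ 3 + 1 = 0 := by
      have := congrArg Complex.re h3
      rw [← ofReal_pow] at this
      simpa only [add_re, re_mul_ofReal, one_re, zero_re] using this
    have h5 := (abs_lt.1 ((abs_re_le_norm (k - 1)).trans_lt hk)).1
    simp only [sub_re, one_re] at h5
    have : 0 ≤ k.re * N ^ 3 := mul_nonneg (by linarith) (by positivity)
    linarith

theorem ev_Q (θ : ℝ) (a : A) : ev θ (Q a) = (ev θ a + conj (ev (-θ) a)) / 2 := by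
  simp [Q]; ring
theorem ev_P (θ : ℝ) (a : A) :
    ev θ (P a) = (ev θ a + conj (ev (-θ) a) + (ev (-θ) a + conj (ev θ a))) / 4 := by
  simp [P, ev_Q]; ring
theorem ev_bar (θ : ℝ) (a : A) : ev θ (bar a) = conj (ev θ a) := by simp [bar]
theorem ev_S (θ : ℝ) (a : A) : ev θ (S a) = ev (θ + dl) a := by simp [S]
theorem ev_T (θ : ℝ) (a : A) : ev θ (T a) = ze * ev (θ + dl) a := by simp [T, ev_S]
theorem ev_P0 (θ : ℝ) (a : A) :
    ev θ (P0 a) = (ev θ a + ev (θ + dl) a + ev (θ + dl + dl) a) / 3 := by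
  simp [P0, ev_S]; ring
theorem ev_P1 (θ : ℝ) (a : A) :
    ev θ (P1 a) = (ev θ a + ze * ev (θ + dl) a + ze * (ze * ev (θ + dl + dl) a)) / 3 := by
  simp [P1, ev_T]; ring
theorem ev_per3 (θ : ℝ) (a : A) : ev (θ + dl + dl + dl) a = ev θ a := by
  rw [← ev_per (θ + dl + dl + dl)]; congr 2; rw [dl]; ring
theorem ev_od (θ ε : ℝ) (x y : A) :
    1 + ε * ev θ (od ε x y) = (1 + ε * ev θ x) * (1 + ε * ev θ y) := by
  simp [od]; ring
theorem ev_one (θ : ℝ) : ev θ (sg 0 1) = 1 := by simp [ev_sg]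
theorem ze3 : ze * (ze * ze) = 1 := by rw [ze_sq, ze_mul_conj]
theorem normSq_ze : normSq ze = 1 := by
  rw [normSq_apply]; simp; nlinarith [r3_sq]

theorem conj_Q (θ : ℝ) (a : A) : conj (ev (-θ) (Q a)) = ev θ (Q a) := by
  simp only [ev_Q, map_div₀, map_add, conj_conj, map_ofNat, neg_neg]; ring
theorem conj_P (θ : ℝ) (a : A) : conj (ev θ (P a)) = ev θ (P a) := by
  simp only [ev_P, map_div₀, map_add, conj_conj, map_ofNat]; ring
theorem even_P (θ : ℝ) (a : A) : ev (-θ) (P a) = ev θ (P a) := by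
  simp only [ev_P, neg_neg]; ring

theorem eq23_ev {ε : ℝ} {σ s : A} (h : eq23 ε σ s = 0) (θ : ℝ) :
    (1 + ε * ev θ σ) ^ 2 * (1 + ε * ev θ s) ^ 3 = 1 := by
  have := ev_od θ ε (od ε σ σ) (od ε s (od ε s s))
  rw [← eq23, h, ev_od, ev_od, ev_od] at this
  simp only [map_zero, mul_zero, add_zero] at this
  linear_combination -this

section
variable (a b : A) (ε : ℝ)

noncomputable def wf (θ : ℝ) : ℂ := 1 + ε * ev θ (Q a)
noncomputable def zf (θ : ℝ) : ℂ := ε * ev θ (P b)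
noncomputable def rho (u : ℂ) (θ : ℝ) : E3 := VL (u * wf a ε θ, zf b ε θ)
noncomputable def N0 (θ : ℝ) : ℝ := ‖VL (wf a ε θ, zf b ε θ)‖
noncomputable def N1 (θ : ℝ) : ℝ :=
  ‖VL (ze * wf a ε (θ + dl) - wf a ε θ, zf b ε (θ + dl) - zf b ε θ)‖

theorem wf_conj (θ : ℝ) : conj (wf a ε (-θ)) = wf a ε θ := by simp [wf, conj_Q]
theorem zf_conj (θ : ℝ) : conj (zf b ε θ) = zf b ε θ := by simp [zf, conj_P]
theorem zf_even (θ : ℝ) : zf b ε (-θ) = zf b ε θ := by simp [zf, even_P]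
theorem wf_per (θ : ℝ) : wf a ε (θ + dl + dl + dl) = wf a ε θ := by simp [wf, ev_per3]
theorem zf_per (θ : ℝ) : zf b ε (θ + dl + dl + dl) = zf b ε θ := by simp [zf, ev_per3]
theorem wf_c1 (θ : ℝ) : conj (wf a ε (-θ + dl)) = wf a ε (θ + dl + dl) := by
  rw [← wf_conj a ε (θ + dl + dl), ← wf_per a ε (-(θ + dl + dl))]; congr 2; ring
theorem wf_c2 (θ : ℝ) : conj (wf a ε (-θ + dl + dl)) = wf a ε (θ + dl) := by
  rw [← wf_conj a ε (θ + dl), ← wf_per a ε (-(θ + dl))]; congr 2; ring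
theorem zf_c1 (θ : ℝ) : zf b ε (-θ + dl) = zf b ε (θ + dl + dl) := by
  rw [← zf_even b ε (θ + dl + dl), ← zf_per b ε (-(θ + dl + dl))]; congr 1; ring
theorem zf_c2 (θ : ℝ) : zf b ε (-θ + dl + dl) = zf b ε (θ + dl) := by
  rw [← zf_even b ε (θ + dl), ← zf_per b ε (-(θ + dl))]; congr 1; ring
theorem zf_re (θ : ℝ) : ((zf b ε θ).re : ℂ) = zf b ε θ := conj_eq_iff_re.1 (zf_conj b ε θ)

theorem N0_even (θ : ℝ) : N0 a b ε (-θ) = N0 a b ε θ :=
  VL_norm_congr (by rw [← wf_conj a ε θ, normSq_conj]) (by rw [zf_even])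
theorem N0_per (θ : ℝ) : N0 a b ε (θ + dl + dl + dl) = N0 a b ε θ := by
  simp only [N0, wf_per, zf_per]
theorem N1_per (θ : ℝ) : N1 a b ε (θ + dl + dl + dl) = N1 a b ε θ := by
  simp only [N1, wf_per, zf_per]
theorem N0_c1 (θ : ℝ) : N0 a b ε (-θ + dl) = N0 a b ε (θ + dl + dl) := by
  rw [← N0_even a b ε (θ + dl + dl), ← N0_per a b ε (-(θ + dl + dl))]; congr 1; ring
theorem N0_c2 (θ : ℝ) : N0 a b ε (-θ + dl + dl) = N0 a b ε (θ + dl) := by
  rw [← N0_even a b ε (θ + dl), ← N0_per a b ε (-(θ + dl))]; congr 1; ring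
theorem N1_neg (θ : ℝ) : N1 a b ε (-θ) = N1 a b ε (θ + dl + dl) := by
  refine VL_norm_congr ?_ ?_
  · rw [← normSq_conj, map_sub, map_mul, wf_c1, wf_conj, wf_per, ← ze_sq]
    have : ze * wf a ε θ - wf a ε (θ + dl + dl) =
        -ze * (ze * ze * wf a ε (θ + dl + dl) - wf a ε θ) := by
      linear_combination wf a ε (θ + dl + dl) * ze3
    rw [this, normSq_mul, normSq_neg, normSq_ze, one_mul]
  · rw [zf_c1, zf_even, zf_per, sub_re, sub_re]; ring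
theorem N1_c1 (θ : ℝ) : N1 a b ε (-θ + dl) = N1 a b ε (θ + dl) := by
  have := N1_neg a b ε (θ - dl)
  rw [show -(θ - dl) = -θ + dl by ring, show θ - dl + dl + dl = θ + dl by ring] at this
  exact this
theorem N1_c2 (θ : ℝ) : N1 a b ε (-θ + dl + dl) = N1 a b ε θ := by
  have := N1_neg a b ε (θ - dl - dl)
  rw [show -(θ - dl - dl) = -θ + dl + dl by ring, show θ - dl - dl + dl + dl = θ by ring] at this
  exact this

theorem norm_rho {u : ℂ} (hu : normSq u = 1) (θ : ℝ) : ‖rho a b ε u θ‖ = N0 a b ε θ :=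
  VL_norm_congr (by rw [normSq_mul, hu, one_mul]) rfl
theorem norm_rho1 {u : ℂ} (hu : normSq u = 1) (θ : ℝ) :
    ‖rho a b ε (u * ze) (θ + dl) - rho a b ε u θ‖ = N1 a b ε θ := by
  rw [rho, rho, ← map_sub, Prod.mk_sub_mk]
  exact VL_norm_congr (by rw [mul_assoc, ← mul_sub, normSq_mul, hu, one_mul]) rfl
theorem rho_per (u : ℂ) (θ : ℝ) :
    rho a b ε (u * ze * ze * ze) (θ + dl + dl + dl) = rho a b ε u θ := by
  rw [rho, rho, wf_per, zf_per, show u * ze * ze * ze = u by linear_combination u * ze3]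

theorem kap0 {σ : A} (h : eq23 ε σ (s1 (Q a) (P b) ε) = 0) (hσ : ‖ε • σ‖ < 1) (θ : ℝ) :
    N0 a b ε θ ≠ 0 ∧ 1 + ε * ev θ σ = ((1 / N0 a b ε θ ^ 3 : ℝ) : ℂ) := by
  refine root (norm_nonneg _) ?_ ?_
  · suffices e : ((N0 a b ε θ ^ 2 : ℝ) : ℂ) = 1 + ε * ev θ (s1 (Q a) (P b) ε) by
      rw [e]; exact eq23_ev h θ
    rw [N0, VL_sq]
    push_cast
    rw [zf_re, normSq_eq_conj_mul_self]
    simp [s1, ev_bar, wf, zf]; ring
  · have := norm_ev_le θ (ε • σ)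
    simp only [map_smul, real_smul] at this
    simpa using this.trans_lt hσ

theorem kap1 {η : A} (h : eq23 ε η (s2 (Q a) (P b) ε) = 0) (hη : ‖ε • η‖ < 1) (θ : ℝ) :
    N1 a b ε θ ≠ 0 ∧ 1 + ε * ev θ η = ((3 * r3 / N1 a b ε θ ^ 3 : ℝ) : ℂ) := by
  have h1 := root (k := 1 + ε * ev θ η) (N := N1 a b ε θ / r3)
    (div_nonneg (norm_nonneg _) r3_pos.le) ?_ ?_
  · refine ⟨fun h => h1.1 (by simp [h]), ?_⟩
    rw [h1.2, div_pow, r3_3, one_div_div]
  · suffices e : (((N1 a b ε θ / r3) ^ 2 : ℝ) : ℂ) = 1 + ε * ev θ (s2 (Q a) (P b) ε) by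
      rw [e]; exact eq23_ev h θ
    rw [div_pow, r3_sq, N1, VL_sq]
    have h3 : 1 + ze + conj ze = 0 := by apply Complex.ext <;> simp; norm_num
    rw [sub_re]
    push_cast
    rw [zf_re, zf_re, normSq_eq_conj_mul_self]
    simp [s2, ev_bar, ev_T, ev_S, wf, zf]
    linear_combination (1 / 3) * ze_mul_conj - (1 / 3) * h3
  · have := norm_ev_le θ (ε • η)
    simp only [map_smul, real_smul] at this
    simpa using this.trans_lt hη

noncomputable def k0 (θ : ℝ) : ℝ := 1 / N0 a b ε θ ^ 3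
noncomputable def k1 (θ : ℝ) : ℝ := 1 / N1 a b ε θ ^ 3

theorem forceW {σ η : A} (μ : ℝ) (h0 : ∀ θ, 1 + ε * ev θ σ = ((1 / N0 a b ε θ ^ 3 : ℝ) : ℂ))
    (h1 : ∀ θ, 1 + ε * ev θ η = ((3 * r3 / N1 a b ε θ ^ 3 : ℝ) : ℂ)) (θ : ℝ) :
    1 + ε * ev θ (fW (Q a) σ η μ ε) = (1 - μ) * (k0 a b ε θ * wf a ε θ) +
      r3 * μ * (k0 a b ε θ * wf a ε θ + k0 a b ε (θ + dl) * (ze * wf a ε (θ + dl)) +
        k0 a b ε (θ + dl + dl) * (ze * ze * wf a ε (θ + dl + dl))) -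
      r3 * μ * (k1 a b ε θ * (ze * wf a ε (θ + dl) - wf a ε θ) +
        k1 a b ε (θ + dl + dl) * (ze * ze * wf a ε (θ + dl + dl) - wf a ε θ)) := by
  have hu : ∀ φ, 1 + ε * ev φ (od ε σ (Q a)) = k0 a b ε φ * wf a ε φ := fun φ => by
    rw [ev_od, h0, k0, wf]
  have hv : ∀ φ, ze - 1 + ε * ev φ (vW (Q a) η ε) =
      3 * r3 * k1 a b ε φ * (ze * wf a ε (φ + dl) - wf a ε φ) := fun φ => by
    have := h1 φ
    simp only [vW, map_add, map_sub, map_smul, ev_cm, ev_conv, ev_T, real_smul, k1, wf]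
    push_cast at this ⊢
    linear_combination (ze * (1 + ε * ev (φ + dl) (Q a)) - (1 + ε * ev φ (Q a))) * this
  have c0 := congrArg conj (hu (-θ))
  have c1 := congrArg conj (hu (-θ + dl))
  have c2 := congrArg conj (hu (-θ + dl + dl))
  have c3 := congrArg conj (hv (-θ))
  simp only [k0, k1, N0_even, N0_c1, N0_c2, N1_neg] at c0 c1 c2 c3
  simp only [map_add, map_mul, map_sub, map_one, conj_ofReal, map_ofNat, wf_conj, wf_c1, wf_c2]
    at c0 c1 c2 c3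
  have h3 : 1 + ze + ze * ze = 0 := by rw [ze_sq]; apply Complex.ext <;> simp; norm_num
  have d0 := hu θ
  have d1 := hu (θ + dl)
  have d2 := hu (θ + dl + dl)
  have d3 := hv θ
  simp only [k0, k1] at d0 d1 d2 d3 ⊢
  rw [fW, ev_Q]
  simp only [map_add, map_sub, map_smul, ev_P1, real_smul, map_mul, conj_ofReal, map_div₀,
    map_ofNat]
  rw [← ze_sq] at c3 ⊢
  have h4 : ze * ze * (ze * ze) = ze := by linear_combination ze * ze3
  push_cast at c0 c1 c2 c3 d0 d1 d2 d3 ⊢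
  linear_combination (1 - μ + r3 * μ) / 2 * (d0 + c0) + r3 * μ / 2 * (ze * d1 + ze * ze * d2 +
    ze * ze * c1 + ze * c2) - μ / 3 * (d3 + c3) + (μ / 3 - r3 * μ) * h3 +
    (r3 * μ / 2 * ε * conj (ev (-θ + dl + dl) (od ε σ (Q a)))) * h4

theorem forceZ {σ η : A} (μ : ℝ) (h0 : ∀ θ, 1 + ε * ev θ σ = ((1 / N0 a b ε θ ^ 3 : ℝ) : ℂ))
    (h1 : ∀ θ, 1 + ε * ev θ η = ((3 * r3 / N1 a b ε θ ^ 3 : ℝ) : ℂ)) (θ : ℝ) :
    ε * ev θ (fZ (P b) σ η μ ε) = (1 - μ) * (k0 a b ε θ * zf b ε θ) +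
      r3 * μ * (k0 a b ε θ * zf b ε θ + k0 a b ε (θ + dl) * zf b ε (θ + dl) +
        k0 a b ε (θ + dl + dl) * zf b ε (θ + dl + dl)) -
      r3 * μ * (k1 a b ε θ * (zf b ε (θ + dl) - zf b ε θ) +
        k1 a b ε (θ + dl + dl) * (zf b ε (θ + dl + dl) - zf b ε θ)) := by
  have hy : ∀ φ, ε * ev φ (yZ (P b) σ ε) = k0 a b ε φ * zf b ε φ := fun φ => by
    have := h0 φ
    simp only [yZ, map_add, map_smul, ev_conv, real_smul, k0, zf]
    linear_combination (ε * ev φ (P b)) * this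
  have hk : ∀ φ, ε * ev φ (yZ (S (P b) - P b) η ε) =
      3 * r3 * k1 a b ε φ * (zf b ε (φ + dl) - zf b ε φ) := fun φ => by
    have := h1 φ
    simp only [yZ, map_add, map_sub, map_smul, ev_conv, ev_S, real_smul, k1, zf]
    push_cast at this ⊢
    linear_combination (ε * ev (φ + dl) (P b) - ε * ev φ (P b)) * this
  set Xz := (1 - μ) • yZ (P b) σ ε + (3 * r3 * μ) • P0 (yZ (P b) σ ε) -
    (2 * μ / 3) • (yZ (S (P b) - P b) η ε - P0 (yZ (S (P b) - P b) η ε)) with hX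
  have hx : ∀ φ, ε * ev φ Xz = (1 - μ) * (k0 a b ε φ * zf b ε φ) +
      r3 * μ * (k0 a b ε φ * zf b ε φ + k0 a b ε (φ + dl) * zf b ε (φ + dl) +
        k0 a b ε (φ + dl + dl) * zf b ε (φ + dl + dl)) -
      2 * r3 * μ * (k1 a b ε φ * (zf b ε (φ + dl) - zf b ε φ) -
        (k1 a b ε φ * (zf b ε (φ + dl) - zf b ε φ) +
          k1 a b ε (φ + dl) * (zf b ε (φ + dl + dl) - zf b ε (φ + dl)) +
          k1 a b ε (φ + dl + dl) * (zf b ε φ - zf b ε (φ + dl + dl))) / 3) := fun φ => by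
    have e3 := hk (φ + dl + dl)
    rw [zf_per] at e3
    simp only [hX, map_add, map_sub, map_smul, ev_P0, real_smul]
    push_cast
    linear_combination (1 - μ + r3 * μ) * hy φ + r3 * μ * (hy (φ + dl) + hy (φ + dl + dl)) -
      (4 * μ / 9) * hk φ + (2 * μ / 9) * (hk (φ + dl) + e3)
  have d0 := hx θ
  have d1 := hx (-θ)
  simp only [k0, k1, N0_even, N0_c1, N0_c2, N1_neg, N1_c1, N1_c2, zf_even, zf_c1, zf_c2] at d1
  simp only [k0, k1] at d0 ⊢
  have c0 := congrArg conj d0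
  have c1 := congrArg conj d1
  simp only [map_add, map_mul, map_sub, map_one, conj_ofReal, map_ofNat, map_div₀, zf_conj]
    at c0 c1
  rw [fZ, ← hX, ev_P]
  linear_combination (d0 + d1 + c0 + c1) / 4

noncomputable def att (d : E3) : E3 := (1 / ‖d‖ ^ 3) • d

theorem att_neg (d e : E3) : att (d - e) = -att (e - d) := by
  rw [att, att, norm_sub_rev, ← smul_neg, neg_sub]

theorem force {σ η : A} (μ : ℝ) (h0 : ∀ θ, 1 + ε * ev θ σ = ((1 / N0 a b ε θ ^ 3 : ℝ) : ℂ))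
    (h1 : ∀ θ, 1 + ε * ev θ η = ((3 * r3 / N1 a b ε θ ^ 3 : ℝ) : ℂ)) {u : ℂ} (hu : normSq u = 1)
    (θ : ℝ) :
    VL (u * (1 + ε * ev θ (fW (Q a) σ η μ ε)), ε * ev θ (fZ (P b) σ η μ ε)) =
      (1 - μ) • att (rho a b ε u θ) + (r3 * μ) • (att (rho a b ε u θ) +
        att (rho a b ε (u * ze) (θ + dl)) + att (rho a b ε (u * ze * ze) (θ + dl + dl))) -
      (r3 * μ) • (att (rho a b ε (u * ze) (θ + dl) - rho a b ε u θ) +
        att (rho a b ε (u * ze * ze) (θ + dl + dl) - rho a b ε u θ)) := by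
  have hu1 : normSq (u * ze) = 1 := by rw [normSq_mul, hu, normSq_ze, one_mul]
  have hu2 : normSq (u * ze * ze) = 1 := by rw [normSq_mul, hu1, normSq_ze, one_mul]
  have e := norm_rho1 a b ε hu2 (θ + dl + dl)
  rw [rho_per, norm_sub_rev] at e
  simp only [att, norm_rho a b ε hu, norm_rho a b ε hu1, norm_rho a b ε hu2, norm_rho1 a b ε hu, e]
  rw [forceW a b ε μ h0 h1, forceZ a b ε μ h0 h1]
  simp only [rho, ← map_smul, ← map_add, ← map_sub, Prod.smul_mk, Prod.mk_add_mk, Prod.mk_sub_mk,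
    real_smul, k0, k1]
  congr 2
  · push_cast; ring
  · push_cast; ring

end

end Pool.Agent.Lib.MP_32f877_an.Bd
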