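import Mathlib

/-! Vector algebra in three dimensions and two scalar comparison lemmas. -/

open Finset Filter Topology

namespace Pool.Agent.Lib.MP_32f877_an.Ric

/-- Three dimensional Euclidean space. -/
abbrev E := EuclideanSpace ℝ (Fin 3)

theorem ip (x y : E) : inner ℝ x y = x 0 * y 0 + x 1 * y 1 + x 2 * y 2 := by
  simp only [PiLp.inner_apply, Fin.sum_univ_three, RCLike.inner_apply, conj_trivial]
  ring

theorem nsq (x : E) : ‖x‖ ^ 2 = x 0 ^ 2 + x 1 ^ 2 + x 2 ^ 2 := by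
  rw [← real_inner_self_eq_norm_sq, ip]
  ring

/-- The triple product. -/
def d3 (x y z : E) : ℝ :=
  x 0 * y 1 * z 2 - x 0 * y 2 * z 1 - x 1 * y 0 * z 2 + x 1 * y 2 * z 0 + x 2 * y 0 * z 1 -
    x 2 * y 1 * z 0

/-- The cross product. -/
noncomputable def cr (x y : E) : E :=
  !₂[x 1 * y 2 - x 2 * y 1, x 2 * y 0 - x 0 * y 2, x 0 * y 1 - x 1 * y 0]

theorem cr0 (x y : E) : cr x y 0 = x 1 * y 2 - x 2 * y 1 := by simp [cr]

theorem cr1 (x y : E) : cr x y 1 = x 2 * y 0 - x 0 * y 2 := by simp [cr]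

theorem cr2 (x y : E) : cr x y 2 = x 0 * y 1 - x 1 * y 0 := by simp [cr]

theorem det_eq (x : Fin 4 → E) :
    Matrix.det (Matrix.of fun i k : Fin 3 => (x i.succ - x 0) k) =
      d3 (x 1 - x 0) (x 2 - x 0) (x 3 - x 0) := by
  rw [Matrix.det_fin_three]
  rfl

theorem expand (n x y z : E) :
    d3 x y z • n = inner ℝ n x • cr y z + inner ℝ n y • cr z x + inner ℝ n z • cr x y := by
  ext k
  fin_cases k <;> simp [ip, d3, cr0, cr1, cr2] <;> ring

theorem eq_of_inner {n n' x y z : E} (h : d3 x y z ≠ 0) (hx : inner ℝ n x = inner ℝ n' x)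
    (hy : inner ℝ n y = inner ℝ n' y) (hz : inner ℝ n z = inner ℝ n' z) : n = n' := by
  have h1 := expand n x y z
  rw [hx, hy, hz, ← expand] at h1
  exact smul_right_injective E h h1

/-- The vector with prescribed inner products against three independent vectors. -/
noncomputable def nv (α β γ : ℝ) (x y z : E) : E :=
  (d3 x y z)⁻¹ • (α • cr y z + β • cr z x + γ • cr x y)

theorem nv_spec (α β γ : ℝ) {x y z : E} (h : d3 x y z ≠ 0) :
    inner ℝ (nv α β γ x y z) x = α ∧ inner ℝ (nv α β γ x y z) y = β ∧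
      inner ℝ (nv α β γ x y z) z = γ := by
  simp only [nv, inner_smul_left, inner_add_left, conj_trivial]
  simp only [ip, cr0, cr1, cr2]
  refine ⟨?_, ?_, ?_⟩ <;> rw [inv_mul_eq_iff_eq_mul₀ h, d3] <;> ring

theorem diff_cr {x y : ℝ → E} {t : ℝ} (hx : DifferentiableAt ℝ x t)
    (hy : DifferentiableAt ℝ y t) : DifferentiableAt ℝ (fun s => cr (x s) (y s)) t := by
  have x0 := differentiableAt_euclidean.1 hx 0
  have x1 := differentiableAt_euclidean.1 hx 1
  have x2 := differentiableAt_euclidean.1 hx 2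
  have y0 := differentiableAt_euclidean.1 hy 0
  have y1 := differentiableAt_euclidean.1 hy 1
  have y2 := differentiableAt_euclidean.1 hy 2
  refine differentiableAt_euclidean.2 fun k => ?_
  fin_cases k
  · exact (x1.mul y2).sub (x2.mul y1)
  · exact (x2.mul y0).sub (x0.mul y2)
  · exact (x0.mul y1).sub (x1.mul y0)

theorem d3_eq (x y z : E) : d3 x y z = inner ℝ x (cr y z) := by
  rw [ip, cr0, cr1, cr2, d3]
  ring

theorem diff_nv (α β γ : ℝ) {x y z : ℝ → E} {t : ℝ} (hx : DifferentiableAt ℝ x t)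
    (hy : DifferentiableAt ℝ y t) (hz : DifferentiableAt ℝ z t)
    (h : d3 (x t) (y t) (z t) ≠ 0) :
    DifferentiableAt ℝ (fun s => nv α β γ (x s) (y s) (z s)) t := by
  have h1 : DifferentiableAt ℝ (fun s => d3 (x s) (y s) (z s)) t := by
    simp only [d3_eq]
    exact hx.inner ℝ (diff_cr hy hz)
  exact (h1.inv h).smul ((((diff_cr hy hz).const_smul α).add ((diff_cr hz hx).const_smul β)).add
    ((diff_cr hx hy).const_smul γ))

theorem norm_cr_le (x y : E) : ‖cr x y‖ ^ 2 ≤ ‖x‖ ^ 2 * ‖y‖ ^ 2 := by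
  rw [nsq, nsq, nsq, cr0, cr1, cr2]
  nlinarith [sq_nonneg (x 0 * y 0 + x 1 * y 1 + x 2 * y 2)]

/-- A lower bound for the quadratic form of three vectors bounds each of them by the volume. -/
theorem norm_le_of_width {x y z : E} {δ : ℝ} (hδ : 0 < δ) (h0 : d3 x y z ≠ 0)
    (h : ∀ n : E, δ * ‖n‖ ^ 2 ≤ inner ℝ n x ^ 2 + inner ℝ n y ^ 2 + inner ℝ n z ^ 2) :
    δ * ‖x‖ ≤ |d3 x y z| := by
  have e1 : inner ℝ (cr z x) x ^ 2 + inner ℝ (cr z x) y ^ 2 + inner ℝ (cr z x) z ^ 2 =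
      d3 x y z ^ 2 := by
    simp only [ip, cr0, cr1, cr2, d3]
    ring
  have e2 : inner ℝ (cr x y) x ^ 2 + inner ℝ (cr x y) y ^ 2 + inner ℝ (cr x y) z ^ 2 =
      d3 x y z ^ 2 := by
    simp only [ip, cr0, cr1, cr2, d3]
    ring
  have e3 : ‖cr (cr z x) (cr x y)‖ ^ 2 = d3 x y z ^ 2 * ‖x‖ ^ 2 := by
    simp only [nsq, cr0, cr1, cr2, d3]
    ring
  have h1 := h (cr z x)
  have h2 := h (cr x y)
  have h3 := norm_cr_le (cr z x) (cr x y)
  rw [e1] at h1
  rw [e2] at h2
  rw [e3] at h3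
  have hD : 0 < d3 x y z ^ 2 := by positivity
  have h4 : (δ * ‖cr z x‖ ^ 2) * (δ * ‖cr x y‖ ^ 2) ≤ d3 x y z ^ 2 * d3 x y z ^ 2 :=
    mul_le_mul h1 h2 (by positivity) hD.le
  have h5 : d3 x y z ^ 2 * (δ * ‖x‖) ^ 2 ≤ d3 x y z ^ 2 * d3 x y z ^ 2 := by
    have := mul_le_mul_of_nonneg_left h3 (sq_nonneg δ)
    nlinarith
  exact (le_abs_self _).trans (sq_le_sq.1 (le_of_mul_le_mul_left h5 hD))

/-- Three independent vectors give a positive definite quadratic form. -/
theorem exists_width {x y z : E} (h0 : d3 x y z ≠ 0) : ∃ ε : ℝ, 0 < ε ∧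
    ∀ n : E, ε * ‖n‖ ^ 2 ≤ inner ℝ n x ^ 2 + inner ℝ n y ^ 2 + inner ℝ n z ^ 2 := by
  set B := ‖cr y z‖ ^ 2 + ‖cr z x‖ ^ 2 + ‖cr x y‖ ^ 2 + 1 with hB
  have hB0 : 0 < B := by positivity
  refine ⟨d3 x y z ^ 2 / B, by positivity, fun n => ?_⟩
  have h1 : |d3 x y z| * ‖n‖ ≤ |inner ℝ n x| * ‖cr y z‖ + |inner ℝ n y| * ‖cr z x‖ +
      |inner ℝ n z| * ‖cr x y‖ := by
    have := norm_add₃_le (a := inner ℝ n x • cr y z) (b := inner ℝ n y • cr z x)
      (c := inner ℝ n z • cr x y)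
    rw [← expand] at this
    simpa only [norm_smul, Real.norm_eq_abs] using this
  have h2 := pow_le_pow_left₀ (by positivity) h1 2
  rw [mul_pow, sq_abs] at h2
  rw [div_mul_eq_mul_div, div_le_iff₀ hB0, ← sq_abs (inner ℝ n x), ← sq_abs (inner ℝ n y),
    ← sq_abs (inner ℝ n z), hB]
  generalize |inner ℝ n x| = a at *
  generalize |inner ℝ n y| = b at *
  generalize |inner ℝ n z| = c at *
  generalize ‖cr y z‖ = p at *
  generalize ‖cr z x‖ = q at *
  generalize ‖cr x y‖ = r at *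
  nlinarith [sq_nonneg (a * q - b * p), sq_nonneg (a * r - c * p), sq_nonneg (b * r - c * q),
    sq_nonneg a, sq_nonneg b, sq_nonneg c]

/-- Summation by parts against symmetric weights. -/
theorem parts (c : Fin 4 → Fin 4 → ℝ) (hc : ∀ i j, c i j = c j i) (f g : Fin 4 → ℝ) :
    ∑ i, f i * ∑ j, c i j * (g j - g i) =
      -(1 / 2) * ∑ i, ∑ j, c i j * ((f i - f j) * (g i - g j)) := by
  simp only [Fin.sum_univ_four]
  rw [hc 1 0, hc 2 0, hc 3 0, hc 2 1, hc 3 1, hc 3 2]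
  ring

theorem anti_of_deriv {f f' : ℝ → ℝ} {T : ℝ} (h : ∀ t, T < t → HasDerivAt f (f' t) t)
    (h' : ∀ t, T < t → f' t ≤ 0) {s t : ℝ} (hs : T < s) (hst : s ≤ t) : f t ≤ f s := by
  have : AntitoneOn f (Set.Ioi T) := by
    refine antitoneOn_of_deriv_nonpos (convex_Ioi T)
      (fun x hx => (h x hx).continuousAt.continuousWithinAt) ?_ ?_
    · rw [interior_Ioi]
      exact fun x hx => (h x hx).differentiableAt.differentiableWithinAt
    · rw [interior_Ioi]
      intro x hx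
      rw [(h x hx).deriv]
      exact h' x hx
  exact this hs (hs.trans_le hst) hst

/-- A function bounded below cannot have derivative below a negative constant for ever. -/
theorem not_deriv_le {f f' : ℝ → ℝ} {T w : ℝ} (hw : 0 < w)
    (h : ∀ t, T < t → HasDerivAt f (f' t) t) (h' : ∀ t, T < t → f' t ≤ -w)
    (h0 : ∀ t, T < t → 0 ≤ f t) : False := by
  have h1 := anti_of_deriv (f := fun t => f t + w * t) (f' := fun t => f' t + w * 1) (T := T)
    (fun t ht => (h t ht).add ((hasDerivAt_id' t).const_mul w))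
    (fun t ht => by linarith [h' t ht]) (s := T + 1) (t := T + 1 + (f (T + 1) + 1) / w)
    (by linarith) (by
      have := h0 (T + 1) (by linarith)
      have : 0 ≤ (f (T + 1) + 1) / w := by positivity
      linarith)
  have h2 := h0 (T + 1 + (f (T + 1) + 1) / w) (by
    have := h0 (T + 1) (by linarith)
    have : 0 ≤ (f (T + 1) + 1) / w := by positivity
    linarith)
  have h3 : w * ((f (T + 1) + 1) / w) = f (T + 1) + 1 := by field_simp
  nlinarith

/-- A global solution of a Riccati inequality is nonnegative. -/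
theorem riccati_nonneg {s s' : ℝ → ℝ} {T I : ℝ} (hI : 0 < I)
    (h : ∀ t, T < t → HasDerivAt s (s' t) t) (h' : ∀ t, T < t → s t ^ 2 ≤ I * -s' t)
    {t₀ : ℝ} (ht₀ : T < t₀) : 0 ≤ s t₀ := by
  by_contra hneg
  push Not at hneg
  have hle : ∀ t, T < t → s' t ≤ 0 := fun t ht => by
    by_contra hc
    push Not at hc
    nlinarith [h' t ht, sq_nonneg (s t), mul_pos hI hc]
  have hs : ∀ t, t₀ < t → s t < 0 := fun t ht =>
    (anti_of_deriv h hle ht₀ ht.le).trans_lt hneg
  refine not_deriv_le (f := fun t => -(s t)⁻¹) (f' := fun t => -(-s' t / s t ^ 2)) (T := t₀)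
    (w := 1 / I) (by positivity)
    (fun t ht => ((h t (ht₀.trans ht)).inv (hs t ht).ne).neg) (fun t ht => ?_) (fun t ht => ?_)
  · have h2 : 0 < s t ^ 2 := by have := (hs t ht).ne; positivity
    rw [neg_le_neg_iff, div_le_div_iff₀ hI h2]
    nlinarith [h' t (ht₀.trans ht)]
  · exact neg_nonneg.2 (inv_nonpos.2 (hs t ht).le)

end Pool.Agent.Lib.MP_32f877_an.Ric
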