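import Pool.Agent.Lib.MP_32f877_an.Ric1

/-! Never coplanar solutions of the four-body problem with zero angular momentum. -/

open Finset Filter Topology

namespace Pool.Agent.Lib.MP_32f877_an.Ric

/-- The weights of the Newtonian force. -/
noncomputable def cc (m : Fin 4 → ℝ) (x : Fin 4 → E) (i j : Fin 4) : ℝ :=
  m i * m j / ‖x j - x i‖ ^ 3

theorem cc_symm (m : Fin 4 → ℝ) (x : Fin 4 → E) (i j : Fin 4) : cc m x i j = cc m x j i := by
  rw [cc, cc, norm_sub_rev, mul_comm]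

theorem cc_nonneg {m : Fin 4 → ℝ} (hm : ∀ i, 0 < m i) (x : Fin 4 → E) (i j : Fin 4) :
    0 ≤ cc m x i j := by
  have := hm i
  have := hm j
  unfold cc
  positivity

theorem cc_self (m : Fin 4 → ℝ) (x : Fin 4 → E) (i : Fin 4) : cc m x i i = 0 := by simp [cc]

theorem force {m : Fin 4 → ℝ} {x : Fin 4 → E} {b : E} {i : Fin 4}
    (h : m i • b = ∑ j ∈ univ.erase i, (m i * m j / ‖x j - x i‖ ^ 3) • (x j - x i)) (n : E) :
    m i * inner ℝ n b = ∑ j, cc m x i j * (inner ℝ n (x j) - inner ℝ n (x i)) := by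
  have h1 := congrArg (inner ℝ n) h
  rw [inner_smul_right, inner_sum] at h1
  rw [h1, ← sum_erase univ (a := i) (by simp)]
  refine sum_congr rfl fun j _ => ?_
  rw [inner_smul_right, inner_sub_right, cc]

/-- A never coplanar solution on `(T, ∞)` with zero linear and angular momentum. -/
structure Sol (m : Fin 4 → ℝ) (q v a : Fin 4 → ℝ → E) (T : ℝ) : Prop where
  hm : ∀ i, 0 < m i
  dq : ∀ t, T < t → ∀ i, HasDerivAt (q i) (v i t) t
  dv : ∀ t, T < t → ∀ i, HasDerivAt (v i) (a i t) t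
  ne : ∀ t, T < t → ∀ i j, i ≠ j → q i t ≠ q j t
  eq : ∀ t, T < t → ∀ i, m i • a i t =
    ∑ j ∈ univ.erase i, (m i * m j / ‖q j t - q i t‖ ^ 3) • (q j t - q i t)
  mom : ∀ t, T < t → ∀ n : E, ∑ i, m i * inner ℝ n (v i t) = 0
  ang : ∀ t, T < t → ∀ n n' : E, ∑ i, m i * (inner ℝ n (q i t) * inner ℝ n' (v i t)) =
    ∑ i, m i * (inner ℝ n' (q i t) * inner ℝ n (v i t))
  det : ∀ t, T < t → d3 (q 1 t - q 0 t) (q 2 t - q 0 t) (q 3 t - q 0 t) ≠ 0

variable {m : Fin 4 → ℝ} {q v a : Fin 4 → ℝ → E} {T : ℝ}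

/-- The Riccati equation along a fixed function on the four bodies. -/
theorem Sol.riccati (h : Sol m q v a T) (α : Fin 4 → ℝ) : ∃ n : ℝ → E,
    (∀ t, T < t → ∀ i, inner ℝ (n t) (q i t - q 0 t) = α i - α 0) ∧
    ∀ t, T < t → HasDerivAt (fun s => ∑ i, m i * (α i * inner ℝ (n s) (v i s)))
      (-(∑ i, m i * inner ℝ (n t) (v i t) ^ 2) -
        (1 / 2) * ∑ i, ∑ j, cc m (fun k => q k t) i j * (α i - α j) ^ 2) t := by
  set n : ℝ → E := fun t => nv (α 1 - α 0) (α 2 - α 0) (α 3 - α 0) (q 1 t - q 0 t)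
    (q 2 t - q 0 t) (q 3 t - q 0 t) with hn
  have h1 : ∀ t, T < t → ∀ i, inner ℝ (n t) (q i t - q 0 t) = α i - α 0 := fun t ht i => by
    obtain ⟨e1, e2, e3⟩ := nv_spec (α 1 - α 0) (α 2 - α 0) (α 3 - α 0) (h.det t ht)
    fin_cases i
    exacts [by simp, e1, e2, e3]
  refine ⟨n, h1, fun t ht => ?_⟩
  have hx : ∀ i, HasDerivAt (fun s => q i s - q 0 s) (v i t - v 0 t) t := fun i =>
    (h.dq t ht i).sub (h.dq t ht 0)
  have hd : HasDerivAt n (deriv n t) t := (diff_nv _ _ _ (hx 1).differentiableAt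
    (hx 2).differentiableAt (hx 3).differentiableAt (h.det t ht)).hasDerivAt
  generalize deriv n t = n' at hd
  have h2 : ∀ i, inner ℝ n' (q i t) = -inner ℝ (n t) (v i t) +
      (inner ℝ (n t) (v 0 t) + inner ℝ n' (q 0 t)) := fun i => by
    have e1 := hd.inner ℝ (hx i)
    have e2 : HasDerivAt (fun s => inner ℝ (n s) (q i s - q 0 s)) (0 : ℝ) t :=
      (hasDerivAt_const t (α i - α 0)).congr_of_eventuallyEq
        ((Ioi_mem_nhds ht : Set.Ioi T ∈ 𝓝 t) |> fun hh =>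
          Filter.mem_of_superset hh fun s hs => h1 s hs i)
    have e3 := e1.unique e2
    rw [inner_sub_right, inner_sub_right] at e3
    linarith
  have h3 : ∀ i, α i = inner ℝ (n t) (q i t) + (α 0 - inner ℝ (n t) (q 0 t)) := fun i => by
    have := h1 t ht i
    rw [inner_sub_right] at this
    linarith
  have h4 := HasDerivAt.fun_sum (u := univ) fun i _ =>
    ((hd.inner ℝ (h.dv t ht i)).const_mul (α i)).const_mul (m i)
  refine h4.congr_deriv ?_
  have h5 : ∑ i, α i * (m i * inner ℝ (n t) (a i t)) =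
      -(1 / 2) * ∑ i, ∑ j, cc m (fun k => q k t) i j * (α i - α j) ^ 2 := by
    have := parts (cc m fun k => q k t) (cc_symm m _) α α
    simp only [← sq] at this
    rw [← this]
    refine sum_congr rfl fun i _ => ?_
    rw [force (x := fun k => q k t) (h.eq t ht i)]
    congr 1
    refine sum_congr rfl fun j _ => ?_
    rw [h3 i, h3 j]
    ring
  have h6 := h.ang t ht (n t) n'
  have h7 := h.mom t ht (n t)
  have h8 := h.mom t ht n'
  have h9 : ∑ i, m i * (α i * inner ℝ n' (v i t)) =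
      -(∑ i, m i * inner ℝ (n t) (v i t) ^ 2) := by
    have e1 : ∑ i, m i * (α i * inner ℝ n' (v i t)) =
        ∑ i, m i * (inner ℝ (n t) (q i t) * inner ℝ n' (v i t)) +
          (α 0 - inner ℝ (n t) (q 0 t)) * ∑ i, m i * inner ℝ n' (v i t) := by
      rw [mul_sum, ← sum_add_distrib]
      refine sum_congr rfl fun i _ => ?_
      generalize α 0 - inner ℝ (n t) (q 0 t) = c at h3
      rw [h3 i]
      ring
    have e2 : ∑ i, m i * (inner ℝ n' (q i t) * inner ℝ (n t) (v i t)) =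
        -(∑ i, m i * inner ℝ (n t) (v i t) ^ 2) +
          (inner ℝ (n t) (v 0 t) + inner ℝ n' (q 0 t)) * ∑ i, m i * inner ℝ (n t) (v i t) := by
      rw [mul_sum, ← sum_neg_distrib, ← sum_add_distrib]
      refine sum_congr rfl fun i _ => ?_
      generalize inner ℝ (n t) (v 0 t) + inner ℝ n' (q 0 t) = c at h2
      rw [h2 i]
      ring
    rw [e1, h6, e2, h7, h8]
    ring
  have h10 : ∑ i, m i * (α i * (inner ℝ (n t) (a i t) + inner ℝ n' (v i t))) =
      ∑ i, m i * (α i * inner ℝ n' (v i t)) + ∑ i, α i * (m i * inner ℝ (n t) (a i t)) := by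
    rw [← sum_add_distrib]
    exact sum_congr rfl fun i _ => by ring
  rw [h10, h9, h5]
  ring

/-- The Riccati function is nonnegative and decreases at least at the rate of the weights. -/
theorem Sol.riccati' (h : Sol m q v a T) (α : Fin 4 → ℝ) : ∃ (n : ℝ → E) (s' : ℝ → ℝ),
    (∀ t, T < t → ∀ i, inner ℝ (n t) (q i t - q 0 t) = α i - α 0) ∧
    (∀ t, T < t → HasDerivAt (fun s => ∑ i, m i * (α i * inner ℝ (n s) (v i s))) (s' t) t) ∧
    (∀ t, T < t → s' t ≤ -((1 / 2) * ∑ i, ∑ j, cc m (fun k => q k t) i j * (α i - α j) ^ 2)) ∧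
    ∀ t, T < t → 0 ≤ ∑ i, m i * (α i * inner ℝ (n t) (v i t)) := by
  obtain ⟨n, h1, h2⟩ := h.riccati α
  have hK : ∀ t, 0 ≤ ∑ i, m i * inner ℝ (n t) (v i t) ^ 2 := fun t =>
    sum_nonneg fun i _ => mul_nonneg (h.hm i).le (sq_nonneg _)
  refine ⟨n, _, h1, h2, fun t _ => by linarith [hK t], fun t ht => ?_⟩
  have hI : 0 ≤ ∑ i, m i * α i ^ 2 := sum_nonneg fun i _ => mul_nonneg (h.hm i).le (sq_nonneg _)
  refine riccati_nonneg (I := ∑ i, m i * α i ^ 2 + 1) (by linarith) h2 (fun s _ => ?_) ht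
  have h3 : (∑ i, m i * (α i * inner ℝ (n s) (v i s))) ^ 2 ≤
      (∑ i, m i * α i ^ 2) * ∑ i, m i * inner ℝ (n s) (v i s) ^ 2 :=
    sum_sq_le_sum_mul_sum_of_sq_le_mul _ (fun i _ => mul_nonneg (h.hm i).le (sq_nonneg _))
      (fun i _ => mul_nonneg (h.hm i).le (sq_nonneg _)) fun i _ => le_of_eq (by ring)
  have h4 : 0 ≤ ∑ i, ∑ j, cc m (fun k => q k s) i j * (α i - α j) ^ 2 :=
    sum_nonneg fun i _ => sum_nonneg fun j _ => mul_nonneg (cc_nonneg h.hm _ i j) (sq_nonneg _)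
  nlinarith [hK s, mul_nonneg hI h4]

/-- The configuration expands in every direction. -/
theorem Sol.expanding (h : Sol m q v a T) {t : ℝ} (ht : T < t) (n₀ : E) :
    0 ≤ ∑ i, m i * (inner ℝ n₀ (q i t) * inner ℝ n₀ (v i t)) := by
  obtain ⟨n, s', h1, -, -, h4⟩ := h.riccati' fun i => inner ℝ n₀ (q i t)
  have e : n t = n₀ := eq_of_inner (h.det t ht) (by rw [h1 t ht, inner_sub_right])
    (by rw [h1 t ht, inner_sub_right]) (by rw [h1 t ht, inner_sub_right])
  have := h4 t ht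
  rwa [e] at this

/-- The inertia of the configuration in the direction `n`. -/
noncomputable def iner (m : Fin 4 → ℝ) (x : Fin 4 → E) (n : E) : ℝ :=
  ∑ i, ∑ j, m i * m j * (inner ℝ n (x i) - inner ℝ n (x j)) ^ 2

theorem Sol.iner_mono (h : Sol m q v a T) (n : E) {s t : ℝ} (hs : T < s) (hst : s ≤ t) :
    iner m (fun k => q k s) n ≤ iner m (fun k => q k t) n := by
  have hq : ∀ t, T < t → ∀ i, HasDerivAt (fun s => inner ℝ n (q i s)) (inner ℝ n (v i t)) t :=
    fun t ht i => by simpa using (hasDerivAt_const t n).inner ℝ (h.dq t ht i)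
  have h1 := anti_of_deriv (f := fun t => -iner m (fun k => q k t) n)
    (f' := fun t => -∑ i, ∑ j, m i * m j * (((2 : ℕ) : ℝ) *
      (inner ℝ n (q i t) - inner ℝ n (q j t)) ^ (2 - 1) * (inner ℝ n (v i t) - inner ℝ n (v j t))))
    (fun t ht => (HasDerivAt.fun_sum fun i _ => HasDerivAt.fun_sum fun j _ =>
      (((hq t ht i).sub (hq t ht j)).pow 2).const_mul (m i * m j)).neg) (fun t ht => ?_) hs hst
  · linarith
  have h2 := h.expanding ht n
  have h3 := h.mom t ht n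
  have hM : 0 ≤ ∑ i, m i := sum_nonneg fun i _ => (h.hm i).le
  have e : ∑ i, ∑ j, m i * m j * (((2 : ℕ) : ℝ) *
      (inner ℝ n (q i t) - inner ℝ n (q j t)) ^ (2 - 1) * (inner ℝ n (v i t) - inner ℝ n (v j t))) =
      4 * (∑ i, m i) * (∑ i, m i * (inner ℝ n (q i t) * inner ℝ n (v i t))) -
        4 * (∑ i, m i * inner ℝ n (q i t)) * ∑ i, m i * inner ℝ n (v i t) := by
    simp only [Fin.sum_univ_four]
    push_cast
    ring
  rw [e, h3]
  nlinarith [mul_nonneg hM h2]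

theorem iner_lower (hm : ∀ i, 0 < m i) : ∃ k : ℝ, 0 < k ∧ ∀ (x : Fin 4 → E) (n : E),
    k * (inner ℝ n (x 1 - x 0) ^ 2 + inner ℝ n (x 2 - x 0) ^ 2 + inner ℝ n (x 3 - x 0) ^ 2) ≤
      iner m x n := by
  have h0 := hm 0
  have h1 := hm 1
  have h2 := hm 2
  have h3 := hm 3
  refine ⟨m 0 * min (m 1) (min (m 2) (m 3)), by positivity, fun x n => ?_⟩
  have e1 : min (m 1) (min (m 2) (m 3)) ≤ m 1 := min_le_left _ _
  have e2 : min (m 1) (min (m 2) (m 3)) ≤ m 2 := (min_le_right _ _).trans (min_le_left _ _)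
  have e3 : min (m 1) (min (m 2) (m 3)) ≤ m 3 := (min_le_right _ _).trans (min_le_right _ _)
  refine le_trans ?_ (single_le_sum (f := fun i => ∑ j, m i * m j *
    (inner ℝ n (x i) - inner ℝ n (x j)) ^ 2) (fun i _ => sum_nonneg fun j _ =>
      mul_nonneg (mul_pos (hm i) (hm j)).le (sq_nonneg _)) (mem_univ 0))
  simp only [inner_sub_right, Fin.sum_univ_four]
  generalize min (m 1) (min (m 2) (m 3)) = μ at *
  have f1 := mul_le_mul_of_nonneg_right (mul_le_mul_of_nonneg_left e1 h0.le)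
    (sq_nonneg (inner ℝ n (x 1) - inner ℝ n (x 0)))
  have f2 := mul_le_mul_of_nonneg_right (mul_le_mul_of_nonneg_left e2 h0.le)
    (sq_nonneg (inner ℝ n (x 2) - inner ℝ n (x 0)))
  have f3 := mul_le_mul_of_nonneg_right (mul_le_mul_of_nonneg_left e3 h0.le)
    (sq_nonneg (inner ℝ n (x 3) - inner ℝ n (x 0)))
  nlinarith

theorem iner_upper (hm : ∀ i, 0 < m i) (x : Fin 4 → E) (n : E) : iner m x n ≤
    (∑ i, ∑ j, m i * m j * 2) *
      (inner ℝ n (x 1 - x 0) ^ 2 + inner ℝ n (x 2 - x 0) ^ 2 + inner ℝ n (x 3 - x 0) ^ 2) := by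
  rw [iner, sum_mul]
  refine sum_le_sum fun i _ => ?_
  rw [sum_mul]
  refine sum_le_sum fun j _ => ?_
  rw [mul_assoc (m i * m j)]
  refine mul_le_mul_of_nonneg_left ?_ (mul_pos (hm i) (hm j)).le
  simp only [inner_sub_right]
  generalize hy : (fun k => inner ℝ n (x k)) = y
  have hk : ∀ k, inner ℝ n (x k) = y k := fun k => congrFun hy k
  simp only [hk]
  fin_cases i <;> fin_cases j <;> simp only [Fin.zero_eta, Fin.mk_one, Fin.reduceFinMk] <;>
    nlinarith [sq_nonneg (y 1 - y 0), sq_nonneg (y 2 - y 0), sq_nonneg (y 3 - y 0),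
      sq_nonneg (y 1 + y 2 - 2 * y 0), sq_nonneg (y 1 + y 3 - 2 * y 0),
      sq_nonneg (y 2 + y 3 - 2 * y 0)]

/-- The volume dominates the size of the configuration. -/
theorem Sol.size_le (h : Sol m q v a T) : ∃ δ : ℝ, 0 < δ ∧ ∀ t, T + 1 ≤ t →
    δ * ‖q 1 t - q 0 t‖ ≤ |d3 (q 1 t - q 0 t) (q 2 t - q 0 t) (q 3 t - q 0 t)| := by
  obtain ⟨k, hk, hk'⟩ := iner_lower h.hm
  obtain ⟨ε, hε, hε'⟩ := exists_width (h.det (T + 1) (by linarith))
  set K := ∑ i, ∑ j, m i * m j * 2 with hK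
  have hK0 : 0 < K := sum_pos (fun i _ => sum_pos (fun j _ => by
    have := h.hm i
    have := h.hm j
    positivity) univ_nonempty) univ_nonempty
  refine ⟨k * ε / K, by positivity, fun t ht => norm_le_of_width (by positivity)
    (h.det t (by linarith)) fun n => ?_⟩
  have e1 := hk' (fun i => q i (T + 1)) n
  have e2 := h.iner_mono n (s := T + 1) (by linarith) ht
  have e3 := iner_upper h.hm (fun i => q i t) n
  have e4 := mul_le_mul_of_nonneg_left (hε' n) hk.le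
  rw [div_mul_eq_mul_div, div_le_iff₀ hK0]
  nlinarith

/-- The volume of a never coplanar solution with zero angular momentum is unbounded. -/
theorem Sol.unbounded (h : Sol m q v a T) (C : ℝ)
    (hC : ∀ t, T < t → |d3 (q 1 t - q 0 t) (q 2 t - q 0 t) (q 3 t - q 0 t)| ≤ C) : False := by
  obtain ⟨δ, hδ, h1⟩ := h.size_le
  obtain ⟨n, s', -, h3, h4, h5⟩ := h.riccati' fun i => if i = 1 then 1 else 0
  have hC0 : 0 < C := (abs_pos.2 (h.det (T + 1) (by linarith))).trans_le (hC _ (by linarith))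
  have m0 := h.hm 0
  have m1 := h.hm 1
  refine not_deriv_le (T := T + 1) (w := (1 / 2) * (m 0 * m 1 / (C / δ) ^ 3)) (by positivity)
    (fun t ht => h3 t (by linarith)) (fun t ht => (h4 t (by linarith)).trans ?_)
    (fun t ht => h5 t (by linarith))
  have e1 : ‖q 1 t - q 0 t‖ ≤ C / δ := by
    rw [le_div_iff₀ hδ, mul_comm]
    exact (h1 t ht.le).trans (hC t (by linarith))
  have e2 : 0 < ‖q 1 t - q 0 t‖ :=
    norm_pos_iff.2 (sub_ne_zero.2 (h.ne t (by linarith) 1 0 (by decide)))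
  have e3 : m 0 * m 1 / (C / δ) ^ 3 ≤ cc m (fun k => q k t) 0 1 := by
    unfold cc
    gcongr
  have hnn : ∀ i j, 0 ≤ cc m (fun k => q k t) i j *
      ((if i = 1 then (1 : ℝ) else 0) - (if j = 1 then 1 else 0)) ^ 2 := fun i j =>
    mul_nonneg (cc_nonneg h.hm _ i j) (sq_nonneg _)
  have e4 := (single_le_sum (fun j _ => hnn 0 j) (mem_univ 1)).trans
    (single_le_sum (fun i _ => sum_nonneg fun j (_ : j ∈ univ) => hnn i j) (mem_univ 0))
  simp only [Fin.zero_ne_one', if_true] at e4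
  norm_num at e4
  norm_num
  linarith

end Pool.Agent.Lib.MP_32f877_an.Ric
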