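import Pool.Agent.Lib.MP_32f877_an.Ric2

/-! Conservation of linear and angular momentum. -/

open Finset Filter Topology

namespace Pool.Agent.Lib.MP_32f877_an.Ric

variable {m : Fin 4 → ℝ} {q v a : Fin 4 → ℝ → E}

theorem const_of_deriv {f : ℝ → ℝ} (h : ∀ t, 0 ≤ t → HasDerivWithinAt f 0 (Set.Ici 0) t) {t : ℝ}
    (ht : 0 ≤ t) : f t = f 0 :=
  constant_of_has_deriv_right_zero (a := 0) (b := t)
    (fun x hx => (h x hx.1).continuousWithinAt.mono Set.Icc_subset_Ici_self)
    (fun x hx => (h x hx.1).mono (Set.Ici_subset_Ici.2 hx.1)) t ⟨ht, le_rfl⟩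

theorem sol_of (hm : ∀ i, 0 < m i)
    (hd : ∀ t : ℝ, 0 ≤ t → ∀ i, HasDerivWithinAt (q i) (v i t) (Set.Ici 0) t ∧
      HasDerivWithinAt (v i) (a i t) (Set.Ici 0) t)
    (hne : ∀ t : ℝ, 0 ≤ t → ∀ i j, i ≠ j → q i t ≠ q j t)
    (heq : ∀ t : ℝ, 0 ≤ t → ∀ i, m i • a i t =
      ∑ j ∈ univ.erase i, (m i * m j / ‖q j t - q i t‖ ^ 3) • (q j t - q i t))
    (hP : ∑ i, m i • v i 0 = 0)
    (hJ : ∑ i, m i • crossProduct (q i 0).ofLp (v i 0).ofLp = 0) {T : ℝ} (hT : 0 ≤ T)
    (hdet : ∀ t, T < t →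
      Matrix.det (Matrix.of fun i k : Fin 3 => (q i.succ t - q 0 t) k) ≠ 0) :
    Sol m q v a T := by
  have hq : ∀ (n : E) t, 0 ≤ t → ∀ i, HasDerivWithinAt (fun s => inner ℝ n (q i s))
      (inner ℝ n (v i t)) (Set.Ici 0) t := fun n t ht i => by
    simpa using (hasDerivWithinAt_const t (Set.Ici 0) n).inner ℝ (hd t ht i).1
  have hv : ∀ (n : E) t, 0 ≤ t → ∀ i, HasDerivWithinAt (fun s => inner ℝ n (v i s))
      (inner ℝ n (a i t)) (Set.Ici 0) t := fun n t ht i => by
    simpa using (hasDerivWithinAt_const t (Set.Ici 0) n).inner ℝ (hd t ht i).2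
  have hf : ∀ (n : E) t, 0 ≤ t → ∀ g : Fin 4 → ℝ, ∑ i, g i * (m i * inner ℝ n (a i t)) =
      -(1 / 2) * ∑ i, ∑ j, cc m (fun k => q k t) i j *
        ((g i - g j) * (inner ℝ n (q i t) - inner ℝ n (q j t))) := fun n t ht g => by
    rw [← parts _ (cc_symm m _)]
    exact sum_congr rfl fun i _ => by rw [force (x := fun k => q k t) (heq t ht i)]
  refine ⟨hm, fun t ht i => (hd t (hT.trans ht.le) i).1.hasDerivAt (Ici_mem_nhds (hT.trans_lt ht)),
    fun t ht i => (hd t (hT.trans ht.le) i).2.hasDerivAt (Ici_mem_nhds (hT.trans_lt ht)),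
    fun t ht => hne t (hT.trans ht.le), fun t ht => heq t (hT.trans ht.le), fun t ht n => ?_,
    fun t ht n n' => ?_, fun t ht => ?_⟩
  · rw [const_of_deriv (f := fun s => ∑ i, m i * inner ℝ n (v i s)) (fun s hs => ?_)
      (hT.trans ht.le)]
    · have := congrArg (inner ℝ n) hP
      simpa only [inner_sum, inner_smul_right, inner_zero_right] using this
    · refine (HasDerivWithinAt.fun_sum fun i _ => (hv n s hs i).const_mul (m i)).congr_deriv ?_
      simpa using hf n s hs fun _ => 1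
  · rw [← sub_eq_zero, const_of_deriv (f := fun s =>
      ∑ i, m i * (inner ℝ n (q i s) * inner ℝ n' (v i s)) -
        ∑ i, m i * (inner ℝ n' (q i s) * inner ℝ n (v i s))) (fun s hs => ?_) (hT.trans ht.le)]
    · have h0 := congrFun hJ 0
      have h1 := congrFun hJ 1
      have h2 := congrFun hJ 2
      simp only [Fin.sum_univ_four, cross_apply, Pi.add_apply, Pi.smul_apply, smul_eq_mul,
        Pi.zero_apply, Matrix.cons_val_zero, Matrix.cons_val_one, Matrix.cons_val] at h0 h1 h2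
      simp only [Fin.sum_univ_four, ip]
      linear_combination (n 1 * n' 2 - n 2 * n' 1) * h0 + (n 2 * n' 0 - n 0 * n' 2) * h1 +
        (n 0 * n' 1 - n 1 * n' 0) * h2
    · refine ((HasDerivWithinAt.fun_sum fun i _ =>
        ((hq n s hs i).mul (hv n' s hs i)).const_mul (m i)).sub
        (HasDerivWithinAt.fun_sum fun i _ =>
          ((hq n' s hs i).mul (hv n s hs i)).const_mul (m i))).congr_deriv ?_
      have e1 := hf n' s hs fun i => inner ℝ n (q i s)
      have e2 := hf n s hs fun i => inner ℝ n' (q i s)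
      simp only [Fin.sum_univ_four] at e1 e2 ⊢
      linear_combination e1 - e2
  · rw [← det_eq fun k => q k t]
    exact hdet t ht

end Pool.Agent.Lib.MP_32f877_an.Ric
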