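import Pool.Agent.Lib.MP_32f877_an.Ric3

/-! All mutual distances of a never coplanar solution with zero angular momentum tend to
infinity. -/

open Finset Filter Topology

namespace Pool.Agent.Lib.MP_32f877_an.Ric

theorem small_of_control {p p' s s' w : ℝ → ℝ} {T C : ℝ} (hC : 0 ≤ C)
    (hp : ∀ t, T < t → HasDerivAt p (p' t) t) (hs : ∀ t, T < t → HasDerivAt s (s' t) t)
    (hs0 : ∀ t, T < t → 0 ≤ s t) (hs' : ∀ t, T < t → s' t ≤ -w t) (hw : ∀ t, T < t → 0 ≤ w t)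
    (hp' : ∀ t, T < t → p' t ≤ C * w t)
    (hδ : ∀ ε, 0 < ε → ∃ δ, 0 < δ ∧ ∀ t, T < t → ε ≤ p t → δ ≤ w t) {ε : ℝ} (hε : 0 < ε) :
    ∃ t₁, T < t₁ ∧ ∀ t, t₁ ≤ t → p t < ε := by
  have hb : BddBelow (s '' Set.Ioi T) := ⟨0, by rintro _ ⟨t, ht, rfl⟩; exact hs0 t ht⟩
  have hη : 0 < ε / (2 * (C + 1)) := by positivity
  obtain ⟨_, ⟨t₂, ht₂, rfl⟩, h2⟩ := Real.lt_sInf_add_pos
    (s := s '' Set.Ioi T) ⟨_, T + 1, by simp, rfl⟩ hη
  have ht₂' : T < t₂ := ht₂
  obtain ⟨δ, hδ0, hδ1⟩ := hδ (ε / 2) (by positivity)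
  obtain ⟨t₃, ht₃, h3⟩ : ∃ t₃, t₂ < t₃ ∧ p t₃ < ε / 2 := by
    by_contra hc
    push Not at hc
    exact not_deriv_le hδ0 (T := t₂) (fun t ht => hs t (ht₂'.trans ht))
      (fun t ht => by linarith [hs' t (ht₂'.trans ht), hδ1 t (ht₂'.trans ht) (hc t ht)])
      fun t ht => hs0 t (ht₂'.trans ht)
  refine ⟨t₃, ht₂'.trans ht₃, fun t ht => ?_⟩
  have h4 := anti_of_deriv (f := fun t => p t + C * s t) (f' := fun t => p' t + C * s' t)
    (fun t ht => (hp t ht).add ((hs t ht).const_mul C))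
    (fun t ht => by nlinarith [hp' t ht, mul_le_mul_of_nonneg_left (hs' t ht) hC])
    (ht₂'.trans ht₃) ht
  have h5 := anti_of_deriv hs (fun t ht => by linarith [hs' t ht, hw t ht]) ht₂' ht₃.le
  have h6 : sInf (s '' Set.Ioi T) ≤ s t := csInf_le hb ⟨t, (ht₂'.trans ht₃).trans_le ht, rfl⟩
  have h7 : C * (s t₃ - s t) ≤ C * (ε / (2 * (C + 1))) :=
    mul_le_mul_of_nonneg_left (by linarith) hC
  have h8 : (C + 1) * (ε / (2 * (C + 1))) = ε / 2 := by field_simp
  nlinarith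

theorem deriv_inv_norm {x : ℝ → E} {x' : E} {t : ℝ} (h : HasDerivAt x x' t) (h0 : x t ≠ 0) :
    HasDerivAt (fun s => ‖x s‖⁻¹) (-(inner ℝ (x t) x' / ‖x t‖ ^ 3)) t := by
  have hn : ‖x t‖ ≠ 0 := norm_ne_zero_iff.2 h0
  have h1 := (h.norm_sq.sqrt (pow_ne_zero 2 hn))
  simp only [Real.sqrt_sq (norm_nonneg _)] at h1
  refine (h1.inv hn).congr_deriv ?_
  field_simp

variable {m : Fin 4 → ℝ} {q v a : Fin 4 → ℝ → E} {T : ℝ}

theorem Sol.energy (h : Sol m q v a T) : ∃ H : ℝ, ∀ t, T < t →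
    ∑ i, m i * ‖v i t‖ ^ 2 = H + ∑ i, ∑ j, m i * m j * ‖q j t - q i t‖⁻¹ := by
  have hd : ∀ t, T < t → HasDerivAt (fun t => ∑ i, m i * ‖v i t‖ ^ 2 -
      ∑ i, ∑ j, m i * m j * ‖q j t - q i t‖⁻¹) 0 t := fun t ht => by
    have h1 : ∀ i j, HasDerivAt (fun s => ‖q j s - q i s‖⁻¹)
        (-(inner ℝ (q j t - q i t) (v j t - v i t) / ‖q j t - q i t‖ ^ 3)) t := fun i j => by
      by_cases hij : j = i
      · subst hij
        simpa using hasDerivAt_const t (0 : ℝ)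
      · exact deriv_inv_norm ((h.dq t ht j).sub (h.dq t ht i)) (sub_ne_zero.2 (h.ne t ht j i hij))
    refine ((HasDerivAt.fun_sum fun i _ => (h.dv t ht i).norm_sq.const_mul (m i)).sub
      (HasDerivAt.fun_sum fun i _ => HasDerivAt.fun_sum fun j _ =>
        (h1 i j).const_mul (m i * m j))).congr_deriv ?_
    have h2 : ∀ i, m i * (2 * inner ℝ (v i t) (a i t)) = 2 * ∑ j, cc m (fun k => q k t) i j *
        (inner ℝ (v i t) (q j t) - inner ℝ (v i t) (q i t)) := fun i => by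
      rw [← force (x := fun k => q k t) (h.eq t ht i)]
      ring
    have h3 : ∀ i j, m i * m j * -(inner ℝ (q j t - q i t) (v j t - v i t) / ‖q j t - q i t‖ ^ 3) =
        -(cc m (fun k => q k t) i j * (inner ℝ (v j t) (q j t) - inner ℝ (v j t) (q i t) -
          (inner ℝ (v i t) (q j t) - inner ℝ (v i t) (q i t)))) := fun i j => by
      rw [real_inner_comm, inner_sub_left, inner_sub_right, inner_sub_right, cc]
      ring
    simp only [h2, h3]
    have hc := cc_symm m fun k => q k t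
    generalize cc m (fun k => q k t) = c at hc
    simp only [Fin.sum_univ_four]
    rw [hc 1 0, hc 2 0, hc 3 0, hc 2 1, hc 3 1, hc 3 2]
    ring
  refine ⟨∑ i, m i * ‖v i (T + 1)‖ ^ 2 - ∑ i, ∑ j, m i * m j * ‖q j (T + 1) - q i (T + 1)‖⁻¹,
    fun t ht => ?_⟩
  have h1 := isOpen_Ioi.is_const_of_deriv_eq_zero (isPreconnected_Ioi (a := T))
    (fun s hs => (hd s hs).differentiableAt.differentiableWithinAt) (fun s hs => (hd s hs).deriv)
    ht (show T + 1 ∈ Set.Ioi T by simp)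
  linarith

/-- The sum of the inverse squared distances. -/
noncomputable def psi (m : Fin 4 → ℝ) (x : Fin 4 → E) : ℝ :=
  ∑ i, ∑ j, m i * m j * (‖x j - x i‖ ^ 2)⁻¹

theorem psi_nonneg (hm : ∀ i, 0 < m i) (x : Fin 4 → E) : 0 ≤ psi m x :=
  sum_nonneg fun i _ => sum_nonneg fun j _ => by
    have := hm i
    have := hm j
    positivity

theorem Sol.speed (h : Sol m q v a T) : ∃ L : ℝ, 0 ≤ L ∧ ∀ t, T < t → ∀ i,
    ‖v i t‖ ≤ L * (1 + psi m fun k => q k t) := by
  obtain ⟨H, hH⟩ := h.energy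
  set N := ∑ i, ∑ j, m i * m j with hN
  have hN0 : 0 ≤ N := sum_nonneg fun i _ => sum_nonneg fun j _ => (mul_pos (h.hm i) (h.hm j)).le
  have hL : ∀ i, 0 ≤ (|H| + N + 1) / m i := fun i => by
    have := h.hm i
    positivity
  refine ⟨1 + ∑ i, (|H| + N + 1) / m i, by linarith [sum_nonneg (s := univ) fun i _ => hL i],
    fun t ht i => ?_⟩
  have hψ := psi_nonneg h.hm fun k => q k t
  have h1 : ∑ i, ∑ j, m i * m j * ‖q j t - q i t‖⁻¹ ≤ N + psi m fun k => q k t := by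
    rw [hN, psi, ← sum_add_distrib]
    refine sum_le_sum fun i _ => ?_
    rw [← sum_add_distrib]
    refine sum_le_sum fun j _ => ?_
    rw [← inv_pow, ← mul_one_add]
    refine mul_le_mul_of_nonneg_left ?_ (mul_pos (h.hm i) (h.hm j)).le
    nlinarith [sq_nonneg (‖q j t - q i t‖⁻¹ - 1), sq_nonneg (‖q j t - q i t‖⁻¹)]
  have h2 : m i * ‖v i t‖ ^ 2 ≤ ∑ i, m i * ‖v i t‖ ^ 2 :=
    single_le_sum (f := fun i => m i * ‖v i t‖ ^ 2)
      (fun i _ => mul_nonneg (h.hm i).le (sq_nonneg _)) (mem_univ i)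
  have h3 : ‖v i t‖ ^ 2 ≤ (|H| + N + 1) / m i * (1 + psi m fun k => q k t) := by
    rw [div_mul_eq_mul_div, le_div_iff₀ (h.hm i)]
    nlinarith [hH t ht, le_abs_self H, abs_nonneg H, mul_nonneg (abs_nonneg H) hψ,
      mul_nonneg hN0 hψ]
  have h4 : (|H| + N + 1) / m i ≤ ∑ i, (|H| + N + 1) / m i :=
    single_le_sum (f := fun i => (|H| + N + 1) / m i) (fun i _ => hL i) (mem_univ i)
  have h5 := mul_le_mul_of_nonneg_right h4 (by linarith : 0 ≤ 1 + psi m fun k => q k t)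
  nlinarith [sq_nonneg (‖v i t‖ - 1), sq_nonneg ‖v i t‖]

theorem psi_le (hm : ∀ i, 0 < m i) (x : Fin 4 → E) {η : ℝ} (hη : 0 < η) :
    η * psi m x ≤ η ^ 3 * (∑ i, ∑ j, m i * m j) + ∑ i, ∑ j, cc m x i j := by
  rw [psi, mul_sum, mul_sum, ← sum_add_distrib]
  refine sum_le_sum fun i _ => ?_
  rw [mul_sum, mul_sum, ← sum_add_distrib]
  refine sum_le_sum fun j _ => ?_
  rw [cc, div_eq_mul_inv, ← inv_pow, ← inv_pow]
  have h0 : 0 ≤ ‖x j - x i‖⁻¹ := by positivity
  generalize ‖x j - x i‖⁻¹ = ρ at h0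
  have h1 : η * ρ ^ 2 ≤ η ^ 3 + ρ ^ 3 := by
    rcases le_total ρ η with h | h
    · nlinarith [mul_le_mul_of_nonneg_left (pow_le_pow_left₀ h0 h 2) hη.le, pow_nonneg h0 3]
    · nlinarith [mul_le_mul_of_nonneg_right h (sq_nonneg ρ), pow_pos hη 3]
  nlinarith [mul_le_mul_of_nonneg_left h1 (mul_pos (hm i) (hm j)).le]

theorem Sol.psi_small (h : Sol m q v a T) {ε : ℝ} (hε : 0 < ε) :
    ∃ t₁, T < t₁ ∧ ∀ t, t₁ ≤ t → Real.log (1 + psi m fun k => q k t) < ε := by
  obtain ⟨L, hL, hv⟩ := h.speed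
  obtain ⟨n, s', -, h3, h4, h5⟩ := h.riccati' fun i => ((i : ℕ) : ℝ)
  have hψ := fun t => psi_nonneg h.hm fun k => q k t
  have hW : ∀ t, 0 ≤ ∑ i, ∑ j, cc m (fun k => q k t) i j := fun t =>
    sum_nonneg fun i _ => sum_nonneg fun j _ => cc_nonneg h.hm _ i j
  have hd : ∀ t, T < t → HasDerivAt (fun t => psi m fun k => q k t)
      (∑ i, ∑ j, m i * m j * (-(2 * inner ℝ (q j t - q i t) (v j t - v i t)) /
        (‖q j t - q i t‖ ^ 2) ^ 2)) t := fun t ht =>
    HasDerivAt.fun_sum fun i _ => HasDerivAt.fun_sum fun j _ => HasDerivAt.const_mul _ (by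
      by_cases hij : j = i
      · subst hij
        simpa using hasDerivAt_const t (0 : ℝ)
      · exact ((h.dq t ht j).sub (h.dq t ht i)).norm_sq.inv
          (pow_ne_zero 2 (norm_ne_zero_iff.2 (sub_ne_zero.2 (h.ne t ht j i hij)))))
  refine small_of_control (C := 8 * L) (w := fun t => (1 / 2) * ∑ i, ∑ j, cc m (fun k => q k t) i j)
    (by positivity) (fun t ht => ((hd t ht).const_add 1).log (by linarith [hψ t])) h3 h5
    (fun t ht => (h4 t ht).trans ?_) (fun t _ => by linarith [hW t]) (fun t ht => ?_)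
    (fun e he => ?_) hε
  · rw [neg_le_neg_iff]
    refine mul_le_mul_of_nonneg_left (sum_le_sum fun i _ => sum_le_sum fun j _ => ?_) (by norm_num)
    by_cases hij : j = i
    · rw [hij, cc_self, zero_mul]
    · refine le_mul_of_one_le_right (cc_nonneg h.hm _ i j) ?_
      have : (1 : ℤ) ≤ (((i : ℕ) : ℤ) - ((j : ℕ) : ℤ)) ^ 2 := by
        have : ((i : ℕ) : ℤ) - ((j : ℕ) : ℤ) ≠ 0 := fun hc => hij (Fin.ext (by omega))
        have : 0 < (((i : ℕ) : ℤ) - ((j : ℕ) : ℤ)) ^ 2 := by positivity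
        omega
      exact_mod_cast this
  · rw [div_le_iff₀ (by linarith [hψ t])]
    have e : 8 * L * (1 / 2 * ∑ i, ∑ j, cc m (fun k => q k t) i j) * (1 + psi m fun k => q k t) =
        ∑ i, ∑ j, cc m (fun k => q k t) i j * (4 * (L * (1 + psi m fun k => q k t))) := by
      simp only [← sum_mul]
      ring
    rw [e]
    refine sum_le_sum fun i _ => sum_le_sum fun j _ => ?_
    by_cases hij : j = i
    · simp [hij, cc_self]
    have hr : 0 < ‖q j t - q i t‖ := norm_pos_iff.2 (sub_ne_zero.2 (h.ne t ht j i hij))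
    have e1 := abs_real_inner_le_norm (q j t - q i t) (v j t - v i t)
    have e2 : ‖v j t - v i t‖ ≤ 2 * (L * (1 + psi m fun k => q k t)) := by
      linarith [norm_sub_le (v j t) (v i t), hv t ht i, hv t ht j]
    have e3 := mul_le_mul_of_nonneg_left e2 hr.le
    have e4 := neg_abs_le (inner ℝ (q j t - q i t) (v j t - v i t))
    rw [cc, div_mul_eq_mul_div, mul_div_assoc]
    refine mul_le_mul_of_nonneg_left ?_ (mul_pos (h.hm i) (h.hm j)).le
    rw [div_le_div_iff₀ (by positivity) (by positivity)]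
    have e5 : -(2 * inner ℝ (q j t - q i t) (v j t - v i t)) ≤
        4 * (L * (1 + psi m fun k => q k t)) * ‖q j t - q i t‖ := by linarith
    have e6 := mul_le_mul_of_nonneg_right e5 (pow_pos hr 3).le
    nlinarith
  · set N := ∑ i, ∑ j, m i * m j with hN
    have hN0 : 0 ≤ N := sum_nonneg fun i _ => sum_nonneg fun j _ => (mul_pos (h.hm i) (h.hm j)).le
    set η := min 1 (e / (2 * (N + 1))) with hη
    have hη0 : 0 < η := by positivity
    have hη1 : η ≤ 1 := min_le_left _ _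
    have hη2 : η * (2 * (N + 1)) ≤ e := (le_div_iff₀ (by positivity)).1 (min_le_right _ _)
    refine ⟨η * e / 4, by positivity, fun t _ he' => ?_⟩
    have e1 := Real.log_le_sub_one_of_pos (x := 1 + psi m fun k => q k t) (by linarith [hψ t])
    have e2 := psi_le h.hm (fun k => q k t) hη0
    have e3 : η * e ≤ η * psi m fun k => q k t := mul_le_mul_of_nonneg_left (by linarith) hη0.le
    have e4 : η ^ 2 * N ≤ e / 2 := by nlinarith [mul_nonneg hη0.le hN0]
    have e5 := mul_le_mul_of_nonneg_left e4 hη0.le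
    rw [← hN] at e2
    nlinarith

/-- All mutual distances tend to infinity. -/
theorem Sol.escape (h : Sol m q v a T) {i j : Fin 4} (hij : i ≠ j) :
    Tendsto (fun t => ‖q i t - q j t‖) atTop atTop := by
  refine tendsto_atTop.2 fun R => ?_
  have hμ := mul_pos (h.hm j) (h.hm i)
  have hR : 0 < m j * m i * (R ^ 2 + 1)⁻¹ := by positivity
  obtain ⟨t₁, ht₁, h1⟩ := h.psi_small (ε := Real.log (1 + m j * m i * (R ^ 2 + 1)⁻¹))
    (Real.log_pos (by linarith))
  filter_upwards [eventually_ge_atTop t₁] with t ht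
  have hψ := psi_nonneg h.hm fun k => q k t
  have e1 := (Real.log_lt_log_iff (by linarith) (by linarith)).1 (h1 t ht)
  have hnn : ∀ i j, 0 ≤ m i * m j * (‖q j t - q i t‖ ^ 2)⁻¹ := fun i j => by
    have := h.hm i
    have := h.hm j
    positivity
  have e2 : m j * m i * (‖q i t - q j t‖ ^ 2)⁻¹ ≤ psi m fun k => q k t :=
    (single_le_sum (fun k _ => hnn j k) (mem_univ i)).trans
      (single_le_sum (fun l _ => sum_nonneg fun k (_ : k ∈ univ) => hnn l k) (mem_univ j))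
  have hr : 0 < ‖q i t - q j t‖ :=
    norm_pos_iff.2 (sub_ne_zero.2 (h.ne t (ht₁.trans_le ht) i j hij))
  have e3 : (‖q i t - q j t‖ ^ 2)⁻¹ < (R ^ 2 + 1)⁻¹ := lt_of_mul_lt_mul_left (by linarith) hμ.le
  rw [inv_lt_inv₀ (by positivity) (by positivity)] at e3
  exact (le_abs_self R).trans (abs_le_of_sq_le_sq (by linarith) hr.le)

end Pool.Agent.Lib.MP_32f877_an.Ric
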