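import Pool.Agent.Lib.MP_32f877_an.Ric3
import Pool.Agent.Lib.MP_32f877_an.Variants.BoundedVolume

/-! Symmetries of the four-body problem acting on solutions with bounded volume. -/

open Finset Filter Topology

namespace Pool.Agent.Lib.MP_32f877_an.Ric

theorem cr_ofLp (x y : E) : (cr x y).ofLp = crossProduct x.ofLp y.ofLp := by
  ext k
  fin_cases k <;> simp [cr, cross_apply]

/-- There is a solution with zero momentum, angular momentum `J` and volume between two positive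
constants. -/
def Good (m : Fin 4 → ℝ) (J : E) : Prop :=
  ∃ q v a : Fin 4 → ℝ → E,
    (∀ t : ℝ, 0 ≤ t → ∀ i, HasDerivAt (q i) (v i t) t ∧ HasDerivAt (v i) (a i t) t) ∧
    (∀ t : ℝ, 0 ≤ t → ∀ i j, i ≠ j → q i t ≠ q j t) ∧
    (∀ t : ℝ, 0 ≤ t → ∀ i, m i • a i t =
      ∑ j ∈ univ.erase i, (m i * m j / ‖q j t - q i t‖ ^ 3) • (q j t - q i t)) ∧
    ∑ i, m i • v i 0 = 0 ∧ ∑ i, m i • cr (q i 0) (v i 0) = J ∧
    ∃ c C : ℝ, 0 < c ∧ c ≤ C ∧ ∀ t : ℝ, 0 ≤ t →
      c ≤ 1 / 6 * |d3 (q 1 t - q 0 t) (q 2 t - q 0 t) (q 3 t - q 0 t)| ∧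
      1 / 6 * |d3 (q 1 t - q 0 t) (q 2 t - q 0 t) (q 3 t - q 0 t)| ≤ C

variable {m : Fin 4 → ℝ} {J : E}

theorem exists_good (hm : ∀ i, 0 < m i) : ∃ J, Good m J := by
  obtain ⟨q, v, a, hd, hne, heq, c, C, hc, hcC, hV⟩ := Variants.BoundedVolume.result m hm
  have hM : 0 < ∑ i, m i := sum_pos (fun i _ => hm i) univ_nonempty
  set u : E := (∑ i, m i)⁻¹ • ∑ i, m i • v i 0 with hu
  have e : ∀ t i j, q j t - t • u - (q i t - t • u) = q j t - q i t := fun t i j => by abel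
  refine ⟨_, fun i t => q i t - t • u, fun i t => v i t - u, a, fun t ht i => ⟨?_, ?_⟩,
    fun t ht i j hij h => hne t ht i j hij (sub_left_injective h), fun t ht i => ?_, ?_, rfl,
    c, C, hc, hcC, fun t ht => ?_⟩
  · exact ((hd t ht i).1.sub ((hasDerivAt_id' t).smul_const u)).congr_deriv (by rw [one_smul])
  · exact (hd t ht i).2.sub_const u
  · simp only [e]
    exact heq t ht i
  · simp only [smul_sub, sum_sub_distrib, ← sum_smul]
    rw [hu, smul_smul, mul_inv_cancel₀ hM.ne', one_smul, sub_self]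
  · simp only [e]
    rw [← det_eq fun k => q k t]
    exact hV t ht

theorem Good.ne_zero (hm : ∀ i, 0 < m i) (h : Good m J) : J ≠ 0 := by
  rintro rfl
  obtain ⟨q, v, a, hd, hne, heq, hP, hJ, c, C, hc, -, hV⟩ := h
  have hJ' : ∑ i, m i • crossProduct (q i 0).ofLp (v i 0).ofLp = 0 := by
    have := congrArg WithLp.ofLp hJ
    simpa only [WithLp.ofLp_sum, WithLp.ofLp_smul, cr_ofLp, WithLp.ofLp_zero] using this
  refine (sol_of hm (fun t ht i => ⟨(hd t ht i).1.hasDerivWithinAt, (hd t ht i).2.hasDerivWithinAt⟩)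
    hne heq hP hJ' le_rfl fun t ht => ?_).unbounded (6 * C) fun t ht => by linarith [(hV t ht.le).2]
  rw [det_eq fun k => q k t, ← abs_pos]
  linarith [(hV t ht.le).1]

theorem Good.scale (h : Good m J) {l : ℝ} (hl : 0 < l) : Good m (l • J) := by
  obtain ⟨q, v, a, hd, hne, heq, hP, hJ, c, C, hc, hcC, hV⟩ := h
  have hlin : ∀ t : ℝ, HasDerivAt (fun t : ℝ => t / l ^ 3) (1 / l ^ 3) t := fun t =>
    (hasDerivAt_id' t).div_const _
  have hs : ∀ t : ℝ, 0 ≤ t → 0 ≤ t / l ^ 3 := fun t ht => by positivity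
  have h6 : 0 < l ^ 6 := by positivity
  refine ⟨fun i t => l ^ 2 • q i (t / l ^ 3), fun i t => l⁻¹ • v i (t / l ^ 3),
    fun i t => (l ^ 4)⁻¹ • a i (t / l ^ 3), fun t ht i => ⟨?_, ?_⟩, fun t ht i j hij h => ?_,
    fun t ht i => ?_, ?_, ?_, l ^ 6 * c, l ^ 6 * C, by positivity, by gcongr, fun t ht => ?_⟩
  · refine (((hd _ (hs t ht) i).1.scomp t (hlin t)).const_smul (l ^ 2)).congr_deriv ?_
    rw [smul_smul]
    congr 1
    field_simp
  · refine (((hd _ (hs t ht) i).2.scomp t (hlin t)).const_smul l⁻¹).congr_deriv ?_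
    rw [smul_smul]
    congr 1
    field_simp
  · exact hne _ (hs t ht) i j hij (smul_right_injective E (by positivity) h)
  · rw [smul_comm, heq _ (hs t ht) i, smul_sum]
    refine sum_congr rfl fun j _ => ?_
    simp only [← smul_sub, smul_smul, norm_smul, Real.norm_eq_abs, abs_of_pos (pow_pos hl 2)]
    congr 1
    field_simp
  · simp only [zero_div, smul_comm _ l⁻¹, ← smul_sum, hP, smul_zero]
  · rw [← hJ, smul_sum]
    refine sum_congr rfl fun i _ => ?_
    rw [smul_comm l]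
    congr 1
    ext k
    fin_cases k <;> simp [cr0, cr1, cr2] <;> field_simp
  · have e : d3 (l ^ 2 • q 1 (t / l ^ 3) - l ^ 2 • q 0 (t / l ^ 3))
        (l ^ 2 • q 2 (t / l ^ 3) - l ^ 2 • q 0 (t / l ^ 3))
        (l ^ 2 • q 3 (t / l ^ 3) - l ^ 2 • q 0 (t / l ^ 3)) =
        l ^ 6 * d3 (q 1 (t / l ^ 3) - q 0 (t / l ^ 3)) (q 2 (t / l ^ 3) - q 0 (t / l ^ 3))
          (q 3 (t / l ^ 3) - q 0 (t / l ^ 3)) := by
      simp only [d3, PiLp.sub_apply, PiLp.smul_apply, smul_eq_mul]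
      ring
    simp only [e, abs_mul, abs_of_pos h6]
    obtain ⟨e1, e2⟩ := hV _ (hs t ht)
    constructor <;> nlinarith

/-- The half turn about the axis `u`. -/
noncomputable def rot (u : E) : E →L[ℝ] E :=
  (2 : ℝ) • (innerSL ℝ u).smulRight u - ContinuousLinearMap.id ℝ E

theorem rot_apply (u x : E) : rot u x = (2 * inner ℝ u x) • u - x := by
  simp [rot, smul_smul]

theorem rot_coord (u x : E) (k : Fin 3) :
    rot u x k = 2 * (u 0 * x 0 + u 1 * x 1 + u 2 * x 2) * u k - x k := by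
  rw [rot_apply, ip]
  simp

theorem Good.rotate (h : Good m J) {u : E} (hu : ‖u‖ = 1) : Good m (rot u J) := by
  obtain ⟨q, v, a, hd, hne, heq, hP, hJ, c, C, hc, hcC, hV⟩ := h
  have hu' : u 0 ^ 2 + u 1 ^ 2 + u 2 ^ 2 = 1 := by rw [← nsq, hu, one_pow]
  have hn : ∀ x, ‖rot u x‖ = ‖x‖ := fun x => by
    rw [← sq_eq_sq₀ (norm_nonneg _) (norm_nonneg _), nsq, nsq]
    simp only [rot_coord]
    linear_combination (4 * (u 0 * x 0 + u 1 * x 1 + u 2 * x 2) ^ 2) * hu'
  have hc3 : ∀ x y, cr (rot u x) (rot u y) = rot u (cr x y) := fun x y => by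
    ext k
    fin_cases k <;> simp only [Fin.zero_eta, Fin.mk_one, Fin.reduceFinMk, cr0, cr1, cr2, rot_coord]
    · linear_combination (-2 * (x 1 * y 2 - x 2 * y 1)) * hu'
    · linear_combination (-2 * (x 2 * y 0 - x 0 * y 2)) * hu'
    · linear_combination (-2 * (x 0 * y 1 - x 1 * y 0)) * hu'
  have hd3 : ∀ x y z, d3 (rot u x) (rot u y) (rot u z) = d3 x y z := fun x y z => by
    simp only [d3, rot_coord]
    linear_combination (2 * (x 0 * y 1 * z 2 - x 0 * y 2 * z 1 - x 1 * y 0 * z 2 + x 1 * y 2 * z 0 +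
      x 2 * y 0 * z 1 - x 2 * y 1 * z 0)) * hu'
  refine ⟨fun i t => rot u (q i t), fun i t => rot u (v i t), fun i t => rot u (a i t),
    fun t ht i => ⟨(rot u).hasFDerivAt.comp_hasDerivAt t (hd t ht i).1,
      (rot u).hasFDerivAt.comp_hasDerivAt t (hd t ht i).2⟩, fun t ht i j hij h => ?_,
    fun t ht i => ?_, ?_, ?_, c, C, hc, hcC, fun t ht => ?_⟩
  · refine hne t ht i j hij ?_
    rw [← sub_eq_zero, ← norm_eq_zero, ← hn, map_sub, norm_eq_zero, sub_eq_zero]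
    exact h
  · simp only [← map_sub, hn, ← map_smul, ← map_sum, heq t ht i]
  · simp only [← map_smul, ← map_sum, hP, map_zero]
  · simp only [hc3, ← map_smul, ← map_sum, hJ]
  · simp only [← map_sub, hd3]
    exact hV t ht

theorem rot_normalize {w : E} (hw : w ≠ 0) (x : E) :
    rot (‖w‖⁻¹ • w) x = (2 * inner ℝ w x / ‖w‖ ^ 2) • w - x := by
  have := norm_ne_zero_iff.2 hw
  rw [rot_apply, inner_smul_left, smul_smul, conj_trivial]
  congr 2
  field_simp

theorem exists_rot {x y : E} (h : ‖x‖ = ‖y‖) : ∃ u : E, ‖u‖ = 1 ∧ rot u x = y := by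
  by_cases hs : x + y = 0
  · obtain ⟨w, hw, hw'⟩ : ∃ w : E, w ≠ 0 ∧ inner ℝ w x = 0 := by
      by_cases h0 : x 0 = 0
      · exact ⟨!₂[1, 0, 0], fun hc => by simpa using congrArg (fun z : E => z 0) hc, by
          simp [ip, h0]⟩
      · exact ⟨!₂[x 1, -x 0, 0], fun hc => h0 (by simpa using congrArg (fun z : E => z 1) hc), by
          simp [ip, mul_comm]⟩
    refine ⟨‖w‖⁻¹ • w, norm_smul_inv_norm hw, ?_⟩
    rw [rot_normalize hw, hw', eq_neg_of_add_eq_zero_right hs]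
    simp
  · refine ⟨‖x + y‖⁻¹ • (x + y), norm_smul_inv_norm hs, ?_⟩
    have e : 2 * inner ℝ (x + y) x = ‖x + y‖ ^ 2 := by
      rw [norm_add_sq_real, inner_add_left, real_inner_self_eq_norm_sq, real_inner_comm, h]
      ring
    rw [rot_normalize hs, e, div_self (pow_ne_zero 2 (norm_ne_zero_iff.2 hs)), one_smul]
    abel

theorem good_iff (hm : ∀ i, 0 < m i) : Good m J ↔ J ≠ 0 := by
  refine ⟨Good.ne_zero hm, fun hJ => ?_⟩
  obtain ⟨J₀, h₀⟩ := exists_good hm
  have h1 := norm_pos_iff.2 (h₀.ne_zero hm)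
  have h2 := norm_pos_iff.2 hJ
  obtain ⟨u, hu, hu'⟩ := exists_rot (x := (‖J‖ / ‖J₀‖) • J₀) (y := J) (by
    rw [norm_smul, Real.norm_eq_abs, abs_of_pos (by positivity)]
    field_simp)
  exact hu' ▸ (h₀.scale (by positivity)).rotate hu

end Pool.Agent.Lib.MP_32f877_an.Ric
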