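import Pool.Agent.Lib.MP_32f877_an.System

/-! The linearisation at the resonant mass ratio is onto, hence solutions for small amplitude. -/

open Complex ComplexConjugate Filter Topology

namespace Pool.Agent.Lib.MP_32f877_an.Bd

noncomputable def cc : ℝ := 3 * r3 - 1
noncomputable def mu0 : ℝ := (8 * cc - 9) / (9 * cc)
noncomputable def M0 : ℝ := (cc + 9) / (9 * cc)

theorem cc_gt : 4.196 < cc := by rw [cc]; linarith [r3_gt]
theorem cc_lt : cc < 4.199 := by rw [cc]; linarith [r3_lt]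
theorem cc_ne : cc ≠ 0 := by linarith [cc_gt]
theorem M0_eq : 1 - mu0 = M0 := by rw [mu0, M0]; field_simp [cc_ne]; ring
theorem K0_eq : KK mu0 = 8 * cc / 9 := by
  rw [KK, ← cc, mu0]; field_simp [cc_ne]; ring
theorem ccM0 : cc * M0 = (cc + 9) / 9 := by rw [M0]; field_simp [cc_ne]
theorem M0_pos : 0.34 < M0 := by
  rw [M0, lt_div_iff₀ (by linarith [cc_gt])]; linarith [cc_lt]
theorem M0_lt : M0 < 0.36 := by
  rw [M0, div_lt_iff₀ (by linarith [cc_gt])]; linarith [cc_gt]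

noncomputable def a0 : A := sg 1 1 + sg (-1) ((-3 * M0 : ℝ) : ℂ)
noncomputable def b0 : A := sg 1 1 + sg (-1) 1
noncomputable def x0 : X := (a0, b0, sig (Q a0), eta (Q a0), 1, mu0, 0)

theorem Phi_base (ν μ : ℝ) : Phi (a0, b0, sig (Q a0), eta (Q a0), ν, μ, 0) =
    ((((ν + 1) ^ 2 + KK μ / 2 - 9 / 2 * KK μ * M0) / 2) • sg 1 1 +
      ((-3 * M0 * ((1 - ν) ^ 2 + 1 / 2) + 3 / 2 * (1 - μ)) / 2) • sg (-1) 1,
      ((ν ^ 2 - 1) / 2) • b0, 0, 0, 0) := by
  simp only [Phi, eq23_sig, eq23_eta, Prod.mk.injEq, and_true]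
  constructor
  · refine ext' fun n => ?_
    rw [FW_ap]
    by_cases h1 : n = 1
    · subst h1; simp [a0, al, be, kk, ll]; ring
    by_cases h2 : n = -1
    · subst h2; simp [a0, al, be, kk, ll]; ring
    have h3 : -n ≠ 1 := by omega
    have h4 : -n ≠ -1 := by omega
    simp [a0, h1, h2, h3]
  · refine ext' fun n => ?_
    rw [FZ_ap]
    by_cases h1 : n = 1
    · subst h1; simp [b0, ga]; ring
    by_cases h2 : n = -1
    · subst h2; simp [b0, ga]; ring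
    have h3 : -n ≠ 1 := by omega
    have h4 : -n ≠ -1 := by omega
    simp [b0, h1, h2, h3]

theorem Phi_x0 : Phi x0 = 0 := by
  rw [x0, Phi_base, K0_eq, M0_eq]
  have h1 : ((1 + 1 : ℝ) ^ 2 + 8 * cc / 9 / 2 - 9 / 2 * (8 * cc / 9) * M0) / 2 = 0 := by
    linear_combination (-2) * ccM0
  have h2 : (-3 * M0 * ((1 - 1) ^ 2 + 1 / 2) + 3 / 2 * M0) / 2 = 0 := by ring
  rw [h1, h2]; simp

noncomputable def D : X →L[ℝ] Y := fderiv ℝ Phi x0

theorem strict : HasStrictFDerivAt Phi D x0 := contDiff_Phi.contDiffAt.hasStrictFDerivAt one_ne_zero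

theorem D_of (v : X) (w : Y) (h : HasDerivAt (fun t : ℝ => Phi (x0 + t • v)) w 0) : D v = w := by
  have h1 : HasDerivAt (fun t : ℝ => x0 + t • v) v 0 := by
    simpa using ((hasDerivAt_id (0 : ℝ)).smul_const v).const_add x0
  have h2 : HasFDerivAt Phi D (x0 + (0 : ℝ) • v) := by simpa using strict.hasFDerivAt
  have h3 : HasDerivAt (fun t : ℝ => Phi (x0 + t • v)) (D v) 0 :=
    HasFDerivAt.comp_hasDerivAt (f := fun t : ℝ => x0 + t • v) (0 : ℝ) h2 h1
  exact h3.unique h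

theorem D_poly (v : X) (w w' : Y) (h : ∀ t : ℝ, Phi (x0 + t • v) = t • w + t ^ 2 • w') :
    D v = w := by
  refine D_of v w ?_
  rw [show (fun t : ℝ => Phi (x0 + t • v)) = fun t : ℝ => t • w + t ^ 2 • w' from funext h]
  exact (((hasDerivAt_id (0 : ℝ)).smul_const w).add
    ((hasDerivAt_pow 2 (0 : ℝ)).smul_const w')).congr_deriv (by simp)

theorem Phi_lin (a b σ η a' b' σ' η' : A) (ν μ t : ℝ) :
    Phi (a + t • a', b + t • b', σ + t • σ', η + t • η', ν, μ, 0) =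
      Phi (a, b, σ, η, ν, μ, 0) + t • Phi (a', b', σ', η', ν, μ, 0) := by
  simp only [Phi, FW, FZ, fW, fZ, vW, yZ, eq23, s1, s2, od, zero_smul, add_zero, map_add, map_smul,
    map_sub, Prod.mk_add_mk, Prod.smul_mk, Prod.mk.injEq, smul_zero, and_true]
  refine ⟨?_, ?_, ?_, ?_⟩ <;> module

theorem D_lin (a b σ η : A) : D (a, b, σ, η, 0, 0, 0) = Phi (a, b, σ, η, 1, mu0, 0) := by
  refine D_poly _ _ 0 fun t => ?_
  have := Phi_lin a0 b0 (sig (Q a0)) (eta (Q a0)) a b σ η 1 mu0 t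
  rw [← x0, Phi_x0] at this
  simpa [x0] using this

theorem D_nu : D (0, 0, 0, 0, 1, 0, 0) = ((2 : ℝ) • sg 1 1, b0, 0, 0, 0) := by
  refine D_poly _ _ ((1 / 2 : ℝ) • sg 1 1 + (-3 / 2 * M0) • sg (-1) 1, (1 / 2 : ℝ) • b0, 0, 0, 0)
    fun t => ?_
  have := Phi_base (1 + t) mu0
  rw [K0_eq, M0_eq] at this
  have h1 : ((1 + t + 1) ^ 2 + 8 * cc / 9 / 2 - 9 / 2 * (8 * cc / 9) * M0) / 2 =
    2 * t + t ^ 2 / 2 := by linear_combination (-2) * ccM0
  rw [h1] at this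
  simp only [x0, Prod.smul_mk, Prod.mk_add_mk, smul_zero, add_zero, smul_eq_mul, mul_one, mul_zero,
    this, Prod.mk.injEq, and_true]
  constructor <;> module

theorem D_mu : D (0, 0, 0, 0, 0, 1, 0) =
    ((-9 / 4 : ℝ) • sg 1 1 + (-3 / 4 : ℝ) • sg (-1) 1, 0, 0, 0, 0) := by
  refine D_poly _ _ 0 fun t => ?_
  have := Phi_base 1 (mu0 + t)
  have hK : KK (mu0 + t) = 8 * cc / 9 + cc * t := by rw [← K0_eq, KK, KK, cc]; ring
  have h1 : ((1 + 1 : ℝ) ^ 2 + KK (mu0 + t) / 2 - 9 / 2 * KK (mu0 + t) * M0) / 2 = -9 / 4 * t := by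
    rw [hK]; linear_combination (-2 - 9 / 4 * t) * ccM0
  have h2 : (-3 * M0 * ((1 - 1) ^ 2 + 1 / 2) + 3 / 2 * (1 - (mu0 + t))) / 2 = -3 / 4 * t := by
    rw [← M0_eq]; ring
  rw [h1, h2] at this
  simp only [x0, Prod.smul_mk, Prod.mk_add_mk, smul_zero, add_zero, smul_eq_mul, mul_one, mul_zero,
    this, Prod.mk.injEq, and_true]
  constructor <;> module

theorem D_eps (v : X) : (D v).2.2.2.2 = v.2.2.2.2.2.2 := by
  have h1 := strict.hasFDerivAt.snd.snd.snd.snd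
  have h2 := (hasFDerivAt_id (𝕜 := ℝ) x0).snd.snd.snd.snd.snd.snd
  have := congrArg (fun L : X →L[ℝ] ℝ => L v) (h1.unique h2)
  simpa using this

theorem sq_ge {n : ℤ} (h0 : n ≠ 0) (h1 : n ≠ 1) (h2 : n ≠ -1) : (4 : ℝ) ≤ (n : ℝ) ^ 2 := by
  have : (4 : ℤ) ≤ n ^ 2 := by
    rcases (by omega : 2 ≤ n ∨ n ≤ -2) with h | h <;> nlinarith
  exact_mod_cast this

theorem solveZ (y : A) (hy : (y 1).re + (y (-1)).re = 0) (σ η : A) :
    ∃ b, FZ b σ η 1 mu0 0 = y := by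
  let φ : ℤ → ℝ := fun n => (1 + n ^ 2) / ga 1 mu0 n
  have hK := K0_eq
  have hga : ∀ n : ℤ, n ≠ 1 → n ≠ -1 → (1 + (n : ℝ) ^ 2) ≤ 2 * |ga 1 mu0 n| := by
    intro n h1 h2
    by_cases h0 : n = 0
    · subst h0; simp only [ga, hK]; rw [abs_of_neg] <;> simp <;> linarith [cc_gt]
    have h4 := sq_ge h0 h1 h2
    by_cases h3 : n % 3 = 0
    · have : (9 : ℤ) ≤ n ^ 2 := by
        rcases (by omega : 3 ≤ n ∨ n ≤ -3) with h | h <;> nlinarith
      have h9 : (9 : ℝ) ≤ (n : ℝ) ^ 2 := by exact_mod_cast this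
      simp only [ga, hK, h3, if_true, mul_one]
      rw [abs_of_pos] <;> linarith [cc_lt]
    · simp only [ga, h3, if_false, mul_one]
      rw [abs_of_pos] <;> linarith
  have hne : ∀ n : ℤ, n ≠ 1 → n ≠ -1 → ga 1 mu0 n ≠ 0 := fun n h1 h2 h => by
    have := hga n h1 h2
    rw [h, abs_zero] at this; nlinarith [sq_nonneg (n : ℝ)]
  have hg1 : ga 1 mu0 1 = 0 := by simp [ga]
  have hg2 : ga 1 mu0 (-1) = 0 := by simp [ga]
  have hφ : Bdd fun n => (φ n : ℂ) := bdd_real 2 fun n => by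
    by_cases h1 : n = 1
    · simp [φ, h1, hg1]
    by_cases h2 : n = -1
    · simp only [φ, h2, hg2]; simp
    simp only [φ]
    rw [abs_div, abs_of_nonneg (by positivity), div_le_iff₀ (abs_pos.2 (hne n h1 h2))]
    exact hga n h1 h2
  have hsym : ∀ n, ga 1 mu0 (-n) = ga 1 mu0 n := fun n => by
    have : (-n) % 3 = 0 ↔ n % 3 = 0 := by omega
    simp [ga, this]
  refine ⟨mul (fun n => (φ n : ℂ)) (P y) + (y - P y), ext' fun n => ?_⟩
  rw [FZ_ap]
  simp only [add_ap, sub_ap, mul_ap hφ, P_ap, neg_neg, add_re, sub_re, re_ofReal_mul, ofReal_re]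
  have key : ga 1 mu0 n * (φ n * (((y n).re + (y (-n)).re) / 2)) / (1 + n ^ 2) =
      ((y n).re + (y (-n)).re) / 2 := by
    by_cases h1 : n = 1
    · simp [h1, hy]
    by_cases h2 : n = -1
    · have : (y (-1)).re + (y 1).re = 0 := by linarith
      simp [h2, this]
    have := hne n h1 h2
    simp only [φ]; field_simp
  have hφs : φ (-n) = φ n := by simp [φ, hsym]
  have e : (φ n * (((y n).re + (y (-n)).re) / 2) + ((y n).re - ((y n).re + (y (-n)).re) / 2) +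
      (φ (-n) * (((y (-n)).re + (y n).re) / 2) + ((y (-n)).re - ((y (-n)).re + (y n).re) / 2))) / 2
      = φ n * (((y n).re + (y (-n)).re) / 2) := by rw [hφs]; ring
  rw [e, key]; push_cast; ring

theorem solveW (y : A) (hy : (y 1).re = 3 * KK mu0 * (y (-1)).re) :
    ∃ a, FW a (sig (Q a)) (eta (Q a)) 1 mu0 0 = y := by
  let De : ℤ → ℝ := fun n => al 1 mu0 n * al 1 mu0 (-n) - be mu0 n * be mu0 (-n)
  let φ : ℤ → ℝ := fun n => if n = 0 then 1 / 3 else if n = 1 then 0 else if n = -1 then 4 else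
    (1 + n ^ 2) * al 1 mu0 (-n) / De n
  let ψ : ℤ → ℝ := fun n => if n = 0 then 0 else if n = 1 then 0 else if n = -1 then 0 else
    -((1 + n ^ 2) * be mu0 n / De n)
  have hK := K0_eq
  have hk : ∀ n, 1 ≤ kk mu0 n ∧ kk mu0 n ≤ 4 := fun n => by
    unfold kk; split_ifs
    · rw [hK]; constructor <;> linarith [cc_gt, cc_lt]
    · norm_num
  have hl : ∀ n, 0 ≤ be mu0 n ∧ be mu0 n ≤ 6 := fun n => by
    unfold be ll; split_ifs
    · norm_num
    · rw [hK]; constructor <;> linarith [cc_gt, cc_lt]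
    · rw [M0_eq]; constructor <;> linarith [M0_pos, M0_lt]
  have hbb : ∀ n, be mu0 n * be mu0 (-n) ≤ 3 := fun n => by
    have h : n % 3 = 0 ∨ n % 3 = 1 ∨ n % 3 = 2 := by omega
    rcases h with h | h | h
    · have h' : (-n) % 3 = 0 := by omega
      simp only [be, ll, h, h', if_true]; norm_num
    · have h' : (-n) % 3 = 2 := by omega
      simp only [be, ll, h, h', hK, M0_eq]; norm_num; nlinarith [ccM0, cc_lt]
    · have h' : (-n) % 3 = 1 := by omega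
      simp only [be, ll, h, h', hK, M0_eq]; norm_num; nlinarith [ccM0, cc_lt]
  have hDe : ∀ n : ℤ, n ≠ 0 → n ≠ 1 → n ≠ -1 → ((n : ℝ) ^ 2) ^ 2 / 2 ≤ De n := by
    intro n h0 h1 h2
    have h4 := sq_ge h0 h1 h2
    have e1 : ((n : ℝ) + 1) ^ 2 + 1 / 2 ≤ al 1 mu0 n := by
      simp only [al, mul_one]; linarith [(hk n).1]
    have e2 : ((n : ℝ) - 1) ^ 2 + 1 / 2 ≤ al 1 mu0 (-n) := by
      simp only [al, mul_one]; push_cast; nlinarith [(hk (-n)).1]
    have e3 := mul_le_mul e1 e2 (by positivity) (le_trans (by positivity) e1)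
    simp only [De]; nlinarith [hbb n]
  have hφ : Bdd fun n => (φ n : ℂ) := bdd_real 24 fun n => by
    simp only [φ]; split_ifs with h0 h1 h2
    · norm_num [abs_le]
    · norm_num
    · norm_num
    have h4 := sq_ge h0 h1 h2
    have h5 := hDe n h0 h1 h2
    have h6 : 0 < De n := lt_of_lt_of_le (by positivity) h5
    have e1 : 0 ≤ al 1 mu0 (-n) := by simp only [al]; nlinarith [(hk (-n)).1, sq_nonneg (((-n : ℤ) : ℝ) * 1 + 1)]
    have e2 : al 1 mu0 (-n) ≤ 4 * (n : ℝ) ^ 2 := by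
      simp only [al, mul_one]; push_cast; nlinarith [(hk (-n)).2, sq_nonneg ((n : ℝ) + 1)]
    rw [abs_of_nonneg (by positivity), div_le_iff₀ h6]
    nlinarith
  have hψ : Bdd fun n => (ψ n : ℂ) := bdd_real 24 fun n => by
    simp only [ψ]; split_ifs with h0 h1 h2
    · norm_num
    · norm_num
    · norm_num
    have h4 := sq_ge h0 h1 h2
    have h5 := hDe n h0 h1 h2
    have h6 : 0 < De n := lt_of_lt_of_le (by positivity) h5
    have := (hl n).1
    rw [abs_neg, abs_of_nonneg (by positivity), div_le_iff₀ h6]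
    nlinarith [(hl n).2]
  refine ⟨mul (fun n => (φ n : ℂ)) (Q y) + mul (fun n => (ψ n : ℂ)) (flip (Q y)) + (y - Q y),
    ext' fun n => ?_⟩
  rw [FW_ap]
  simp only [add_ap, sub_ap, mul_ap hφ, mul_ap hψ, flip_ap, Q_ap, neg_neg, add_re, sub_re,
    re_ofReal_mul, ofReal_re, sub_self, add_zero]
  have key : (al 1 mu0 n * (φ n * (y n).re + ψ n * (y (-n)).re) +
      be mu0 n * (φ (-n) * (y (-n)).re + ψ (-n) * (y n).re)) / (1 + n ^ 2) = (y n).re := by
    by_cases h0 : n = 0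
    · subst h0; simp [φ, ψ, al, be, kk, ll]; ring
    by_cases h1 : n = 1
    · subst h1; simp [φ, ψ, be, ll, hy]; ring
    by_cases h2 : n = -1
    · subst h2; simp [φ, ψ, al, kk]; ring
    have h0' : -n ≠ 0 := by omega
    have h1' : -n ≠ 1 := by omega
    have h2' : -n ≠ -1 := by omega
    have h6 : 0 < De n := lt_of_lt_of_le (by have := sq_ge h0 h1 h2; positivity) (hDe n h0 h1 h2)
    have h7 : De (-n) = De n := by simp only [De, neg_neg]; ring
    simp only [φ, ψ, h0, h1, h2, h0', h1', h2', if_false, neg_neg, h7]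
    push_cast
    field_simp
    simp only [De]; ring
  rw [key]; push_cast; ring

theorem D_surj : (D : X →ₗ[ℝ] Y).range = ⊤ := by
  set R := (D : X →ₗ[ℝ] Y).range
  have mem : ∀ v, D v ∈ R := fun v => ⟨v, rfl⟩
  have hW : ∀ y : A, ((y, 0, 0, 0, 0) : Y) ∈ R := fun y => by
    have hK : KK mu0 - 1 ≠ 0 := by rw [K0_eq]; linarith [cc_gt]
    set r : ℝ := 4 / 9 * ((y 1).re - 3 * KK mu0 * (y (-1)).re) / (KK mu0 - 1) with hr
    obtain ⟨a, ha⟩ := solveW (y - r • ((-9 / 4 : ℝ) • sg 1 1 + (-3 / 4 : ℝ) • sg (-1) 1)) (by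
      have : r * (KK mu0 - 1) = 4 / 9 * ((y 1).re - 3 * KK mu0 * (y (-1)).re) := by
        rw [hr]; field_simp
      clear_value r
      simp; linear_combination (-9 / 4) * this)
    have h1 := R.add_mem (mem (a, 0, sig (Q a), eta (Q a), 0, 0, 0))
      (R.smul_mem r (mem (0, 0, 0, 0, 0, 1, 0)))
    have h2 : FZ 0 (sig (Q a)) (eta (Q a)) 1 mu0 0 = 0 := ext' fun n => by simp [FZ_ap]
    simpa [D_lin, D_mu, Phi, ha, h2, eq23_sig, eq23_eta] using h1
  have hZ : ∀ y : A, ((0, y, 0, 0, 0) : Y) ∈ R := fun y => by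
    set r : ℝ := ((y 1).re + (y (-1)).re) / 2 with hr
    obtain ⟨b, hb⟩ := solveZ (y - r • b0) (by simp [hr, b0]; ring) (sig (Q 0)) (eta (Q 0))
    have h1 := R.sub_mem (R.add_mem (mem (0, b, sig (Q 0), eta (Q 0), 0, 0, 0))
      (R.smul_mem r (mem (0, 0, 0, 0, 1, 0, 0)))) (hW (r • (2 : ℝ) • sg 1 1))
    have h2 : FW 0 (sig (Q 0)) (eta (Q 0)) 1 mu0 0 = 0 := ext' fun n => by rw [FW_ap]; simp
    simp only [D_lin, D_nu, Phi, hb, h2, eq23_sig, eq23_eta] at h1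
    convert h1 using 1
    simp
  have h4 : ∀ y : Y, y.2.2.2.2 = 0 → y ∈ R := by
    rintro ⟨y1, y2, y3, y4, y5⟩ h
    simp only at h; subst h
    have h1 := mem (0, 0, (1 / 2 : ℝ) • y3, (1 / 2 : ℝ) • y4, 0, 0, 0)
    have e3 : ∀ y : A, eq23 0 ((1 / 2 : ℝ) • y) 0 = y := fun y => by
      simp only [eq23, od, zero_smul, add_zero]; module
    have e1 : s1 (Q 0) (P 0) 0 = 0 := by simp [s1]
    have e2 : s2 (Q 0) (P 0) 0 = 0 := by simp [s2]
    simp only [D_lin, Phi, e1, e2, e3] at h1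
    have h2 := R.add_mem (R.add_mem h1 (hW (y1 - FW 0 ((1 / 2 : ℝ) • y3) ((1 / 2 : ℝ) • y4) 1 mu0 0)))
      (hZ (y2 - FZ 0 ((1 / 2 : ℝ) • y3) ((1 / 2 : ℝ) • y4) 1 mu0 0))
    simpa using h2
  refine eq_top_iff.2 fun y _ => ?_
  have h1 := R.add_mem (h4 (y - y.2.2.2.2 • D (0, 0, 0, 0, 0, 0, 1)) (by simp [D_eps]))
    (R.smul_mem y.2.2.2.2 (mem (0, 0, 0, 0, 0, 0, 1)))
  simpa using h1

theorem exists_sol {U : Set X} (hU : U ∈ 𝓝 x0) :
    ∃ x ∈ U, ∃ ε : ℝ, 0 < ε ∧ Phi x = (0, 0, 0, 0, ε) := by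
  have h1 : Phi '' U ∈ 𝓝 (0 : Y) := by
    rw [← Phi_x0, ← strict.map_nhds_eq_of_surj D_surj]; exact image_mem_map hU
  have h2 : Tendsto (fun ε : ℝ => ((0, 0, 0, 0, ε) : Y)) (𝓝[>] 0) (𝓝 0) :=
    (Continuous.tendsto' (f := fun ε : ℝ => ((0, 0, 0, 0, ε) : Y)) (by fun_prop) 0 0 rfl).mono_left
      nhdsWithin_le_nhds
  obtain ⟨ε, ⟨x, hx, hx'⟩, hε⟩ := ((h2.eventually h1).and self_mem_nhdsWithin).exists
  exact ⟨x, hx, ε, hε, hx'⟩

end Pool.Agent.Lib.MP_32f877_an.Bd
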