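import Pool.Agent.Lib.MP_32f877_an.Wiener

/-! The rescaled system for a relative periodic orbit near the centred equilateral triangle. -/

open Complex ComplexConjugate

namespace Pool.Agent.Lib.MP_32f877_an.Bd

noncomputable def r3 : ℝ := √3
theorem r3_sq : r3 ^ 2 = 3 := Real.sq_sqrt (by norm_num)
theorem r3_pos : 0 < r3 := Real.sqrt_pos.2 (by norm_num)
theorem r3_3 : r3 ^ 3 = 3 * r3 := by rw [pow_succ, r3_sq]
theorem r3_4 : r3 ^ 4 = 9 := by rw [show 4 = 2 * 2 from rfl, pow_mul, r3_sq]; norm_num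
theorem r3_gt : 1.732 < r3 := by nlinarith [r3_sq, r3_pos]
theorem r3_lt : r3 < 1.733 := by nlinarith [r3_sq, r3_pos]

noncomputable def ze : ℂ := ⟨-1 / 2, r3 / 2⟩
noncomputable def dl : ℝ := -(2 * Real.pi / 3)

@[simp] theorem ze_re : ze.re = -1 / 2 := rfl
@[simp] theorem ze_im : ze.im = r3 / 2 := rfl

theorem ze_sq : ze * ze = conj ze := by
  apply Complex.ext <;> simp <;> nlinarith [r3_sq]

theorem ze_mul_conj : ze * conj ze = 1 := by
  apply Complex.ext <;> simp <;> nlinarith [r3_sq]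

theorem ex_one_dl : ex 1 dl = conj ze := by
  have h : ((((1 : ℤ) : ℝ) * dl : ℝ)) = -(Real.pi - Real.pi / 3) := by rw [dl]; push_cast; ring
  apply Complex.ext
  · rw [ex, exp_ofReal_mul_I_re, h, Real.cos_neg, Real.cos_pi_sub, Real.cos_pi_div_three]
    simp; norm_num
  · rw [ex, exp_ofReal_mul_I_im, h, Real.sin_neg, Real.sin_pi_sub, Real.sin_pi_div_three]
    simp [r3]

theorem ex_three_dl (k : ℤ) : ex (3 * k) dl = 1 := by
  rw [ex, ← exp_int_mul_two_pi_mul_I (-k)]; congr 1; rw [dl]; push_cast; ring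

theorem ex_dl0 {n : ℤ} (h : n % 3 = 0) : ex n dl = 1 := by
  rw [show n = 3 * (n / 3) by omega, ex_three_dl]

theorem ex_dl1 {n : ℤ} (h : n % 3 = 1) : ex n dl = conj ze := by
  rw [show n = 3 * (n / 3) + 1 by omega, ex_add, ex_three_dl, ex_one_dl, one_mul]

theorem ex_dl2 {n : ℤ} (h : n % 3 = 2) : ex n dl = ze := by
  rw [show n = 3 * (n / 3) + 1 + 1 by omega, ex_add, ex_add, ex_three_dl, ex_one_dl, one_mul,
    ← map_mul, ze_sq, conj_conj]

noncomputable def Q : A →L[ℝ] A := (1 / 2 : ℝ) • (ContinuousLinearMap.id ℝ A + cj)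
noncomputable def P : A →L[ℝ] A := (1 / 2 : ℝ) • (Q + Q ∘L flip)
noncomputable def bar : A →L[ℝ] A := cj ∘L flip
noncomputable def S : A →L[ℝ] A := shift dl
noncomputable def T : A →L[ℝ] A := cm ze ∘L S
noncomputable def P0 : A →L[ℝ] A := (1 / 3 : ℝ) • (ContinuousLinearMap.id ℝ A + S + S ∘L S)
noncomputable def P1 : A →L[ℝ] A := (1 / 3 : ℝ) • (ContinuousLinearMap.id ℝ A + T + T ∘L T)
noncomputable def J0 : A →L[ℝ] A := mul fun n => ((1 / (1 + n ^ 2) : ℝ) : ℂ)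
noncomputable def J1 : A →L[ℝ] A := mul fun n => ((n / (1 + n ^ 2) : ℝ) : ℂ)
noncomputable def J2 : A →L[ℝ] A := mul fun n => ((n ^ 2 / (1 + n ^ 2) : ℝ) : ℂ)

theorem bdd_real {φ : ℤ → ℝ} (B : ℝ) (h : ∀ n, |φ n| ≤ B) : Bdd fun n => (φ n : ℂ) :=
  ⟨B, fun n => by simpa using h n⟩

theorem Q_ap (a : A) (n : ℤ) : Q a n = ((a n).re : ℂ) := by
  simp [Q, Complex.re_eq_add_conj]; ring
theorem P_ap (a : A) (n : ℤ) : P a n = ((((a n).re + (a (-n)).re) / 2 : ℝ) : ℂ) := by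
  simp [P, Q_ap]; ring
theorem bar_ap (a : A) (n : ℤ) : bar a n = conj (a (-n)) := by simp [bar]
theorem S_ap (a : A) (n : ℤ) : S a n = ex n dl * a n := by simp [S]
theorem T_ap (a : A) (n : ℤ) : T a n = ze * (ex n dl * a n) := by simp [T, S_ap]
theorem J0_ap (a : A) (n : ℤ) : J0 a n = ((1 / (1 + n ^ 2) : ℝ) : ℂ) * a n :=
  mul_ap (bdd_real 1 fun n => by
    rw [abs_of_nonneg (by positivity), div_le_one (by positivity)]; nlinarith [sq_nonneg (n : ℝ)]) a n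
theorem J1_ap (a : A) (n : ℤ) : J1 a n = ((n / (1 + n ^ 2) : ℝ) : ℂ) * a n :=
  mul_ap (bdd_real 1 fun n => by
    rw [abs_div, abs_of_nonneg (a := 1 + (n : ℝ) ^ 2) (by positivity), div_le_one (by positivity),
      ← sq_abs]
    nlinarith [sq_nonneg (|(n : ℝ)| - 1)]) a n
theorem J2_ap (a : A) (n : ℤ) : J2 a n = ((n ^ 2 / (1 + n ^ 2) : ℝ) : ℂ) * a n :=
  mul_ap (bdd_real 1 fun n => by
    rw [abs_of_nonneg (by positivity), div_le_one (by positivity)]; linarith) a n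

theorem P0_ap (a : A) (n : ℤ) : P0 a n = if n % 3 = 0 then a n else 0 := by
  have h : n % 3 = 0 ∨ n % 3 = 1 ∨ n % 3 = 2 := by omega
  have h2 : conj ze * conj ze = ze := by rw [← map_mul, ze_sq, conj_conj]
  have h3 : 1 + ze + conj ze = 0 := by apply Complex.ext <;> simp; norm_num
  rcases h with h | h | h
  · simp [P0, S_ap, ex_dl0 h, h]; ring
  · simp [P0, S_ap, ex_dl1 h, h]; linear_combination a n / 3 * h2 + a n / 3 * h3
  · simp [P0, S_ap, ex_dl2 h, h]; linear_combination a n / 3 * ze_sq + a n / 3 * h3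

theorem P1_ap (a : A) (n : ℤ) : P1 a n = if n % 3 = 1 then a n else 0 := by
  have h : n % 3 = 0 ∨ n % 3 = 1 ∨ n % 3 = 2 := by omega
  have h3 : 1 + ze + conj ze = 0 := by apply Complex.ext <;> simp; norm_num
  rcases h with h | h | h
  · simp [P1, T_ap, ex_dl0 h, h]; linear_combination a n / 3 * ze_sq + a n / 3 * h3
  · simp [P1, T_ap, ex_dl1 h, h]
    linear_combination (a n / 3 * (2 + ze * conj ze)) * ze_mul_conj
  · simp [P1, T_ap, ex_dl2 h, h]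
    linear_combination a n / 3 * (1 + ze * ze) * ze_sq + a n / 3 * h3 + a n / 3 * ze * ze_mul_conj

/-- `(1 + ε x)(1 + ε y) = 1 + ε od ε x y` -/
noncomputable def od (ε : ℝ) (x y : A) : A := x + y + ε • conv x y

noncomputable def vW (p η : A) (ε : ℝ) : A := T p - p + cm (ze - 1) η + ε • conv η (T p - p)
noncomputable def fW (p σ η : A) (μ ε : ℝ) : A :=
  Q ((1 - μ) • od ε σ p + (3 * r3 * μ) • P1 (od ε σ p) - (2 * μ / 3) • vW p η ε)
noncomputable def yZ (h σ : A) (ε : ℝ) : A := h + ε • conv σ h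
noncomputable def fZ (h σ η : A) (μ ε : ℝ) : A :=
  P ((1 - μ) • yZ h σ ε + (3 * r3 * μ) • P0 (yZ h σ ε) -
    (2 * μ / 3) • (yZ (S h - h) η ε - P0 (yZ (S h - h) η ε)))
noncomputable def s1 (p h : A) (ε : ℝ) : A := p + bar p + ε • (conv p (bar p) + conv h h)
noncomputable def s2 (p h : A) (ε : ℝ) : A :=
  (1 / 3 : ℝ) • (cm (conj ze - 1) (T p - p) + cm (ze - 1) (bar (T p - p)) +
    ε • (conv (T p - p) (bar (T p - p)) + conv (S h - h) (S h - h)))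
noncomputable def eq23 (ε : ℝ) (σ s : A) : A := od ε (od ε σ σ) (od ε s (od ε s s))
noncomputable def FW (a σ η : A) (ν μ ε : ℝ) : A :=
  (ν ^ 2) • J2 (Q a) + (2 * ν) • J1 (Q a) + J0 (Q a) - J0 (fW (Q a) σ η μ ε) + (a - Q a)
noncomputable def FZ (b σ η : A) (ν μ ε : ℝ) : A :=
  (ν ^ 2) • J2 (P b) - J0 (fZ (P b) σ η μ ε) + (b - P b)

noncomputable abbrev X := A × A × A × A × ℝ × ℝ × ℝ
noncomputable abbrev Y := A × A × A × A × ℝ

noncomputable def Phi (x : X) : Y :=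
  (FW x.1 x.2.2.1 x.2.2.2.1 x.2.2.2.2.1 x.2.2.2.2.2.1 x.2.2.2.2.2.2,
   FZ x.2.1 x.2.2.1 x.2.2.2.1 x.2.2.2.2.1 x.2.2.2.2.2.1 x.2.2.2.2.2.2,
   eq23 x.2.2.2.2.2.2 x.2.2.1 (s1 (Q x.1) (P x.2.1) x.2.2.2.2.2.2),
   eq23 x.2.2.2.2.2.2 x.2.2.2.1 (s2 (Q x.1) (P x.2.1) x.2.2.2.2.2.2),
   x.2.2.2.2.2.2)

@[fun_prop] theorem contDiff_conv {f g : X → A} (hf : ContDiff ℝ 1 f) (hg : ContDiff ℝ 1 g) :
    ContDiff ℝ 1 fun x => conv (f x) (g x) :=
  (conv.contDiff.comp hf).clm_apply hg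

theorem contDiff_Phi : ContDiff ℝ 1 Phi := by
  unfold Phi FW FZ eq23 s1 s2 fW fZ yZ vW od
  fun_prop

noncomputable def sig (p : A) : A := (-3 / 2 : ℝ) • s1 p 0 0
noncomputable def eta (p : A) : A := (-3 / 2 : ℝ) • s2 p 0 0

noncomputable def KK (μ : ℝ) : ℝ := 1 + (3 * r3 - 1) * μ
noncomputable def kk (μ : ℝ) (n : ℤ) : ℝ := if n % 3 = 1 then KK μ else 1
noncomputable def ll (μ : ℝ) (n : ℤ) : ℝ :=
  if n % 3 = 0 then 1 else if n % 3 = 1 then KK μ else 1 - μ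

theorem fW_ap (a : A) (μ : ℝ) (n : ℤ) :
    fW (Q a) (sig (Q a)) (eta (Q a)) μ 0 n =
      ((-(kk μ n / 2 * (a n).re + 3 / 2 * ll μ n * (a (-n)).re) : ℝ) : ℂ) := by
  have h : n % 3 = 0 ∨ n % 3 = 1 ∨ n % 3 = 2 := by omega
  rw [fW, Q_ap]
  congr 1
  rcases h with h | h | h
  · have h' : (-n) % 3 = 0 := by omega
    simp [od, vW, sig, eta, s1, s2, P1_ap, T_ap, bar_ap, Q_ap, ex_dl0 h, ex_dl0 h', h, kk, ll]
    ring_nf; simp only [r3_sq, r3_4]; ring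
  · have h' : (-n) % 3 = 2 := by omega
    simp [od, vW, sig, eta, s1, s2, P1_ap, T_ap, bar_ap, Q_ap, ex_dl1 h, ex_dl2 h', h, kk, ll, KK]
    ring_nf; simp only [r3_sq, r3_4]; ring
  · have h' : (-n) % 3 = 1 := by omega
    simp [od, vW, sig, eta, s1, s2, P1_ap, T_ap, bar_ap, Q_ap, ex_dl2 h, ex_dl1 h', h, kk, ll]
    ring_nf; simp only [r3_sq, r3_4]; ring

theorem fZ_ap (b σ η : A) (μ : ℝ) (n : ℤ) :
    fZ (P b) σ η μ 0 n =
      (((if n % 3 = 0 then KK μ else 1) * (((b n).re + (b (-n)).re) / 2) : ℝ) : ℂ) := by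
  have h : n % 3 = 0 ∨ n % 3 = 1 ∨ n % 3 = 2 := by omega
  rw [fZ, P_ap]
  congr 1
  rcases h with h | h | h
  · have h' : (-n) % 3 = 0 := by omega
    simp [yZ, P0_ap, S_ap, P_ap, ex_dl0 h, ex_dl0 h', h, h', KK]
    ring
  · have h' : (-n) % 3 = 2 := by omega
    simp [yZ, P0_ap, S_ap, P_ap, ex_dl1 h, ex_dl2 h', h, h']
    ring
  · have h' : (-n) % 3 = 1 := by omega
    simp [yZ, P0_ap, S_ap, P_ap, ex_dl2 h, ex_dl1 h', h, h']
    ring

noncomputable def al (ν μ : ℝ) (n : ℤ) : ℝ := (n * ν + 1) ^ 2 + kk μ n / 2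
noncomputable def be (μ : ℝ) (n : ℤ) : ℝ := 3 / 2 * ll μ n
noncomputable def ga (ν μ : ℝ) (n : ℤ) : ℝ := (n * ν) ^ 2 - if n % 3 = 0 then KK μ else 1

theorem FW_ap (a : A) (ν μ : ℝ) (n : ℤ) :
    FW a (sig (Q a)) (eta (Q a)) ν μ 0 n =
      (((al ν μ n * (a n).re + be μ n * (a (-n)).re) / (1 + n ^ 2) : ℝ) : ℂ) +
        (a n - (a n).re) := by
  simp only [FW, add_ap, sub_ap, smul_ap, J0_ap, J1_ap, J2_ap, fW_ap, Q_ap, al, be]
  push_cast; ring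

theorem FZ_ap (b σ η : A) (ν μ : ℝ) (n : ℤ) :
    FZ b σ η ν μ 0 n =
      ((ga ν μ n * (((b n).re + (b (-n)).re) / 2) / (1 + n ^ 2) : ℝ) : ℂ) +
        (b n - ((((b n).re + (b (-n)).re) / 2 : ℝ) : ℂ)) := by
  simp only [FZ, add_ap, sub_ap, smul_ap, J0_ap, J2_ap, fZ_ap, P_ap, ga]
  push_cast; ring

theorem eq23_sig (p h : A) : eq23 0 (sig p) (s1 p h 0) = 0 := by
  simp only [eq23, od, sig, s1, zero_smul, add_zero]; module

theorem eq23_eta (p h : A) : eq23 0 (eta p) (s2 p h 0) = 0 := by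
  simp only [eq23, od, eta, s2, zero_smul, add_zero]; module

end Pool.Agent.Lib.MP_32f877_an.Bd
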