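import Mathlib

/-! Integration from infinity and a fixed point theorem for second order equations with
decaying right hand side. -/

open MeasureTheory Set

namespace Pool.Agent.Lib.MP_32f877_an

variable {X : Type*} [NormedAddCommGroup X] [NormedSpace ℝ X]

/-- The antiderivative of `f` that vanishes at infinity. -/
noncomputable def tail (f : ℝ → X) (s : ℝ) : X := -∫ τ in Ioi s, f τ

omit [NormedSpace ℝ X] in
theorem integrableOn_of_decay {f : ℝ → X} (hf : Continuous f) {A α : ℝ} (hα : 1 < α)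
    (hb : ∀ τ, 1 ≤ τ → ‖f τ‖ ≤ A * τ ^ (-α)) (s : ℝ) : IntegrableOn f (Ioi s) := by
  have h1 : IntegrableOn f (Ioi 1) := by
    have hg : IntegrableOn (fun τ : ℝ => A * τ ^ (-α)) (Ioi 1) :=
      (integrableOn_Ioi_rpow_of_lt (by linarith) one_pos).const_mul A
    refine Integrable.mono' hg hf.aestronglyMeasurable ?_
    refine (ae_restrict_iff' measurableSet_Ioi).2 (Filter.Eventually.of_forall ?_)
    intro τ hτ
    exact hb τ (le_of_lt hτ)
  rcases le_total 1 s with h | h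
  · exact h1.mono_set (Ioi_subset_Ioi h)
  · rw [← Ioc_union_Ioi_eq_Ioi h]
    exact (hf.continuousOn.integrableOn_Icc.mono_set Ioc_subset_Icc_self).union h1

theorem hasDerivAt_tail [CompleteSpace X] {f : ℝ → X} (hf : Continuous f)
    (hi : ∀ s, IntegrableOn f (Ioi s)) (s : ℝ) : HasDerivAt (tail f) (f s) s := by
  have h : tail f = fun x => (∫ τ in (1 : ℝ)..x, f τ) - ∫ τ in Ioi (1 : ℝ), f τ := by
    funext x
    rw [← intervalIntegral.integral_Ioi_sub_Ioi' (hi 1) (hi x), tail]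
    abel
  rw [h]
  exact (hf.integral_hasStrictDerivAt 1 s).hasDerivAt.sub_const _

theorem norm_tail_le {f : ℝ → X} {A α : ℝ} (hα : 1 < α)
    (hb : ∀ τ, 1 ≤ τ → ‖f τ‖ ≤ A * τ ^ (-α)) {s : ℝ} (hs : 1 ≤ s) :
    ‖tail f s‖ ≤ A / (α - 1) * s ^ (-(α - 1)) := by
  have hs0 : 0 < s := by linarith
  have hg : IntegrableOn (fun τ : ℝ => A * τ ^ (-α)) (Ioi s) :=
    (integrableOn_Ioi_rpow_of_lt (by linarith) hs0).const_mul A
  rw [tail, norm_neg]
  refine (norm_integral_le_of_norm_le hg ?_).trans (le_of_eq ?_)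
  · refine (ae_restrict_iff' measurableSet_Ioi).2 (Filter.Eventually.of_forall ?_)
    intro τ hτ
    exact hb τ (hs.trans (le_of_lt hτ))
  · rw [integral_const_mul, integral_Ioi_rpow_of_lt (by linarith) hs0]
    have h1 : -α + 1 = -(α - 1) := by ring
    have h2 : α - 1 ≠ 0 := by linarith
    rw [h1]
    field_simp

theorem tail_sub {f g : ℝ → X} {s : ℝ} (hf : IntegrableOn f (Ioi s))
    (hg : IntegrableOn g (Ioi s)) : tail f s - tail g s = tail (fun τ => f τ - g τ) s := by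
  simp only [tail]
  rw [integral_sub hf hg]
  abel

theorem map_tail [CompleteSpace X] (φ : X →L[ℝ] ℝ) {f : ℝ → X} {s : ℝ}
    (hf : IntegrableOn f (Ioi s)) : φ (tail f s) = tail (fun τ => φ (f τ)) s := by
  simp only [tail, map_neg]
  rw [φ.integral_comp_comm hf]

section Double

variable [CompleteSpace X] {f : ℝ → X} {A α : ℝ}

theorem continuous_tail (hf : Continuous f) (hα : 1 < α)
    (hb : ∀ τ, 1 ≤ τ → ‖f τ‖ ≤ A * τ ^ (-α)) : Continuous (tail f) :=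
  continuous_iff_continuousAt.2 fun s =>
    (hasDerivAt_tail hf (integrableOn_of_decay hf hα hb) s).continuousAt

theorem integrableOn_tail (hf : Continuous f) (hα : 2 < α)
    (hb : ∀ τ, 1 ≤ τ → ‖f τ‖ ≤ A * τ ^ (-α)) (s : ℝ) : IntegrableOn (tail f) (Ioi s) :=
  integrableOn_of_decay (continuous_tail hf (by linarith) hb) (α := α - 1) (by linarith)
    (fun _ hτ => norm_tail_le (by linarith) hb hτ) s

theorem continuous_tail_tail (hf : Continuous f) (hα : 2 < α)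
    (hb : ∀ τ, 1 ≤ τ → ‖f τ‖ ≤ A * τ ^ (-α)) : Continuous (tail (tail f)) :=
  continuous_tail (continuous_tail hf (by linarith) hb) (α := α - 1) (by linarith)
    (fun _ hτ => norm_tail_le (by linarith) hb hτ)

omit [CompleteSpace X] in
theorem norm_tail_tail_le (hα : 2 < α)
    (hb : ∀ τ, 1 ≤ τ → ‖f τ‖ ≤ A * τ ^ (-α)) {s : ℝ} (hs : 1 ≤ s) :
    ‖tail (tail f) s‖ ≤ A / (α - 1) / (α - 1 - 1) * s ^ (-(α - 1 - 1)) :=
  norm_tail_le (α := α - 1) (by linarith) (fun _ hτ => norm_tail_le (by linarith) hb hτ) hs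

end Double

/-- Solutions of `u'' = G s u` on `s > 1` that tend to zero at infinity. -/
theorem exists_decaying [CompleteSpace X] (G : ℝ → X → X) (A L : ℝ) (hA0 : 0 ≤ A) (hL0 : 0 ≤ L)
    (hA1 : 4 / 3 * A ≤ 1) (hL1 : L < 2)
    (hcont : ∀ u : ℝ → X, Continuous u → (∀ s, ‖u s‖ ≤ 1) →
      Continuous fun s => G (max s 1) (u s))
    (hA : ∀ s, 1 ≤ s → ∀ w, ‖w‖ ≤ 1 → ‖G s w‖ ≤ A * s ^ (-(5 / 2 : ℝ)))
    (hL : ∀ s, 1 ≤ s → ∀ w w', ‖w‖ ≤ 1 → ‖w'‖ ≤ 1 →
      ‖G s w - G s w'‖ ≤ L * ‖w - w'‖ * s ^ (-(3 : ℝ))) :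
    ∃ u p : ℝ → X, (∀ s, 1 < s → HasDerivAt u (p s) s ∧ HasDerivAt p (G s (u s)) s) ∧
      (∀ s, 1 ≤ s → ‖u s‖ ≤ 4 / 3 * A) ∧
      ∀ (φ : X →L[ℝ] ℝ) (B : ℝ), (∀ s, 1 ≤ s → ∀ w, ‖w‖ ≤ 1 → |φ (G s w)| ≤ B * s ^ (-(3 : ℝ))) →
        ∀ s, 1 ≤ s → |φ (u s)| ≤ B / 2 / s := by
  let S : Set (BoundedContinuousFunction ℝ X) := Metric.closedBall 0 1
  have hS : ∀ u : S, ∀ s, ‖u.1 s‖ ≤ 1 := fun u s =>
    (u.1.norm_coe_le_norm s).trans (mem_closedBall_zero_iff.1 u.2)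
  let F : S → ℝ → X := fun u s => G (max s 1) (u.1 s)
  have hFc : ∀ u, Continuous (F u) := fun u => hcont u.1 u.1.continuous (hS u)
  have hFb : ∀ u τ, 1 ≤ τ → ‖F u τ‖ ≤ A * τ ^ (-(5 / 2 : ℝ)) := fun u τ hτ => by
    simp only [F, max_eq_left hτ]
    exact hA τ hτ _ (hS u τ)
  have hFi : ∀ u s, IntegrableOn (F u) (Ioi s) := fun u =>
    integrableOn_of_decay (hFc u) (by norm_num) (hFb u)
  have hFi2 : ∀ u s, IntegrableOn (tail (F u)) (Ioi s) := fun u =>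
    integrableOn_tail (hFc u) (by norm_num) (hFb u)
  have hbd : ∀ u s, 1 ≤ s → ‖tail (tail (F u)) s‖ ≤ 4 / 3 * A := fun u s hs => by
    refine (norm_tail_tail_le (by norm_num) (hFb u) hs).trans ?_
    have h1 : s ^ (-(5 / 2 - 1 - 1 : ℝ)) ≤ 1 :=
      Real.rpow_le_one_of_one_le_of_nonpos hs (by norm_num)
    calc A / (5 / 2 - 1) / (5 / 2 - 1 - 1) * s ^ (-(5 / 2 - 1 - 1 : ℝ))
        = 4 / 3 * A * s ^ (-(5 / 2 - 1 - 1 : ℝ)) := by ring
      _ ≤ 4 / 3 * A * 1 := by gcongr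
      _ = 4 / 3 * A := by ring
  let Φ : S → S := fun u =>
    ⟨BoundedContinuousFunction.ofNormedAddCommGroup (fun s => tail (tail (F u)) (max s 1))
      ((continuous_tail_tail (hFc u) (by norm_num) (hFb u)).comp (by fun_prop)) (4 / 3 * A)
      (fun s => hbd u _ (le_max_right _ _)), by
        rw [mem_closedBall_zero_iff]
        exact (BoundedContinuousFunction.norm_ofNormedAddCommGroup_le _ (by positivity) _).trans
          hA1⟩
  have hΦ : ∀ u s, (Φ u).1 s = tail (tail (F u)) (max s 1) := fun u s => rfl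
  obtain ⟨K, hK⟩ : ∃ K : NNReal, (K : ℝ) = L / 2 := ⟨⟨L / 2, by positivity⟩, rfl⟩
  have hcontr : ContractingWith K Φ := by
    refine ⟨by rw [← NNReal.coe_lt_coe, hK, NNReal.coe_one]; linarith,
      LipschitzWith.of_dist_le_mul ?_⟩
    intro u w
    rw [Subtype.dist_eq, Subtype.dist_eq, dist_eq_norm, dist_eq_norm]
    refine (BoundedContinuousFunction.norm_le (by positivity)).2 fun s => ?_
    have hs : (1 : ℝ) ≤ max s 1 := le_max_right _ _
    rw [BoundedContinuousFunction.sub_apply, hΦ, hΦ, tail_sub (hFi2 u _) (hFi2 w _)]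
    have h1 : (fun τ => tail (F u) τ - tail (F w) τ) = tail fun τ => F u τ - F w τ := by
      funext τ
      exact tail_sub (hFi u τ) (hFi w τ)
    rw [h1]
    have h2 : ∀ τ, 1 ≤ τ → ‖F u τ - F w τ‖ ≤ (L * ‖u.1 - w.1‖) * τ ^ (-(3 : ℝ)) := by
      intro τ hτ
      simp only [F, max_eq_left hτ]
      refine (hL τ hτ _ _ (hS u τ) (hS w τ)).trans ?_
      have h3 : ‖u.1 τ - w.1 τ‖ ≤ ‖u.1 - w.1‖ := (u.1 - w.1).norm_coe_le_norm τ
      have h4 : 0 ≤ τ ^ (-(3 : ℝ)) := Real.rpow_nonneg (by linarith) _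
      gcongr
    refine (norm_tail_tail_le (by norm_num) h2 hs).trans ?_
    have h5 : (max s 1) ^ (-(3 - 1 - 1 : ℝ)) ≤ 1 :=
      Real.rpow_le_one_of_one_le_of_nonpos hs (by norm_num)
    calc L * ‖u.1 - w.1‖ / (3 - 1) / (3 - 1 - 1) * (max s 1) ^ (-(3 - 1 - 1 : ℝ))
        = L / 2 * ‖u.1 - w.1‖ * (max s 1) ^ (-(3 - 1 - 1 : ℝ)) := by ring
      _ ≤ L / 2 * ‖u.1 - w.1‖ * 1 := by gcongr
      _ = _ := by rw [hK, mul_one]
  have : Nonempty S := ⟨⟨0, Metric.mem_closedBall_self zero_le_one⟩⟩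
  have : CompleteSpace S := Metric.isClosed_closedBall.completeSpace_coe
  let u0 : S := ContractingWith.fixedPoint Φ hcontr
  have hfix : Φ u0 = u0 := hcontr.fixedPoint_isFixedPt
  have hu0 : ∀ s, 1 ≤ s → u0.1 s = tail (tail (F u0)) s := fun s hs => by
    conv_lhs => rw [← hfix]
    rw [hΦ, max_eq_left hs]
  refine ⟨tail (tail (F u0)), tail (F u0), fun s hs => ⟨?_, ?_⟩, hbd u0, ?_⟩
  · exact hasDerivAt_tail (continuous_tail (hFc u0) (by norm_num) (hFb u0)) (hFi2 u0) s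
  · have h := hasDerivAt_tail (hFc u0) (hFi u0) s
    simp only [F, max_eq_left hs.le] at h
    rw [hu0 s hs.le] at h
    exact h
  · intro φ B hB s hs
    have h1 : (fun τ => φ (tail (F u0) τ)) = tail fun τ => φ (F u0 τ) := by
      funext τ
      exact map_tail φ (hFi u0 τ)
    rw [map_tail φ (hFi2 u0 s), h1]
    have h2 : ∀ τ, 1 ≤ τ → ‖φ (F u0 τ)‖ ≤ B * τ ^ (-(3 : ℝ)) := by
      intro τ hτ
      simp only [F, max_eq_left hτ]
      exact hB τ hτ _ (hS u0 τ)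
    refine (norm_tail_tail_le (by norm_num) h2 hs).trans (le_of_eq ?_)
    have h3 : (-(3 - 1 - 1 : ℝ)) = -1 := by norm_num
    rw [h3, Real.rpow_neg_one]
    ring

end Pool.Agent.Lib.MP_32f877_an
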