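import Pool.Agent.Lib.MP_32f877_an.Orbit

/-! The volume along the small amplitude solutions, and the equations of motion. -/

open Complex ComplexConjugate Filter Topology

namespace Pool.Agent.Lib.MP_32f877_an.Bd

theorem coefW {a σ η : A} {ν μ ε : ℝ} (h : FW a σ η ν μ ε = 0) (n : ℤ) :
    (((n * ν + 1) ^ 2 : ℝ) : ℂ) * Q a n = fW (Q a) σ η μ ε n := by
  have h1 := congrArg (fun x : A => (x n).re) h
  obtain ⟨r, hr⟩ : ∃ r : ℝ, fW (Q a) σ η μ ε n = r := ⟨_, by rw [fW, Q_ap]⟩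
  simp only [FW, add_ap, sub_ap, smul_ap, J0_ap, J1_ap, J2_ap, Q_ap, hr, add_re, sub_re,
    re_ofReal_mul, ofReal_re, zero_ap, zero_re] at h1
  rw [hr, Q_ap, ← ofReal_mul]
  congr 1
  have : (0 : ℝ) < 1 + (n : ℝ) ^ 2 := by positivity
  field_simp at h1
  linarith

theorem coefZ {b σ η : A} {ν μ ε : ℝ} (h : FZ b σ η ν μ ε = 0) (n : ℤ) :
    (((n * ν + 0) ^ 2 : ℝ) : ℂ) * P b n = fZ (P b) σ η μ ε n := by
  have h1 := congrArg (fun x : A => (x n).re) h
  have h2 := congrArg (fun x : A => (x (-n)).re) h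
  obtain ⟨r, hr, hr'⟩ : ∃ r : ℝ, fZ (P b) σ η μ ε n = r ∧ fZ (P b) σ η μ ε (-n) = r :=
    ⟨_, by rw [fZ, P_ap], by rw [fZ, P_ap, neg_neg, add_comm]⟩
  simp only [FZ, add_ap, sub_ap, smul_ap, J0_ap, J2_ap, P_ap, hr, hr', add_re, sub_re,
    re_ofReal_mul, ofReal_re, zero_ap, zero_re, neg_neg] at h1 h2
  rw [hr, P_ap, ← ofReal_mul]
  congr 1
  have : (0 : ℝ) < 1 + (n : ℝ) ^ 2 := by positivity
  push_cast at h2
  field_simp at h1 h2
  linarith

noncomputable def c0 : ℝ := -3 * (1 - 3 * M0)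
noncomputable def c1 : ℂ := 2 * (conj ze - 3 * M0)
noncomputable def BB (p : A) (ε : ℝ) : A :=
  cm (conj ze) (T (T p)) + cm (ze * ze) (bar (T p)) + ε • conv (bar (T p)) (T (T p))
noncomputable def G0 (b σ : A) : A := P0 (P (conv σ (P b))) - sg 0 c0
noncomputable def G1 (a b : A) (ε : ℝ) : A := P0 (conv (P b) (BB (Q a) ε)) - sg 0 c1

theorem conv_sg' (k : ℤ) (c : ℂ) (b : A) (n : ℤ) : conv b (sg k c) n = b (n - k) * c := by
  rw [conv_ap, tsum_eq_single (n - k) fun j hj => by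
    have : n - j ≠ k := by omega
    simp [this]]
  simp

theorem P_b0 : P b0 = b0 := ext' fun n => by
  rw [P_ap]
  by_cases h1 : n = 1
  · subst h1; simp [b0]
  by_cases h2 : n = -1
  · subst h2; simp [b0]
  have h3 : -n ≠ 1 := by omega
  simp [b0, h1, h2, h3]

theorem Q_a0 : Q a0 = a0 := ext' fun n => by
  rw [Q_ap]
  by_cases h1 : n = 1
  · subst h1; simp [a0]
  by_cases h2 : n = -1
  · subst h2; simp [a0]
  simp [a0, h1, h2]

theorem a0_zero {k : ℤ} (h1 : k ≠ 1) (h2 : k ≠ -1) : a0 k = 0 := by simp [a0, h1, h2]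

theorem G0_base : G0 b0 (sig (Q a0)) = 0 := ext' fun n => by
  rw [G0, P_b0, Q_a0, sub_ap, P0_ap, P_ap]
  simp only [b0, map_add, add_ap, conv_sg', sig, s1, zero_smul, add_zero, smul_ap, bar_ap, sg_ap]
  by_cases h0 : n = 0
  · subst h0; simp [c0, a0]; ring
  by_cases h3 : n % 3 = 0
  · simp (disch := omega) only [a0_zero]
    simp [h0]
  · simp [h0, h3]

theorem G1_base : G1 a0 b0 0 = 0 := ext' fun n => by
  rw [G1, P_b0, Q_a0, sub_ap, P0_ap]
  simp only [b0, map_add, add_apply, add_ap, conv_sg, BB, zero_smul, add_zero,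
    cm_ap, bar_ap, T_ap, sg_ap]
  by_cases h0 : n = 0
  · subst h0
    simp [c1, a0, ex_dl1 (n := 1) rfl, ex_dl2 (n := -1) rfl, ← ze_sq, map_ofNat]
    linear_combination (2 * ze ^ 2 - 6 * M0) * (ze ^ 3 + 1) * ze3
  by_cases h3 : n % 3 = 0
  · simp (disch := omega) only [a0_zero]
    simp [h0]
  · simp [h0, h3]

theorem H_bound {b σ η : A} {ν μ ε : ℝ} (h : FZ b σ η ν μ ε = 0) (hν : 0.9 < ν)
    (hμ : 0.64 < μ) (hμ' : μ < 0.66) (hε : 0 < ε) :
    ‖P0 (P b) + ε • sg 0 c0‖ ≤ 2 * ε * ‖G0 b σ‖ := by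
  refine norm_le_of fun n => ?_
  by_cases h3 : n % 3 = 0
  swap
  · have : n ≠ 0 := by omega
    simp [G0, P0_ap, h3, this]
  have h3' : (-n) % 3 = 0 := by omega
  have h1 := coefZ h n
  obtain ⟨r, hr, hr'⟩ : ∃ r : ℝ, P b n = r ∧ P b (-n) = r :=
    ⟨_, by rw [P_ap], by rw [P_ap, neg_neg, add_comm]⟩
  set g : ℝ := ((conv σ (P b) n).re + (conv σ (P b) (-n)).re) / 2 with hg
  have h2 : (n * ν) ^ 2 * r = KK μ * (r + ε * g) := by
    rw [hr, fZ, P_ap, ← ofReal_mul, ofReal_inj] at h1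
    simp only [add_ap, sub_ap, smul_ap, P0_ap, h3, h3', if_true, yZ, hr, hr', sub_self, add_re,
      sub_re, re_ofReal_mul, ofReal_re, mul_zero, zero_re] at h1
    rw [KK, hg]; linarith
  have hK1 : 3.6 < KK μ := by rw [KK, ← cc]; nlinarith [cc_gt]
  have hK2 : KK μ < 3.8 := by rw [KK, ← cc]; nlinarith [cc_lt]
  simp only [G0, add_ap, sub_ap, smul_ap, P0_ap, h3, if_true, hr, sg_ap]
  rw [P_ap, ← hg]
  by_cases h0 : n = 0
  · subst h0
    have : r = -(ε * g) := by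
      have : KK μ * (r + ε * g) = 0 := by rw [← h2]; simp
      have := (mul_eq_zero.1 this).resolve_left (by linarith)
      linarith
    simp only [if_true, ← ofReal_mul, ← ofReal_add, ← ofReal_sub, Complex.norm_real,
      Real.norm_eq_abs, this]
    rw [show -(ε * g) + ε * c0 = -(ε * (g - c0)) by ring, abs_neg, abs_mul, abs_of_pos hε]
    nlinarith [abs_nonneg (g - c0)]
  · have : (9 : ℤ) ≤ n ^ 2 := by
      rcases (by omega : 3 ≤ n ∨ n ≤ -3) with h | h <;> nlinarith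
    have h9 : (9 : ℝ) ≤ (n : ℝ) ^ 2 := by exact_mod_cast this
    have h7 : 7 ≤ (n * ν) ^ 2 := by rw [mul_pow]; nlinarith
    simp only [h0, if_false, mul_zero, add_zero, sub_zero, Complex.norm_real, Real.norm_eq_abs]
    have e : ((n * ν) ^ 2 - KK μ) * |r| = KK μ * (ε * |g|) := by
      rw [← abs_of_pos (a := (n * ν) ^ 2 - KK μ) (by linarith), ← abs_mul,
        show ((n * ν) ^ 2 - KK μ) * r = KK μ * (ε * g) by linarith, abs_mul, abs_mul,
        abs_of_pos hε, abs_of_pos (a := KK μ) (by linarith)]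
    nlinarith [abs_nonneg r, mul_nonneg hε.le (abs_nonneg g)]

theorem det_rho (a b : A) (ε : ℝ) {u : ℂ} (hu : normSq u = 1) (θ : ℝ) :
    Matrix.det (Matrix.of fun i k : Fin 3 => (![rho a b ε u θ, rho a b ε (u * ze) (θ + dl),
      rho a b ε (u * ze * ze) (θ + dl + dl)] i) k) =
    (3 * ε * ze * ev θ (P0 (P b)) + 3 * ε ^ 2 * ev θ (P0 (conv (P b) (BB (Q a) ε)))).im := by
  have hB : ∀ φ, ze + ε * ev φ (BB (Q a) ε) =
      conj (ze * wf a ε (φ + dl)) * (ze * ze * wf a ε (φ + dl + dl)) := fun φ => by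
    simp only [BB, map_add, map_smul, ev_cm, ev_conv, ev_bar, ev_T, real_smul, wf, map_mul,
      conj_ofReal, map_one]
    linear_combination (-ze) * ze_mul_conj
  have e0 := hB θ
  have e1 := hB (θ + dl)
  have e2 := hB (θ + dl + dl)
  rw [wf_per] at e1 e2
  rw [show θ + dl + dl + dl + dl = θ + dl + dl + dl + dl from rfl, wf_per] at e2
  have key : 3 * ε * ze * ev θ (P0 (P b)) + 3 * ε ^ 2 * ev θ (P0 (conv (P b) (BB (Q a) ε))) =
      zf b ε θ * (conj (u * ze * wf a ε (θ + dl)) * (u * ze * ze * wf a ε (θ + dl + dl))) +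
      zf b ε (θ + dl) * (conj (u * ze * ze * wf a ε (θ + dl + dl)) * (u * wf a ε θ)) +
      zf b ε (θ + dl + dl) * (conj (u * wf a ε θ) * (u * ze * wf a ε (θ + dl))) := by
    have hu' : conj u * u = 1 := by rw [← normSq_eq_conj_mul_self, hu]; simp
    have h4 : ze * ze * (ze * ze) = ze := by linear_combination ze * ze3
    simp only [ev_P0, ev_conv, zf, map_mul, ← ze_sq] at e0 e1 e2 ⊢
    linear_combination ε * ev θ (P b) * e0 + ε * ev (θ + dl) (P b) * e1 +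
      ε * ev (θ + dl + dl) (P b) * e2 -
      (ε * ev θ (P b) * ze ^ 4 * conj (wf a ε (θ + dl)) * wf a ε (θ + dl + dl) +
        ε * ev (θ + dl) (P b) * ze ^ 4 * conj (wf a ε (θ + dl + dl)) * wf a ε θ +
        ε * ev (θ + dl + dl) (P b) * ze * conj (wf a ε θ) * wf a ε (θ + dl)) * hu' +
      ε * ev (θ + dl + dl) (P b) * conj (wf a ε θ) * wf a ε (θ + dl) * h4
  rw [key, Matrix.det_fin_three, ← zf_re b ε θ, ← zf_re b ε (θ + dl), ← zf_re b ε (θ + dl + dl)]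
  simp only [add_im, im_ofReal_mul]
  simp only [rho, VL_def]
  generalize u * wf a ε θ = w0
  generalize u * ze * wf a ε (θ + dl) = w1
  generalize u * ze * ze * wf a ε (θ + dl + dl) = w2
  simp
  ring

theorem vol_bound {a b σ η : A} {ν μ ε : ℝ} (h : FZ b σ η ν μ ε = 0) (hν : 0.9 < ν)
    (hμ : 0.64 < μ) (hμ' : μ < 0.66) (hε : 0 < ε) (hG : ‖G0 b σ‖ < 0.1) (hG' : ‖G1 a b ε‖ < 0.1)
    (θ : ℝ) :
    |(3 * ε * ze * ev θ (P0 (P b)) + 3 * ε ^ 2 * ev θ (P0 (conv (P b) (BB (Q a) ε)))).im +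
      6 * ε ^ 2| ≤ 2 * ε ^ 2 := by
  have h1 := (norm_ev_le θ _).trans (H_bound h hν hμ hμ' hε)
  have h2 := (norm_ev_le θ _).trans hG'.le
  simp only [map_add, map_sub, map_smul, ev_sg, ex_zero, mul_one, real_smul, G1] at h1 h2
  set H := ev θ (P0 (P b)) + ε * c0 with hH
  set G := ev θ (P0 (conv (P b) (BB (Q a) ε))) - c1 with hG1
  have e : (3 * ε * ze * ev θ (P0 (P b)) + 3 * ε ^ 2 * ev θ (P0 (conv (P b) (BB (Q a) ε)))).im =
      3 * ε * (ze * H).im + 3 * ε ^ 2 * G.im + ε ^ 2 * (3 * r3 / 2 * (1 - 9 * M0)) := by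
    rw [show ev θ (P0 (P b)) = H - ε * c0 by rw [hH]; ring,
      show ev θ (P0 (conv (P b) (BB (Q a) ε))) = G + c1 by rw [hG1]; ring]
    clear_value H G
    simp [c0, c1, pow_two]; ring
  have h3 : |(ze * H).im| ≤ 0.2 * ε := by
    refine (abs_im_le_norm _).trans ?_
    rw [norm_mul, show ‖ze‖ = 1 by rw [Complex.norm_def, normSq_ze, Real.sqrt_one], one_mul]
    nlinarith
  have h4 : |G.im| ≤ 0.1 := (abs_im_le_norm _).trans h2
  have h5 : |3 * r3 / 2 * (1 - 9 * M0) + 6| ≤ 1 := by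
    rw [abs_le]; constructor <;> nlinarith [r3_gt, r3_lt, M0_pos, M0_lt]
  rw [e, abs_le] at *
  have hε2 : 0 < ε ^ 2 := by positivity
  constructor <;> nlinarith

@[fun_prop] theorem continuous_conv {f g : X → A} (hf : Continuous f) (hg : Continuous g) :
    Continuous fun x => conv (f x) (g x) :=
  (conv.continuous.comp hf).clm_apply hg

theorem exists_good : ∃ (a b σ η : A) (ν μ ε : ℝ), Phi (a, b, σ, η, ν, μ, ε) = (0, 0, 0, 0, ε) ∧
    0 < ε ∧ ‖ε • σ‖ < 1 ∧ ‖ε • η‖ < 1 ∧ 0.9 < ν ∧ 0.64 < μ ∧ μ < 0.66 ∧ ‖G0 b σ‖ < 0.1 ∧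
    ‖G1 a b ε‖ < 0.1 := by
  have lt : ∀ f g : X → ℝ, Continuous f → Continuous g → f x0 < g x0 → ∀ᶠ x in 𝓝 x0, f x < g x :=
    fun f g hf hg h => (isOpen_lt hf hg).mem_nhds h
  have h1 := lt (fun x => ‖x.2.2.2.2.2.2 • x.2.2.1‖) (fun _ => 1) (by fun_prop) (by fun_prop)
    (by simp [x0])
  have h2 := lt (fun x => ‖x.2.2.2.2.2.2 • x.2.2.2.1‖) (fun _ => 1) (by fun_prop) (by fun_prop)
    (by simp [x0])
  have h3 := lt (fun _ => 0.9) (fun x => x.2.2.2.2.1) (by fun_prop) (by fun_prop)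
    (by simp [x0]; norm_num)
  have h4 := lt (fun _ => 0.64) (fun x => x.2.2.2.2.2.1) (by fun_prop) (by fun_prop)
    (by simp only [x0]; linarith [M0_eq, M0_lt])
  have h5 := lt (fun x => x.2.2.2.2.2.1) (fun _ => 0.66) (by fun_prop) (by fun_prop)
    (by simp only [x0]; linarith [M0_eq, M0_pos])
  have h6 := lt (fun x => ‖G0 x.2.1 x.2.2.1‖) (fun _ => 0.1) (by unfold G0; fun_prop) (by fun_prop)
    (by simp only [x0, G0_base]; norm_num)
  have h7 := lt (fun x => ‖G1 x.1 x.2.1 x.2.2.2.2.2.2‖) (fun _ => 0.1)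
    (by unfold G1 BB; fun_prop) (by fun_prop) (by simp only [x0, G1_base]; norm_num)
  obtain ⟨⟨a, b, σ, η, ν, μ, ε'⟩, hx, ε, hε, hP⟩ :=
    exists_sol (h1.and (h2.and (h3.and (h4.and (h5.and (h6.and h7))))))
  obtain rfl : ε' = ε := congrArg (fun y : Y => y.2.2.2.2) hP
  exact ⟨a, b, σ, η, ν, μ, ε', hP, hε, hx⟩

theorem rho_ode {a b σ η : A} {ν μ ε : ℝ} (hW : FW a σ η ν μ ε = 0) (hZ : FZ b σ η ν μ ε = 0)
    (c : ℂ) (φ : ℝ) : ∃ v : ℝ → E3, ∀ t : ℝ,
      HasDerivAt (fun t : ℝ => rho a b ε (ex 1 t * c) (ν * t + φ)) (v t) t ∧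
      HasDerivAt v (-VL (ex 1 t * c * (1 + ε * ev (ν * t + φ) (fW (Q a) σ η μ ε)),
        ε * ev (ν * t + φ) (fZ (P b) σ η μ ε))) t := by
  obtain ⟨v1, h1⟩ := ode 1 ν (shift φ (sg 0 1 + ε • Q a)) (shift φ (sg 0 1 + ε • fW (Q a) σ η μ ε))
    fun n => by
      simp only [shift_ap, add_ap, smul_ap, sg_ap, ← coefW hW n]
      split_ifs with h
      · subst h; simp
      · ring
  obtain ⟨v2, h2⟩ := ode 0 ν (shift φ (ε • P b)) (shift φ (ε • fZ (P b) σ η μ ε))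
    fun n => by
      simp only [shift_ap, smul_ap, ← coefZ hZ n]; ring
  have e0 : ex 1 0 = 1 := by simp [ex]
  simp only [ev_shift, map_add, map_smul, ev_one, real_smul, one_mul, zero_mul, e0] at h1 h2
  refine ⟨fun t => VL (c * v1 t, v2 t), fun t => ⟨?_, ?_⟩⟩
  · have := VL.hasFDerivAt.comp_hasDerivAt t (((h1 t).1.const_mul c).prodMk (h2 t).1)
    refine this.congr_of_eventuallyEq (Eventually.of_forall fun s => ?_)
    simp only [rho, wf, zf, Function.comp]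
    congr 2; ring
  · have := VL.hasFDerivAt.comp_hasDerivAt t (((h1 t).2.const_mul c).prodMk (h2 t).2)
    refine this.congr_deriv ?_
    rw [← map_neg, Prod.neg_mk]
    congr 2; ring

end Pool.Agent.Lib.MP_32f877_an.Bd
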