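import Pool.Agent.Lib.MP_32f877_an.Force

/-! The choice of offsets and the estimate of the determinant. -/

open Finset

namespace Pool.Agent.Lib.MP_32f877_an

/-- The determinant of the matrix with columns `x`, `y`, `z`. -/
def det3 (x y z : Fin 3 → ℝ) : ℝ :=
  x 0 * y 1 * z 2 - x 0 * z 1 * y 2 - y 0 * x 1 * z 2 + y 0 * z 1 * x 2 + z 0 * x 1 * y 2
    - z 0 * y 1 * x 2

theorem abs_det3_le {x y z : Fin 3 → ℝ} {a b c : ℝ} (hx : ∀ i, |x i| ≤ a) (hy : ∀ i, |y i| ≤ b)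
    (hz : ∀ i, |z i| ≤ c) : |det3 x y z| ≤ 6 * (a * b * c) := by
  have ha : 0 ≤ a := (abs_nonneg _).trans (hx 0)
  have hb : 0 ≤ b := (abs_nonneg _).trans (hy 0)
  have h : ∀ i j k, |x i * y j * z k| ≤ a * b * c := fun i j k => by
    rw [abs_mul, abs_mul]
    have := hx i
    have := hy j
    have := hz k
    gcongr
  have h1 := abs_le.1 (h 0 1 2)
  have h2 := abs_le.1 (h 0 2 1)
  have h3 := abs_le.1 (h 1 0 2)
  have h4 := abs_le.1 (h 2 0 1)
  have h5 := abs_le.1 (h 1 2 0)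
  have h6 := abs_le.1 (h 2 1 0)
  rw [abs_le, det3]
  constructor <;> nlinarith [h1.1, h1.2, h2.1, h2.2, h3.1, h3.2, h4.1, h4.2, h5.1, h5.2, h6.1, h6.2]

theorem exists_unit_perp (α β : ℝ) : ∃ c σ : ℝ, c ^ 2 + σ ^ 2 = 1 ∧ α * c + β * σ = 0 := by
  by_cases h : α ^ 2 + β ^ 2 = 0
  · have h1 : α = 0 := by nlinarith [sq_nonneg α, sq_nonneg β]
    exact ⟨1, 0, by norm_num, by simp [h1]⟩
  · have h0 : 0 < α ^ 2 + β ^ 2 := lt_of_le_of_ne (by positivity) (Ne.symm h)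
    have h1 : 0 < √(α ^ 2 + β ^ 2) := Real.sqrt_pos.2 h0
    refine ⟨β / √(α ^ 2 + β ^ 2), -α / √(α ^ 2 + β ^ 2), ?_, ?_⟩
    · rw [div_pow, div_pow, Real.sq_sqrt h0.le]
      field_simp
      ring
    · field_simp
      ring

/-- The offsets of the four bodies. -/
noncomputable def off (c σ : ℝ) : Fin 4 → E3 :=
  ![0, !₂[0, 1, 0], !₂[-σ, 2, c], !₂[c, 3, σ]]

theorem norm_off {c σ : ℝ} (h : c ^ 2 + σ ^ 2 = 1) (j : Fin 4) : ‖off c σ j‖ ≤ 4 := by
  rw [EuclideanSpace.norm_eq]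
  refine Real.sqrt_le_iff.2 ⟨by norm_num, ?_⟩
  fin_cases j <;> simp [off, Fin.sum_univ_three] <;> nlinarith [sq_nonneg c, sq_nonneg σ]

theorem det_estimate {m : Fin 4 → ℝ} {μ c σ s : ℝ} (h0 : ∀ j, 0 ≤ m j) (h1 : ∀ j, m j ≤ 1)
    (hμ0 : 0 ≤ μ) (hμ : μ ≤ 1 / 1000000) (hcs : c ^ 2 + σ ^ 2 = 1)
    (hk : (3 * (kap m 1 - kap m 0) - (kap m 3 - kap m 0)) * c +
      ((kap m 2 - kap m 0) - 2 * (kap m 1 - kap m 0)) * σ = 0)
    (hs : 1 ≤ s) {u : Fin 4 → E3} (hu : ‖u‖ ≤ 192 * μ)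
    (hu' : ∀ i (k : Fin 3), k ≠ 0 → |u i k| ≤ 15 * μ / s) :
    |Matrix.det (Matrix.of fun i k : Fin 3 =>
      (base m (off c σ) s i.succ + u i.succ - (base m (off c σ) s 0 + u 0)) k) - 1| ≤ 1 / 2 := by
  have hs0 : 0 < s := by linarith
  have hc1 : |c| ≤ 1 := by
    rw [← sq_le_one_iff_abs_le_one]
    nlinarith [sq_nonneg σ]
  have hσ1 : |σ| ≤ 1 := by
    rw [← sq_le_one_iff_abs_le_one]
    nlinarith [sq_nonneg c]
  have hl0 : 0 ≤ Real.log s := Real.log_nonneg hs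
  have hl1 : Real.log s ≤ s := by linarith [Real.log_le_sub_one_of_pos hs0]
  set ℓ := Real.log s with hℓ
  let bx : Fin 3 → ℝ := ![0, -σ, c]
  let by' : Fin 3 → ℝ := ![1, 2, 3]
  let bz : Fin 3 → ℝ := ![0, c, σ]
  let ux : Fin 3 → ℝ := fun i => u i.succ 0 - u 0 0
  let uy : Fin 3 → ℝ := fun i => u i.succ 1 - u 0 1
  let uz : Fin 3 → ℝ := fun i => u i.succ 2 - u 0 2
  let X : Fin 3 → ℝ := fun i => 20 * s * by' i - ℓ * (kap m i.succ - kap m 0) + bx i + ux i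
  have e : Matrix.det (Matrix.of fun i k : Fin 3 =>
      (base m (off c σ) s i.succ + u i.succ - (base m (off c σ) s 0 + u 0)) k) - 1 =
      det3 ux by' bz + det3 X uy (fun i => bz i + uz i) + det3 X by' uz := by
    rw [Matrix.det_fin_three]
    simp [base, off, ex, vel, det3, X, ux, uy, uz, bx, by', bz, ← hℓ]
    linear_combination hcs + ℓ * hk
  have hui : ∀ i (k : Fin 3), |u i k| ≤ 192 * μ := fun i k =>
    (PiLp.norm_apply_le (u i) k).trans ((norm_le_pi_norm u i).trans hu)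
  have hux : ∀ i, |ux i| ≤ 384 * μ := fun i => by
    have := abs_sub (u i.succ 0) (u 0 0)
    linarith [hui i.succ 0, hui 0 0]
  have huy : ∀ i, |uy i| ≤ 30 * μ / s := fun i => by
    have := abs_sub (u i.succ 1) (u 0 1)
    have e2 : 30 * μ / s = 15 * μ / s + 15 * μ / s := by ring
    linarith [hu' i.succ 1 (by decide), hu' 0 1 (by decide)]
  have huz : ∀ i, |uz i| ≤ 30 * μ / s := fun i => by
    have := abs_sub (u i.succ 2) (u 0 2)
    have e2 : 30 * μ / s = 15 * μ / s + 15 * μ / s := by ring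
    linarith [hu' i.succ 2 (by decide), hu' 0 2 (by decide)]
  have hby : ∀ i, |by' i| ≤ 3 := fun i => by
    fin_cases i <;> simp [by'] <;> norm_num
  have hbz : ∀ i, |bz i| ≤ 1 := fun i => by
    fin_cases i <;> simp [bz, hc1, hσ1]
  have hbx : ∀ i, |bx i| ≤ 1 := fun i => by
    fin_cases i <;> simp [bx, hc1, hσ1]
  have hZ : ∀ i, |bz i + uz i| ≤ 3 := fun i => by
    have h2 := abs_add_le (bz i) (uz i)
    have h3 : 30 * μ / s ≤ 30 * μ := div_le_self (by positivity) hs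
    linarith [hbz i, huz i]
  have hX : ∀ i, |X i| ≤ 63 * s := fun i => by
    have h2 : |20 * s * by' i| ≤ 60 * s := by
      rw [abs_mul, abs_of_pos (by positivity)]
      nlinarith [hby i]
    have h3 : |ℓ * (kap m i.succ - kap m 0)| ≤ s := by
      have h4 := abs_sub (kap m i.succ) (kap m 0)
      have h5 : |kap m i.succ - kap m 0| ≤ 1 := by
        linarith [abs_kap_le h0 h1 i.succ, abs_kap_le h0 h1 0]
      rw [abs_mul, abs_of_nonneg hl0]
      nlinarith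
    have h6 := abs_le.1 h2
    have h7 := abs_le.1 h3
    have h8 := abs_le.1 (hbx i)
    have h9 := abs_le.1 (hux i)
    rw [abs_le]
    constructor <;> simp only [X] <;> linarith [h6.1, h6.2, h7.1, h7.2, h8.1, h8.2, h9.1, h9.2]
  have d1 := abs_le.1 (abs_det3_le hux hby hbz)
  have d2 := abs_le.1 (abs_det3_le hX huy hZ)
  have d3 := abs_le.1 (abs_det3_le hX hby huz)
  have e2 : 63 * s * (30 * μ / s) * 3 = 5670 * μ := by
    field_simp
    ring
  have e3 : 63 * s * 3 * (30 * μ / s) = 5670 * μ := by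
    field_simp
    ring
  rw [e2] at d2
  rw [e3] at d3
  rw [e, abs_le]
  constructor <;> linarith [d1.1, d1.2, d2.1, d2.2, d3.1, d3.2]

end Pool.Agent.Lib.MP_32f877_an
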