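import Mathlib

/-! Absolutely convergent Fourier series: multipliers, convolution, evaluation. -/

open Complex ComplexConjugate

namespace Pool.Agent.Lib.MP_32f877_an.Bd

noncomputable abbrev A := lp (fun _ : ℤ => ℂ) 1

theorem summ (a : A) : Summable fun n => ‖a n‖ := by
  simpa using a.2.summable

theorem norm_eq (a : A) : ‖a‖ = ∑' n, ‖a n‖ := by
  rw [lp.norm_eq_tsum_rpow (by simp)]; simp

def mk (f : ℤ → ℂ) (h : Summable fun n => ‖f n‖) : A := ⟨f, memℓp_gen (by simpa using h)⟩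

@[simp] theorem mk_apply (f : ℤ → ℂ) (h : Summable fun n => ‖f n‖) (n : ℤ) : mk f h n = f n := rfl

theorem ext' {a b : A} (h : ∀ n, a n = b n) : a = b := lp.ext (funext h)

@[simp] theorem add_ap (a b : A) (n : ℤ) : (a + b) n = a n + b n := rfl
@[simp] theorem sub_ap (a b : A) (n : ℤ) : (a - b) n = a n - b n := rfl
@[simp] theorem neg_ap (a : A) (n : ℤ) : (-a) n = -a n := rfl
@[simp] theorem zero_ap (n : ℤ) : (0 : A) n = 0 := rfl
@[simp] theorem smul_ap (r : ℝ) (a : A) (n : ℤ) : (r • a) n = (r : ℂ) * a n := by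
  rw [lp.coeFn_smul]; simp

theorem norm_le_of {a b : A} {B : ℝ} (h : ∀ n, ‖a n‖ ≤ B * ‖b n‖) : ‖a‖ ≤ B * ‖b‖ := by
  rw [norm_eq, norm_eq, ← tsum_mul_left]
  exact (summ a).tsum_le_tsum h ((summ b).mul_left B)

noncomputable def op (e : ℤ ≃ ℤ) (T : ℤ → ℂ →ₗ[ℝ] ℂ) (B : ℝ) (h : ∀ n z, ‖T n z‖ ≤ B * ‖z‖) :
    A →L[ℝ] A :=
  LinearMap.mkContinuous
    { toFun := fun a => mk (fun n => T n (a (e n)))
        (Summable.of_nonneg_of_le (fun _ => norm_nonneg _) (fun n => h n _)
          (((e.summable_iff (f := fun n => ‖a n‖)).2 (summ a)).mul_left B))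
      map_add' := fun a b => ext' fun n => by simp
      map_smul' := fun r a => ext' fun n => by
        simp only [mk_apply, RingHom.id_apply, smul_ap]
        rw [← Complex.real_smul, ← Complex.real_smul, map_smul] } B
    fun a => by
      rw [norm_eq, norm_eq, ← e.tsum_eq (fun n => ‖a n‖), ← tsum_mul_left]
      exact (summ _).tsum_le_tsum (fun n => h n _)
        (((e.summable_iff (f := fun n => ‖a n‖)).2 (summ a)).mul_left B)

theorem op_apply (e : ℤ ≃ ℤ) (T : ℤ → ℂ →ₗ[ℝ] ℂ) (B : ℝ) (h : ∀ n z, ‖T n z‖ ≤ B * ‖z‖)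
    (a : A) (n : ℤ) : op e T B h a n = T n (a (e n)) := rfl

def Bdd (φ : ℤ → ℂ) : Prop := ∃ B : ℝ, ∀ n, ‖φ n‖ ≤ B

open Classical in
noncomputable def mul (φ : ℤ → ℂ) : A →L[ℝ] A :=
  if h : Bdd φ then
    op (Equiv.refl ℤ) (fun n => LinearMap.mulLeft ℝ (φ n)) h.choose fun n z => by
      simp only [LinearMap.mulLeft_apply, norm_mul]
      exact mul_le_mul_of_nonneg_right (h.choose_spec n) (norm_nonneg _)
  else 0

theorem mul_ap {φ : ℤ → ℂ} (h : Bdd φ) (a : A) (n : ℤ) : mul φ a n = φ n * a n := by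
  rw [mul, dif_pos h]; rfl

noncomputable def flip : A →L[ℝ] A :=
  op (Equiv.neg ℤ) (fun _ => LinearMap.id) 1 fun n z => by simp

@[simp] theorem flip_ap (a : A) (n : ℤ) : flip a n = a (-n) := rfl

noncomputable def cj : A →L[ℝ] A :=
  op (Equiv.refl ℤ) (fun _ => (Complex.conjAe.toLinearMap)) 1 fun n z => by simp

@[simp] theorem cj_ap (a : A) (n : ℤ) : cj a n = conj (a n) := rfl

/-- multiplication by a complex constant -/
noncomputable def cm (c : ℂ) : A →L[ℝ] A := mul fun _ => c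

@[simp] theorem cm_ap (c : ℂ) (a : A) (n : ℤ) : cm c a n = c * a n :=
  mul_ap ⟨‖c‖, fun _ => le_rfl⟩ a n

def sh : ℤ × ℤ ≃ ℤ × ℤ where
  toFun x := (x.2, x.1 - x.2)
  invFun y := (y.1 + y.2, y.1)
  left_inv x := by simp
  right_inv y := by simp

theorem summ2 (a b : A) : Summable fun x : ℤ × ℤ => ‖a x.2‖ * ‖b (x.1 - x.2)‖ := by
  have h := summable_mul_of_summable_norm (f := fun n => ‖a n‖) (g := fun n => ‖b n‖)
    (by simpa using summ a) (by simpa using summ b)
  exact (sh.summable_iff (f := fun x : ℤ × ℤ => ‖a x.1‖ * ‖b x.2‖)).2 h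

theorem summ3 (a b : A) (n : ℤ) : Summable fun k => a k * b (n - k) :=
  Summable.of_norm (by simpa using (summ2 a b).prod_factor n)

theorem conv_le (a b : A) (n : ℤ) :
    ‖∑' k, a k * b (n - k)‖ ≤ ∑' k, ‖a k‖ * ‖b (n - k)‖ := by
  have h := norm_tsum_le_tsum_norm (f := fun k => a k * b (n - k))
    (by simpa using (summ2 a b).prod_factor n)
  simpa using h

noncomputable def convF (a b : A) : A :=
  mk (fun n => ∑' k, a k * b (n - k))
    (Summable.of_nonneg_of_le (fun _ => norm_nonneg _) (conv_le a b) (summ2 a b).prod)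

theorem convF_norm (a b : A) : ‖convF a b‖ ≤ 1 * ‖a‖ * ‖b‖ := by
  rw [one_mul, norm_eq a, norm_eq b, tsum_mul_tsum_of_summable_norm (by simpa using summ a)
    (by simpa using summ b), ← sh.tsum_eq, norm_eq]
  refine le_trans ((summ _).tsum_le_tsum (conv_le a b) (summ2 a b).prod) ?_
  rw [← (summ2 a b).tsum_prod]
  rfl

noncomputable def conv : A →L[ℝ] A →L[ℝ] A :=
  LinearMap.mkContinuous₂
    (LinearMap.mk₂ ℝ convF
      (fun a a' b => ext' fun n => by
        simp only [convF, mk_apply, add_ap, add_mul]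
        exact (summ3 a b n).tsum_add (summ3 a' b n))
      (fun r a b => ext' fun n => by
        simp only [convF, mk_apply, smul_ap, mul_assoc, tsum_mul_left])
      (fun a b b' => ext' fun n => by
        simp only [convF, mk_apply, add_ap, mul_add]
        exact (summ3 a b n).tsum_add (summ3 a b' n))
      (fun r a b => ext' fun n => by
        simp only [convF, mk_apply, smul_ap, mul_left_comm _ (r : ℂ), tsum_mul_left]))
    1 convF_norm

theorem conv_ap (a b : A) (n : ℤ) : conv a b n = ∑' k, a k * b (n - k) := rfl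

noncomputable def ex (n : ℤ) (θ : ℝ) : ℂ := exp (((n * θ : ℝ) : ℂ) * I)

@[simp] theorem norm_ex (n : ℤ) (θ : ℝ) : ‖ex n θ‖ = 1 := norm_exp_ofReal_mul_I _

theorem ex_add (n k : ℤ) (θ : ℝ) : ex (n + k) θ = ex n θ * ex k θ := by
  simp only [ex, ← Complex.exp_add]; congr 1; push_cast; ring

theorem ex_add' (n : ℤ) (θ φ : ℝ) : ex n (θ + φ) = ex n θ * ex n φ := by
  simp only [ex, ← Complex.exp_add]; congr 1; push_cast; ring

theorem ex_neg (n : ℤ) (θ : ℝ) : ex (-n) θ = ex n (-θ) := by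
  simp only [ex]; congr 1; push_cast; ring

theorem conj_ex (n : ℤ) (θ : ℝ) : conj (ex n θ) = ex n (-θ) := by
  simp only [ex, ← Complex.exp_conj, map_mul, conj_ofReal, conj_I]; congr 1; push_cast; ring

@[simp] theorem ex_zero (θ : ℝ) : ex 0 θ = 1 := by simp [ex]

theorem summE (a : A) (θ : ℝ) : Summable fun n => a n * ex n θ :=
  Summable.of_norm (by simpa using summ a)

noncomputable def ev (θ : ℝ) : A →L[ℝ] ℂ :=
  LinearMap.mkContinuous
    { toFun := fun a => ∑' n, a n * ex n θ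
      map_add' := fun a b => by
        simp only [add_ap, add_mul]; exact (summE a θ).tsum_add (summE b θ)
      map_smul' := fun r a => by
        simp only [smul_ap, mul_assoc, tsum_mul_left, RingHom.id_apply, real_smul] } 1
    fun a => by
      have h := norm_tsum_le_tsum_norm (f := fun n => a n * ex n θ) (by simpa using summ a)
      simpa [norm_eq] using h

theorem ev_def (θ : ℝ) (a : A) : ev θ a = ∑' n, a n * ex n θ := rfl

theorem norm_ev_le (θ : ℝ) (a : A) : ‖ev θ a‖ ≤ ‖a‖ := by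
  have h := norm_tsum_le_tsum_norm (f := fun n => a n * ex n θ) (by simpa using summ a)
  simpa [norm_eq, ev_def] using h

theorem tsum_conv (f g : ℤ → ℂ) (hf : Summable fun n => ‖f n‖) (hg : Summable fun n => ‖g n‖) :
    (∑' n, f n) * ∑' n, g n = ∑' n, ∑' k, f k * g (n - k) := by
  have h1 : Summable fun x : ℤ × ℤ => f x.1 * g x.2 := summable_mul_of_summable_norm hf hg
  have h2 : Summable fun x : ℤ × ℤ => f (sh x).1 * g (sh x).2 := sh.summable_iff.2 h1
  have h3 := sh.tsum_eq fun x : ℤ × ℤ => f x.1 * g x.2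
  rw [tsum_mul_tsum_of_summable_norm hf hg, ← h3, h2.tsum_prod]
  rfl

@[simp] theorem ev_conv (θ : ℝ) (a b : A) : ev θ (conv a b) = ev θ a * ev θ b := by
  have ha : Summable fun n => ‖a n * ex n θ‖ := by simpa using summ a
  have hb : Summable fun n => ‖b n * ex n θ‖ := by simpa using summ b
  rw [ev_def, ev_def, ev_def, tsum_conv _ _ ha hb]
  refine tsum_congr fun n => ?_
  rw [conv_ap, ← tsum_mul_right]
  refine tsum_congr fun k => ?_
  have : ex n θ = ex k θ * ex (n - k) θ := by rw [← ex_add]; congr 1; ring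
  rw [this]; ring

@[simp] theorem ev_flip (θ : ℝ) (a : A) : ev θ (flip a) = ev (-θ) a := by
  rw [ev_def, ev_def, ← (Equiv.neg ℤ).tsum_eq]
  simp [ex_neg]

@[simp] theorem ev_cj (θ : ℝ) (a : A) : ev θ (cj a) = conj (ev (-θ) a) := by
  rw [ev_def, ev_def, conj_tsum]
  simp [conj_ex]

@[simp] theorem ev_cm (θ : ℝ) (c : ℂ) (a : A) : ev θ (cm c a) = c * ev θ a := by
  simp only [ev_def, cm_ap, mul_assoc, tsum_mul_left]

/-- time shift -/
noncomputable def shift (φ : ℝ) : A →L[ℝ] A := mul fun n => ex n φ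

@[simp] theorem shift_ap (φ : ℝ) (a : A) (n : ℤ) : shift φ a n = ex n φ * a n :=
  mul_ap ⟨1, fun _ => by simp⟩ a n

@[simp] theorem ev_shift (θ φ : ℝ) (a : A) : ev θ (shift φ a) = ev (θ + φ) a := by
  simp only [ev_def, shift_ap, ex_add']
  exact tsum_congr fun n => by ring

theorem ev_per (θ : ℝ) (a : A) : ev (θ + 2 * Real.pi) a = ev θ a := by
  simp only [ev_def, ex_add']
  refine tsum_congr fun n => ?_
  have : ex n (2 * Real.pi) = 1 := by
    rw [ex, ← exp_int_mul_two_pi_mul_I n]; congr 1; push_cast; ring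
  rw [this, mul_one]

noncomputable def sg (k : ℤ) (c : ℂ) : A := lp.single 1 k c

@[simp] theorem sg_ap (k : ℤ) (c : ℂ) (n : ℤ) : sg k c n = if n = k then c else 0 := by
  rw [sg, lp.single_apply, Pi.single_apply]

theorem ev_sg (θ : ℝ) (k : ℤ) (c : ℂ) : ev θ (sg k c) = c * ex k θ := by
  rw [ev_def, tsum_eq_single k fun n hn => by simp [hn]]; simp

theorem conv_sg (k : ℤ) (c : ℂ) (b : A) (n : ℤ) : conv (sg k c) b n = c * b (n - k) := by
  rw [conv_ap, tsum_eq_single k fun j hj => by simp [hj]]; simp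

/-- A Fourier series whose coefficients satisfy the second order equation is twice
differentiable. -/
theorem ode (κ ν : ℝ) (a f : A) (h : ∀ n : ℤ, (((n * ν + κ) ^ 2 : ℝ) : ℂ) * a n = f n) :
    ∃ v : ℝ → ℂ, ∀ t : ℝ, HasDerivAt (fun t : ℝ => ex 1 (κ * t) * ev (ν * t) a) (v t) t ∧
      HasDerivAt v (-(ex 1 (κ * t) * ev (ν * t) f)) t := by
  set l : ℤ → ℝ := fun n => n * ν + κ with hl
  have hE : ∀ (n : ℤ) (t : ℝ), HasDerivAt (fun t : ℝ => ex 1 (l n * t)) (l n * I * ex 1 (l n * t)) t := by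
    intro n t
    have h1 : HasDerivAt (fun t : ℝ => (((1 : ℤ) * (l n * t) : ℝ) : ℂ) * I) (l n * I) t := by
      have := ((hasDerivAt_id t).const_mul (l n)).ofReal_comp.mul_const I
      simpa using this
    have := h1.cexp
    simpa [ex, mul_comm] using this
  have hs : ∀ (b : A) (t : ℝ), ex 1 (κ * t) * ev (ν * t) b = ∑' n, b n * ex 1 (l n * t) := by
    intro b t
    rw [ev_def, ← tsum_mul_left]
    refine tsum_congr fun n => ?_
    have : ex 1 (l n * t) = ex 1 (κ * t) * ex n (ν * t) := by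
      simp only [ex, ← Complex.exp_add, hl]; congr 1; push_cast; ring
    rw [this]; ring
  have hf : ∀ n, l n ^ 2 * ‖a n‖ = ‖f n‖ := fun n => by
    rw [← h n, norm_mul, Complex.norm_real, Real.norm_of_nonneg (sq_nonneg _)]
  refine ⟨fun t => ∑' n, a n * (l n * I * ex 1 (l n * t)), fun t => ⟨?_, ?_⟩⟩
  · simp only [hs]
    refine hasDerivAt_tsum (u := fun n => ‖a n‖ + ‖f n‖) ((summ a).add (summ f))
      (fun n y => (hE n y).const_mul (a n)) (fun n y => ?_) (y₀ := 0)
      (Summable.of_norm (by simpa using summ a)) t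
    simp only [norm_mul, norm_ex, norm_I, mul_one, Complex.norm_real, Real.norm_eq_abs, ← hf]
    have : |l n| ≤ 1 + l n ^ 2 := by
      rw [← sq_abs]; nlinarith [abs_nonneg (l n), sq_nonneg (|l n| - 1)]
    nlinarith [norm_nonneg (a n)]
  · rw [hs, ← tsum_neg]
    have key : ∀ n y, HasDerivAt (fun t : ℝ => a n * (l n * I * ex 1 (l n * t)))
        (-(f n * ex 1 (l n * y))) y := by
      intro n y
      refine (((hE n y).const_mul (l n * I)).const_mul (a n)).congr_deriv ?_
      rw [← h n]; simp only [hl]; push_cast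
      linear_combination (a n * ((n : ℂ) * ν + κ) ^ 2 * ex 1 ((n * ν + κ) * y)) * I_mul_I
    refine hasDerivAt_tsum (u := fun n => ‖f n‖) (summ f) key (fun n y => by simp) (y₀ := 0)
      (Summable.of_norm_bounded (g := fun n => ‖a n‖ + ‖f n‖) ((summ a).add (summ f)) fun n => ?_) t
    simp only [norm_mul, norm_ex, norm_I, mul_one, Complex.norm_real, Real.norm_eq_abs, ← hf]
    have : |l n| ≤ 1 + l n ^ 2 := by
      rw [← sq_abs]; nlinarith [abs_nonneg (l n), sq_nonneg (|l n| - 1)]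
    nlinarith [norm_nonneg (a n)]

end Pool.Agent.Lib.MP_32f877_an.Bd
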